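import Mathlib
import Pool.Agent.Lib.MP_c95b3b_ag_h60.Torus

set_option autoImplicit false

/-!
Zilber's conjecture for a complex variety and for its images which are defined over the algebraic
numbers: definitions; the ultrapower of the complex numbers, its subfield of the algebraic germs,
the internal derivations.
-/

namespace Pool.Agent.CITR

open MvPolynomial Filter

/-! ### The statements -/

/-- The point `x` of the torus lies on the variety of `P`. -/
def OnTorus (n : ℕ) (P : Ideal (MvPolynomial (Fin n) ℂ)) (x : Fin n → ℂ) : Prop :=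
  (∀ i, x i ≠ 0) ∧ ∀ g ∈ P, eval x g = 0

/-- The point `x` lies in `U(Y)`, `Y` the variety of `P` in the torus: it lies on `Y` and in an
algebraic subgroup `H` with `dim Y + dim H ≤ n - 1`. -/
def Unlikely (n : ℕ) (P : Ideal (MvPolynomial (Fin n) ℂ)) (x : Fin n → ℂ) : Prop :=
  OnTorus n P x ∧ ∃ Λ : Submodule ℤ (Fin n → ℤ),
    ringKrullDim (MvPolynomial (Fin n) ℂ ⧸ P)
      + ((n - Module.finrank ℤ Λ : ℕ) : WithBot ℕ∞) + 1 ≤ (n : WithBot ℕ∞) ∧
    ∀ a ∈ Λ, ∏ i : Fin n, x i ^ a i = 1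

/-- The variety of `P` in the torus lies in a proper algebraic subgroup. -/
def InSubgroup (n : ℕ) (P : Ideal (MvPolynomial (Fin n) ℂ)) : Prop :=
  ∃ a : Fin n → ℤ, a ≠ 0 ∧ ∀ x : Fin n → ℂ, OnTorus n P x → ∏ i : Fin n, x i ^ a i = 1

/-! ### The ultrapower -/

/-- The ultrapower of the complex numbers. -/
def US {ι : Type} (φ : Ultrafilter ι) : Type := (φ : Filter ι).Germ ℂ

variable {ι : Type} (φ : Ultrafilter ι)

noncomputable instance : Field (US φ) := inferInstanceAs (Field ((φ : Filter ι).Germ ℂ))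

/-- The class of a function. -/
def cl (f : ι → ℂ) : US φ := (f : (φ : Filter ι).Germ ℂ)

variable {φ}

theorem cl_eq {f g : ι → ℂ} : cl φ f = cl φ g ↔ ∀ᶠ i in (φ : Filter ι), f i = g i :=
  Germ.coe_eq

theorem cl_surj (z : US φ) : ∃ f : ι → ℂ, z = cl φ f := by
  induction z using Germ.inductionOn with
  | _ f => exact ⟨f, rfl⟩

variable (φ) in
/-- The class map is a ring homomorphism. -/
def clHom : (ι → ℂ) →+* US φ := Germ.coeRingHom (φ : Filter ι)

theorem clHom_apply (f : ι → ℂ) : clHom φ f = cl φ f := rfl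

theorem cl_add (f g : ι → ℂ) : cl φ (fun i => f i + g i) = cl φ f + cl φ g := rfl

theorem cl_mul (f g : ι → ℂ) : cl φ (fun i => f i * g i) = cl φ f * cl φ g := rfl

theorem cl_zero : cl φ (fun _ => 0) = 0 := rfl

theorem cl_one : cl φ (fun _ => 1) = 1 := rfl

theorem cl_inv (f : ι → ℂ) : cl φ (fun i => (f i)⁻¹) = (cl φ f)⁻¹ := rfl

theorem cl_eq_zero {f : ι → ℂ} : cl φ f = 0 ↔ ∀ᶠ i in (φ : Filter ι), f i = 0 := by
  rw [← cl_zero, cl_eq]

noncomputable instance : Algebra ℂ (US φ) :=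
  ((clHom φ).comp (Pi.constRingHom ι ℂ)).toAlgebra

theorem algebraMap_eq_cl (c : ℂ) : algebraMap ℂ (US φ) c = cl φ (fun _ => c) := rfl

instance : CharZero (US φ) :=
  charZero_of_injective_algebraMap (R := ℂ) (algebraMap ℂ (US φ)).injective

variable (φ) in
/-- The germs of the functions with algebraic values. -/
noncomputable def kst : Subfield (US φ) where
  carrier := {z | ∃ f : ι → ℂ, (∀ i, IsAlgebraic ℚ (f i)) ∧ z = cl φ f}
  mul_mem' := by
    rintro _ _ ⟨f, hf, rfl⟩ ⟨g, hg, rfl⟩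
    exact ⟨fun i => f i * g i, fun i => (hf i).mul (hg i), rfl⟩
  one_mem' := ⟨fun _ => 1, fun _ => isAlgebraic_one, rfl⟩
  add_mem' := by
    rintro _ _ ⟨f, hf, rfl⟩ ⟨g, hg, rfl⟩
    exact ⟨fun i => f i + g i, fun i => (hf i).add (hg i), rfl⟩
  zero_mem' := ⟨fun _ => 0, fun _ => isAlgebraic_zero, rfl⟩
  neg_mem' := by
    rintro _ ⟨f, hf, rfl⟩
    exact ⟨fun i => -f i, fun i => (hf i).neg, rfl⟩
  inv_mem' := by
    rintro _ ⟨f, hf, rfl⟩
    exact ⟨fun i => (f i)⁻¹, fun i => (hf i).inv, rfl⟩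

theorem cl_mem_kst {f : ι → ℂ} :
    cl φ f ∈ kst φ ↔ ∀ᶠ i in (φ : Filter ι), IsAlgebraic ℚ (f i) := by
  classical
  constructor
  · rintro ⟨g, hg, h⟩
    filter_upwards [cl_eq.mp h] with i hi
    rw [hi]
    exact hg i
  · intro h
    refine ⟨fun i => if IsAlgebraic ℚ (f i) then f i else 0, fun i => ?_, ?_⟩
    · by_cases hi : IsAlgebraic ℚ (f i)
      · simp only [hi, if_true]
      · simp only [hi, if_false]
        exact isAlgebraic_zero
    · rw [cl_eq]
      filter_upwards [h] with i hi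
      rw [if_pos hi]

theorem exists_of_mem_kst {z : US φ} (hz : z ∈ kst φ) :
    ∃ f : ι → ℂ, (∀ i, IsAlgebraic ℚ (f i)) ∧ z = cl φ f := hz

/-- A derivation of the complex numbers vanishes on the algebraic numbers. -/
theorem der_algebraic (δ : Derivation ℚ ℂ ℂ) {z : ℂ} (hz : IsAlgebraic ℚ z) : δ z = 0 := by
  obtain ⟨p, hp0, hp⟩ := hz
  have hmin : (minpoly ℚ z).aeval z = 0 := minpoly.aeval ℚ z
  have hz' : IsIntegral ℚ z := IsAlgebraic.isIntegral ⟨p, hp0, hp⟩
  have h1 : δ ((minpoly ℚ z).aeval z) = (Polynomial.aeval z (Polynomial.derivative (minpoly ℚ z))) *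
      δ z := by
    rw [← smul_eq_mul]
    exact δ.map_aeval _ _
  rw [hmin, map_zero] at h1
  have h2 : Polynomial.aeval z (Polynomial.derivative (minpoly ℚ z)) ≠ 0 :=
    (minpoly.irreducible hz').separable.aeval_derivative_ne_zero hmin
  exact (mul_eq_zero.mp h1.symm).resolve_left h2

variable (φ) in
/-- The additive map given by a family of derivations. -/
noncomputable def iderFun (δ : ι → Derivation ℚ ℂ ℂ) : US φ → US φ :=
  Germ.map' (fun f i => δ i (f i)) (by
    intro f g h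
    filter_upwards [h] with i hi
    rw [hi])

theorem iderFun_cl (δ : ι → Derivation ℚ ℂ ℂ) (f : ι → ℂ) :
    iderFun φ δ (cl φ f) = cl φ (fun i => δ i (f i)) := rfl

theorem iderFun_add (δ : ι → Derivation ℚ ℂ ℂ) (y z : US φ) :
    iderFun φ δ (y + z) = iderFun φ δ y + iderFun φ δ z := by
  obtain ⟨f, rfl⟩ := cl_surj y
  obtain ⟨g, rfl⟩ := cl_surj z
  rw [← cl_add, iderFun_cl, iderFun_cl, iderFun_cl, ← cl_add]
  congr 1
  funext i
  exact map_add _ _ _

theorem iderFun_mul (δ : ι → Derivation ℚ ℂ ℂ) (y z : US φ) :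
    iderFun φ δ (y * z) = y * iderFun φ δ z + z * iderFun φ δ y := by
  obtain ⟨f, rfl⟩ := cl_surj y
  obtain ⟨g, rfl⟩ := cl_surj z
  rw [← cl_mul, iderFun_cl, iderFun_cl, iderFun_cl, ← cl_mul, ← cl_mul, ← cl_add]
  congr 1
  funext i
  rw [Derivation.leibniz, smul_eq_mul, smul_eq_mul]

theorem iderFun_kst (δ : ι → Derivation ℚ ℂ ℂ) {z : US φ} (hz : z ∈ kst φ) :
    iderFun φ δ z = 0 := by
  obtain ⟨f, hf, rfl⟩ := exists_of_mem_kst hz
  rw [iderFun_cl, cl_eq_zero]
  exact Eventually.of_forall fun i => der_algebraic (δ i) (hf i)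

variable (φ) in
/-- The internal derivations of the ultrapower. -/
noncomputable def ider (δ : ι → Derivation ℚ ℂ ℂ) : Derivation (kst φ) (US φ) (US φ) :=
  Derivation.mk' {
    toFun := iderFun φ δ
    map_add' := iderFun_add δ
    map_smul' := fun a z => by
      rw [Subfield.smul_def, smul_eq_mul, iderFun_mul, iderFun_kst δ a.2, mul_zero, add_zero]
      rfl } (fun y z => by
      show iderFun φ δ (y * z) = _
      rw [iderFun_mul]
      rfl)

theorem ider_cl (δ : ι → Derivation ℚ ℂ ℂ) (f : ι → ℂ) :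
    ider φ δ (cl φ f) = cl φ (fun i => δ i (f i)) := rfl

/-- The exponents of the monomials whose value is a constant. -/
def Gam (k : Type) {K : Type} [Field k] [Field K] [Algebra k K] {n : ℕ} (x : Fin n → K) :
    Set (Fin n → k) :=
  {a | ∃ m : Fin n → ℤ, (∀ j, a j = (m j : k)) ∧ ∏ j, x j ^ m j ∈ (algebraMap k K).range}

/-- The generic point of the variety in the ultrapower. -/
def xg {n : ℕ} (φ : Ultrafilter (Fin n → ℂ)) : Fin n → US φ := fun j => cl φ (fun x => x j)

/-- The group of the exponents of the monomials which are algebraic at almost all points. -/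
def GamZ {n : ℕ} (φ : Ultrafilter (Fin n → ℂ)) : Submodule ℤ (Fin n → ℤ) :=
  AddSubgroup.toIntSubmodule {
    carrier := {a | ∀ᶠ x in (φ : Filter (Fin n → ℂ)), (∀ j, x j ≠ 0) →
      IsAlgebraic ℚ (∏ j, x j ^ a j)}
    zero_mem' := by
      refine Eventually.of_forall fun x _ => ?_
      simp [isAlgebraic_one]
    add_mem' := by
      intro a b ha hb
      filter_upwards [ha, hb] with x h1 h2 hx
      have h3 := (h1 hx).mul (h2 hx)
      rw [← Finset.prod_mul_distrib] at h3
      have h4 : ∏ j, x j ^ (a + b) j = ∏ j, x j ^ a j * x j ^ b j :=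
        Finset.prod_congr rfl fun j _ => by rw [Pi.add_apply, zpow_add₀ (hx j)]
      rw [h4]
      exact h3
    neg_mem' := by
      intro a ha
      filter_upwards [ha] with x h1 hx
      have h3 := (h1 hx).inv
      rw [← Finset.prod_inv_distrib] at h3
      have h4 : ∏ j, x j ^ (-a) j = ∏ j, (x j ^ a j)⁻¹ :=
        Finset.prod_congr rfl fun j _ => by rw [Pi.neg_apply, zpow_neg]
      show IsAlgebraic ℚ (∏ j, x j ^ (-a) j)
      rw [h4]
      exact h3 }

theorem mem_GamZ {n : ℕ} {φ : Ultrafilter (Fin n → ℂ)} {a : Fin n → ℤ} :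
    a ∈ GamZ φ ↔ ∀ᶠ x in (φ : Filter (Fin n → ℂ)), (∀ j, x j ≠ 0) →
      IsAlgebraic ℚ (∏ j, x j ^ a j) := Iff.rfl

/-- Integer vectors depending on the point, as vectors over the field of the algebraic germs. -/
noncomputable def ast {ι : Type} (φ : Ultrafilter ι) {n p : ℕ} (a : ι → Fin p → Fin n → ℤ)
    (l : Fin p) (j : Fin n) : kst φ :=
  ⟨cl φ (fun x => ((a x l j : ℤ) : ℂ)), cl_mem_kst.mpr (Eventually.of_forall fun x =>
    isAlgebraic_intCast (a x l j))⟩

/-- The monomials with the exponents `γ` at the generic point. -/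
noncomputable def bg {n m : ℕ} (φ : Ultrafilter (Fin n → ℂ)) (γ : Fin m → Fin n → ℤ) :
    Fin m → US φ := fun l => ∏ j, xg φ j ^ γ l j

/-- The ideal of the image of the variety under the monomial map `γ`. -/
noncomputable def Qid {n m : ℕ} (φ : Ultrafilter (Fin n → ℂ)) (γ : Fin m → Fin n → ℤ) :
    Ideal (MvPolynomial (Fin m) ℂ) := RingHom.ker (aeval (bg φ γ) : MvPolynomial (Fin m) ℂ →ₐ[ℂ] US φ)

end Pool.Agent.CITR
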