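import Mathlib
import Pool.Agent.Lib.MP_c95b3b_ag_h8.Indep
import Pool.Agent.Lib.MP_c95b3b_ag_R.Defs

set_option autoImplicit false

/-!
Derivations of the complex numbers which are dual to a finite algebraically independent family.
-/

namespace Pool.Agent.CITR

open Set MvPolynomial Module

/-- The differentials of a transcendence basis are linearly independent. -/
theorem der_linearIndependent_D {k L ι : Type} [Field k] [CharZero k] [Field L] [Algebra k L]
    (x : ι → L) (hx : AlgebraicIndependent k x)
    (hx' : ∀ y : L, y ∈ CIT8.acl k (range x)) :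
    LinearIndependent L (fun i => KaehlerDifferential.D k L (x i)) := by
  classical
  let S := MvPolynomial ι k
  let _ : Algebra S L := (aeval x : S →ₐ[k] L).toRingHom.toAlgebra
  have hS : ∀ s : S, algebraMap S L s = aeval x s := fun _ => rfl
  have : IsScalarTower k S L := IsScalarTower.of_algebraMap_eq fun r => by
    rw [hS, MvPolynomial.algebraMap_eq, aeval_C]
  have hinj : Function.Injective (algebraMap S L) := hx
  have : FaithfulSMul S L := (faithfulSMul_iff_algebraMap_injective S L).mpr hinj
  have halg : Algebra.IsAlgebraic S L := by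
    constructor
    intro y
    refine IsAlgebraic.ringHom_of_comp_eq (hx.aevalEquiv.symm : _ →+* S) (RingHom.id L) (hx' y)
      hx.aevalEquiv.symm.injective ?_
    ext s
    obtain ⟨a, rfl⟩ := hx.aevalEquiv.surjective s
    simp only [RingHom.comp_apply, RingHom.id_apply, RingHom.coe_coe]
    rw [AlgEquiv.symm_apply_apply]
    rfl
  let Fr := FractionRing S
  let _ : Algebra Fr L := FractionRing.liftAlgebra S L
  have : IsScalarTower S Fr L := FractionRing.isScalarTower_liftAlgebra S L
  have : Algebra.IsAlgebraic Fr L :=
    (IsFractionRing.comap_isAlgebraic_iff (A := S) (K := Fr) (C := L)).mp halg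
  have : CharZero Fr := charZero_of_injective_algebraMap (R := k) (algebraMap k Fr).injective
  have : Algebra.IsSeparable Fr L := inferInstance
  have : Algebra.FormallyEtale Fr L := Algebra.FormallyEtale.of_isSeparable Fr L
  have : Algebra.FormallyEtale S Fr := Algebra.FormallyEtale.of_isLocalization (nonZeroDivisors S)
  have : Algebra.FormallyEtale S L := Algebra.FormallyEtale.comp S Fr L
  let e := KaehlerDifferential.tensorKaehlerEquivOfFormallyEtale k S L
  let β : Basis ι S (Ω[S⁄k]) := KaehlerDifferential.mvPolynomialBasis k ι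
  let β' : Basis ι L (Ω[L⁄k]) := (β.baseChange L).map e
  have hβ : (fun i => KaehlerDifferential.D k L (x i)) = β' := by
    funext i
    have h1 : β i = KaehlerDifferential.D k S (X i) :=
      KaehlerDifferential.mvPolynomialBasis_apply k ι i
    have h2 := KaehlerDifferential.tensorKaehlerEquivOfFormallyEtale_symm_D_algebraMap k S L (X i)
    rw [LinearEquiv.symm_apply_eq, hS, aeval_X] at h2
    rw [h2]
    change _ = ((β.baseChange L).map e) i
    rw [Basis.map_apply, Basis.baseChange_apply, h1]
  rw [hβ]
  exact β'.linearIndependent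

theorem exists_der {κ : Type} [Finite κ] [DecidableEq κ] (x : κ → ℂ)
    (hx : AlgebraicIndependent ℚ x) :
    ∃ δ : κ → Derivation ℚ ℂ ℂ, ∀ i j, δ i (x j) = if i = j then 1 else 0 := by
  classical
  have _ : Finite κ := inferInstance
  have hr : AlgebraicIndepOn ℚ id (range x) :=
    (algebraicIndependent_subtype_range hx.injective).mpr hx
  obtain ⟨T, hT, hb⟩ := exists_isTranscendenceBasis_superset hr
  have halg := hb.isAlgebraic
  have h1 := der_linearIndependent_D (k := ℚ) (L := ℂ) (ι := T) (fun t : T => (t : ℂ)) hb.1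
    (fun y => halg.isAlgebraic y)
  let v : κ → Ω[ℂ⁄ℚ] := fun j => KaehlerDifferential.D ℚ ℂ (x j)
  have h2 : LinearIndependent ℂ v := by
    have h3 := h1.comp (fun j : κ => (⟨x j, hT ⟨j, rfl⟩⟩ : T)) (fun a b hab => by
      exact hx.injective (congrArg Subtype.val hab))
    exact h3
  let b : Basis κ ℂ (Submodule.span ℂ (range v)) := Basis.span h2
  have h3 : ∀ i, ∃ g : Ω[ℂ⁄ℚ] →ₗ[ℂ] ℂ, ∀ j, g (v j) = if i = j then 1 else 0 := by
    intro i
    obtain ⟨g, hg⟩ := LinearMap.exists_extend (b.coord i)
    refine ⟨g, fun j => ?_⟩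
    have h4 : g (v j) = b.coord i (b j) := by
      rw [← hg]
      show g (v j) = g ((b j : Submodule.span ℂ (range v)) : Ω[ℂ⁄ℚ])
      rw [Basis.span_apply]
    rw [h4, Basis.coord_apply, Basis.repr_self, Finsupp.single_apply]
    simp only [eq_comm]
  choose g hg using h3
  exact ⟨fun i => (g i).compDer (KaehlerDifferential.D ℚ ℂ), fun i j => hg i j⟩

end Pool.Agent.CITR
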