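import Mathlib

set_option autoImplicit false

/-!
Tools for the logarithmic derivative: residues at zero of a logarithmic derivative of rational
functions.
-/

namespace Pool.Agent.CITR

namespace DlogAux

open Polynomial

/-- residues at zero -/
lemma res_zero {k K ι : Type} [Field k] [Field K] [Algebra k K] (t : K)
    (ht : Transcendental k t) (s : Finset ι) (c : ι → k) (a : ι → k[X]) (ha : ∀ i ∈ s, a i ≠ 0)
    (h : ∑ i ∈ s, algebraMap k K (c i) * (aeval t (derivative (a i)) / aeval t (a i)) = 0) :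
    ∑ i ∈ s, c i * ((a i).natTrailingDegree : k) = 0 := by
  classical
  -- cleared denominators
  have hat : ∀ i ∈ s, aeval t (a i) ≠ 0 := fun i hi h0 => ha i hi ((transcendental_iff.1 ht) _ h0)
  have h1 : ∑ i ∈ s, C (c i) * (derivative (a i) * ∏ j ∈ s.erase i, a j) = 0 := by
    apply (transcendental_iff.1 ht)
    rw [map_sum]
    have h2 : (∏ j ∈ s, aeval t (a j)) *
        ∑ i ∈ s, algebraMap k K (c i) * (aeval t (derivative (a i)) / aeval t (a i)) = 0 := by
      rw [h, mul_zero]
    rw [← h2, Finset.mul_sum]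
    refine Finset.sum_congr rfl fun i hi => ?_
    rw [map_mul, map_mul, map_prod, aeval_C, ← Finset.mul_prod_erase s _ hi]
    have := hat i hi
    field_simp
  -- factorisation
  have hfac : ∀ i ∈ s, ∃ q : k[X], a i = X ^ (a i).natTrailingDegree * q ∧ q.coeff 0 ≠ 0 := by
    intro i hi
    obtain ⟨q, hq⟩ := (X_pow_dvd_iff.2 (fun d hd => coeff_eq_zero_of_lt_natTrailingDegree hd) :
      X ^ (a i).natTrailingDegree ∣ a i)
    refine ⟨q, hq, ?_⟩
    have h3 : (a i).coeff (a i).natTrailingDegree = q.coeff 0 := by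
      have h4 := coeff_X_pow_mul q (a i).natTrailingDegree 0
      rw [zero_add, ← hq] at h4
      exact h4
    rw [← h3]
    exact trailingCoeff_nonzero_iff_nonzero.2 (ha i hi)
  have hfac' : ∀ i, ∃ q : k[X], i ∈ s → (a i = X ^ (a i).natTrailingDegree * q ∧
      q.coeff 0 ≠ 0) := by
    intro i
    by_cases hi : i ∈ s
    · obtain ⟨q, hq⟩ := hfac i hi
      exact ⟨q, fun _ => hq⟩
    · exact ⟨0, fun h => absurd h hi⟩
  choose q hq using hfac'
  set m : ι → ℕ := fun i => (a i).natTrailingDegree with hm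
  have hder : ∀ i ∈ s, X * derivative (a i) =
      X ^ m i * (C ((m i : ℕ) : k) * q i + X * derivative (q i)) := by
    intro i hi
    have h3 := (hq i hi).1
    conv_lhs => rw [h3]
    rw [derivative_mul, derivative_X_pow]
    rcases Nat.eq_zero_or_pos (m i) with h0 | h0
    · have h0' : (a i).natTrailingDegree = 0 := h0
      rw [h0', h0]
      simp
    · obtain ⟨r, hr⟩ : ∃ r, m i = r + 1 := ⟨m i - 1, by omega⟩
      have hr' : (a i).natTrailingDegree = r + 1 := hr
      rw [hr', hr, Nat.add_sub_cancel]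
      ring
  have h2 : X ^ (∑ i ∈ s, m i) * ∑ i ∈ s, C (c i) *
      ((C ((m i : ℕ) : k) * q i + X * derivative (q i)) * ∏ j ∈ s.erase i, q j) = 0 := by
    have h3 : X * ∑ i ∈ s, C (c i) * (derivative (a i) * ∏ j ∈ s.erase i, a j) = 0 := by
      rw [h1, mul_zero]
    rw [← h3, Finset.mul_sum, Finset.mul_sum]
    refine Finset.sum_congr rfl fun i hi => ?_
    have h4 : ∏ j ∈ s.erase i, a j = X ^ (∑ j ∈ s.erase i, m j) * ∏ j ∈ s.erase i, q j := by
      rw [← Finset.prod_pow_eq_pow_sum, ← Finset.prod_mul_distrib]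
      exact Finset.prod_congr rfl fun j hj => (hq j (Finset.mem_of_mem_erase hj)).1
    rw [h4, ← Finset.add_sum_erase s m hi, pow_add]
    linear_combination (-(C (c i) * X ^ (∑ j ∈ s.erase i, m j) * ∏ j ∈ s.erase i, q j)) *
      hder i hi
  have h3 := (mul_eq_zero.1 h2).resolve_left (pow_ne_zero _ X_ne_zero)
  have h4 := congrArg (fun p => Polynomial.eval 0 p) h3
  simp only [eval_finsetSum, eval_mul, eval_add, eval_C, eval_X, zero_mul, add_zero,
    eval_prod, eval_zero] at h4
  have h5 : (∏ j ∈ s, eval 0 (q j)) * ∑ i ∈ s, c i * ((m i : ℕ) : k) =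
      ∑ x ∈ s, c x * (((m x : ℕ) : k) * eval 0 (q x) * ∏ j ∈ s.erase x, eval 0 (q j)) := by
    rw [Finset.mul_sum]
    refine Finset.sum_congr rfl fun i hi => ?_
    rw [← Finset.mul_prod_erase s _ hi]
    ring
  rw [h4] at h5
  refine (mul_eq_zero.1 h5).resolve_left (Finset.prod_ne_zero_iff.2 ?_)
  intro j hj
  rw [← coeff_zero_eq_eval_zero]
  exact (hq j hj).2

end DlogAux

end Pool.Agent.CITR
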