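import Mathlib

set_option autoImplicit false

/-!
Tools for the logarithmic derivative: Jacobi formula and the derivative of the norm.
-/

namespace Pool.Agent.CITR

namespace DlogAux

open Matrix

lemma der_prod {F n : Type} [Field F] [DecidableEq n] (d : Derivation ℤ F F)
    (s : Finset n) (f : n → F) :
    d (∏ i ∈ s, f i) = ∑ i ∈ s, (∏ j ∈ s.erase i, f j) * d (f i) := by
  induction s using Finset.induction_on with
  | empty => simp
  | insert a s ha ih =>
    rw [Finset.prod_insert ha, Derivation.leibniz, ih, Finset.sum_insert ha,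
      Finset.erase_insert ha, smul_eq_mul, smul_eq_mul, Finset.mul_sum, add_comm]
    congr 1
    refine Finset.sum_congr rfl fun i hi => ?_
    have hne : a ≠ i := fun h => ha (h ▸ hi)
    rw [Finset.erase_insert_of_ne hne, Finset.prod_insert (fun h => ha (Finset.mem_of_mem_erase h)),
      mul_assoc]

lemma det_der {F n : Type} [Field F] [Fintype n] [DecidableEq n] (d : Derivation ℤ F F)
    (M : Matrix n n F) : d M.det = (M.adjugate * M.map d).trace := by
  have h1 : d M.det = ∑ i, (M.updateCol i (fun k => d (M k i))).det := by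
    rw [Matrix.det_apply']
    rw [map_sum]
    simp_rw [Matrix.det_apply']
    rw [Finset.sum_comm]
    refine Finset.sum_congr rfl fun σ _ => ?_
    have h2 : d (((Equiv.Perm.sign σ : ℤ) : F) * ∏ i, M (σ i) i) =
        ((Equiv.Perm.sign σ : ℤ) : F) * d (∏ i, M (σ i) i) := by
      rw [Derivation.leibniz, Derivation.map_intCast, smul_zero, add_zero, smul_eq_mul]
    rw [h2, ← Finset.mul_sum]
    congr 1
    rw [der_prod]
    refine Finset.sum_congr rfl fun i _ => ?_
    rw [← Finset.mul_prod_erase Finset.univ _ (Finset.mem_univ i), mul_comm]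
    congr 1
    · rw [Matrix.updateCol_self]
    · refine Finset.prod_congr rfl fun j hj => ?_
      rw [Matrix.updateCol_ne (Finset.ne_of_mem_erase hj)]
  rw [h1, Matrix.trace]
  refine Finset.sum_congr rfl fun i _ => ?_
  rw [Matrix.diag_apply, ← Matrix.cramer_apply, Matrix.cramer_eq_adjugate_mulVec, Matrix.mul_apply]
  rfl

lemma norm_der_basis {F L n : Type} [Field F] [Field L] [Algebra F L] [Fintype n]
    [DecidableEq n] (b : Module.Basis n F L)
    (dF : Derivation ℤ F F) (dL : Derivation ℤ L L)
    (hc : ∀ f, dL (algebraMap F L f) = algebraMap F L (dF f)) (z : L) (hz : z ≠ 0) :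
    dF (Algebra.norm F z) = Algebra.norm F z * Algebra.trace F L (dL z / z) := by
  set M : L →ₐ[F] Matrix n n F := Algebra.leftMulMatrix b with hM
  let Γ : Matrix n n F := Matrix.of fun i j => b.repr (dL (b j)) i
  have hΓ : ∀ j, dL (b j) = ∑ i, Γ i j • b i := fun j => (b.sum_repr (dL (b j))).symm
  have hmul : ∀ (x : L) (j : n), x * b j = ∑ i, M x i j • b i := by
    intro x j
    rw [← b.sum_repr (x * b j)]
    refine Finset.sum_congr rfl fun i _ => ?_
    rw [hM, Algebra.leftMulMatrix_eq_repr_mul]
  have hsm : ∀ (f : F) (x : L), dL (f • x) = dF f • x + f • dL x := by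
    intro f x
    rw [Algebra.smul_def, Derivation.leibniz, hc, smul_eq_mul, smul_eq_mul, Algebra.smul_def,
      Algebra.smul_def]
    ring
  have key : (M z).map dF = M (dL z) + M z * Γ - Γ * M z := by
    ext k j
    have h1 : dL (z * b j) = dL (∑ i, M z i j • b i) := by rw [hmul]
    rw [Derivation.leibniz, map_sum, smul_eq_mul, smul_eq_mul] at h1
    simp_rw [hsm] at h1
    rw [hΓ j, Finset.mul_sum] at h1
    simp_rw [mul_smul_comm, hmul z, hΓ] at h1
    rw [mul_comm (b j) (dL z), hmul (dL z)] at h1
    have h2 := congrArg (fun y => b.repr y k) h1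
    simp only [map_add, map_sum, map_smul, Finsupp.coe_add, Finsupp.coe_finsetSum,
      Finsupp.coe_smul, Pi.add_apply, Finset.sum_apply, Pi.smul_apply, Module.Basis.repr_self,
      smul_eq_mul, Finsupp.single_apply, mul_ite, mul_one, mul_zero,
      Finset.sum_ite_eq', Finset.mem_univ, if_true, Finset.sum_add_distrib] at h2
    rw [Matrix.map_apply, Matrix.sub_apply, Matrix.add_apply, Matrix.mul_apply, Matrix.mul_apply]
    have h3 : ∑ x, Γ x j * M z k x = ∑ x, M z k x * Γ x j :=
      Finset.sum_congr rfl fun x _ => mul_comm _ _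
    have h4 : ∑ x, M z x j * Γ k x = ∑ x, Γ k x * M z x j :=
      Finset.sum_congr rfl fun x _ => mul_comm _ _
    rw [h3, h4] at h2
    linear_combination -h2
  have hinv : M z * M z⁻¹ = 1 := by
    rw [← map_mul, mul_inv_cancel₀ hz, map_one]
  have hadj : (M z).adjugate = (M z).det • M z⁻¹ := by
    have h1 : (M z).adjugate * (M z * M z⁻¹) = (M z).det • M z⁻¹ := by
      rw [← mul_assoc, Matrix.adjugate_mul, smul_mul_assoc, one_mul]
    rw [hinv, mul_one] at h1
    exact h1
  have hinv' : M z⁻¹ * M z = 1 := by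
    rw [← map_mul, inv_mul_cancel₀ hz, map_one]
  rw [Algebra.norm_eq_matrix_det b, Algebra.trace_eq_matrix_trace b, det_der, ← hM, key, hadj,
    smul_mul_assoc, Matrix.trace_smul, smul_eq_mul]
  congr 1
  rw [mul_sub, mul_add, Matrix.trace_sub, Matrix.trace_add, ← mul_assoc, hinv', one_mul,
    ← mul_assoc (M z⁻¹) Γ (M z), Matrix.trace_mul_comm (M z⁻¹ * Γ) (M z), ← mul_assoc, hinv,
    one_mul, add_sub_cancel_right, ← map_mul, div_eq_mul_inv, mul_comm]

/-- the derivative of the norm -/
lemma norm_der {F L : Type} [Field F] [Field L] [Algebra F L] [FiniteDimensional F L]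
    (dF : Derivation ℤ F F) (dL : Derivation ℤ L L)
    (hc : ∀ f, dL (algebraMap F L f) = algebraMap F L (dF f)) (z : L) (hz : z ≠ 0) :
    dF (Algebra.norm F z) = Algebra.norm F z * Algebra.trace F L (dL z / z) :=
  norm_der_basis (Module.finBasis F L) dF dL hc z hz

/-- restriction of a derivation -/
lemma exists_restr {S K : Type} [Field S] [Field K] (i : S →+* K) (D : Derivation ℤ K K)
    (h : ∀ x, ∃ y, i y = D (i x)) : ∃ d : Derivation ℤ S S, ∀ x, i (d x) = D (i x) := by
  choose f hf using h
  have hi : Function.Injective i := i.injective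
  refine ⟨Derivation.mk' (AddMonoidHom.toIntLinearMap
    { toFun := f
      map_zero' := hi (by rw [hf, map_zero, map_zero])
      map_add' := fun x y => hi (by rw [hf, map_add, map_add, map_add, hf, hf]) }) ?_, ?_⟩
  · intro x y
    apply hi
    change i (f (x * y)) = i (x • f y + y • f x)
    rw [hf, map_mul, Derivation.leibniz, map_add, smul_eq_mul, smul_eq_mul, smul_eq_mul,
      smul_eq_mul, map_mul, map_mul, hf, hf]
  · intro x
    exact hf x

end DlogAux

end Pool.Agent.CITR
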