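import Mathlib
import Pool.Agent.Lib.MP_c95b3b_ag_R.DlogJ
import Pool.Agent.Lib.MP_c95b3b_ag_R.DlogB
import Pool.Agent.Lib.MP_c95b3b_ag_R.Der

set_option autoImplicit false

/-!
Logarithmic derivatives which are linearly dependent over the constants (module R2).
-/

namespace Pool.Agent.CITR

namespace DlogAux

open Polynomial

/-- a derivation with `D t = 1` and many constants -/
lemma exists_der_one {k K : Type} [Field k] [CharZero k] [Field K] [Algebra k K] (t : K)
    (ht : Transcendental k t) :
    ∃ (B : Set K) (D : Derivation k K K), D t = 1 ∧ (∀ b ∈ B, b ≠ t → D b = 0) ∧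
      Algebra.IsAlgebraic (Algebra.adjoin k B) K := by
  classical
  have hr : AlgebraicIndepOn k id ({t} : Set K) := by
    have h0 : AlgebraicIndependent k (fun x : ({t} : Set K) => (x : K)) :=
      algebraicIndependent_unique_type_iff.2 ht
    exact h0
  obtain ⟨T, hT, hb⟩ := exists_isTranscendenceBasis_superset hr
  have halg := hb.isAlgebraic
  have h1 := der_linearIndependent_D (k := k) (L := K) (ι := T) (fun t : T => (t : K)) hb.1
    (fun y => halg.isAlgebraic y)
  have htT : t ∈ T := hT (Set.mem_singleton t)
  let v : T → Ω[K⁄k] := fun j => KaehlerDifferential.D k K (j : K)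
  have h2 : LinearIndependent K v := h1
  let b : Module.Basis T K (Submodule.span K (Set.range v)) := Module.Basis.span h2
  obtain ⟨g, hg⟩ := LinearMap.exists_extend (b.coord ⟨t, htT⟩)
  have h4 : ∀ j, g (v j) = if (⟨t, htT⟩ : T) = j then 1 else 0 := by
    intro j
    have h5 : g (v j) = b.coord ⟨t, htT⟩ (b j) := by
      rw [← hg]
      show g (v j) = g ((b j : Submodule.span K (Set.range v)) : Ω[K⁄k])
      rw [Module.Basis.span_apply]
    rw [h5, Module.Basis.coord_apply, Module.Basis.repr_self, Finsupp.single_apply]
    simp only [eq_comm]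
  refine ⟨T, g.compDer (KaehlerDifferential.D k K), ?_, ?_, ?_⟩
  · have := h4 ⟨t, htT⟩
    rw [if_pos rfl] at this
    exact this
  · intro x hx hne
    have := h4 ⟨x, hx⟩
    rw [if_neg (fun h => hne (congrArg Subtype.val h).symm)] at this
    exact this
  · have h5 := hb.isAlgebraic
    rw [Subtype.range_coe_subtype] at h5
    exact h5

/-- the field of the constants -/
def consts {k K : Type} [Field k] [Field K] [Algebra k K] (D : Derivation k K K) :
    IntermediateField k K where
  carrier := {x | D x = 0}
  mul_mem' := by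
    intro a b ha hb
    change D a = 0 at ha
    change D b = 0 at hb
    change D (a * b) = 0
    rw [Derivation.leibniz, ha, hb, smul_zero, smul_zero, add_zero]
  one_mem' := D.map_one_eq_zero
  add_mem' := by
    intro a b ha hb
    change D a = 0 at ha
    change D b = 0 at hb
    change D (a + b) = 0
    rw [map_add, ha, hb, add_zero]
  zero_mem' := map_zero D
  algebraMap_mem' := fun r => D.map_algebraMap r
  inv_mem' := by
    intro a ha
    change D a = 0 at ha
    change D a⁻¹ = 0
    rw [Derivation.leibniz_inv, ha, smul_zero]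

lemma mem_consts {k K : Type} [Field k] [Field K] [Algebra k K] (D : Derivation k K K) (x : K) :
    x ∈ consts D ↔ D x = 0 := Iff.rfl

/-- the derivation as a derivation over its constants -/
def overConsts {k K : Type} [Field k] [Field K] [Algebra k K] (D : Derivation k K K) :
    Derivation (consts D) K K :=
  Derivation.mk'
    { toFun := D
      map_add' := map_add D
      map_smul' := by
        intro c x
        rw [IntermediateField.smul_def, smul_eq_mul, Derivation.leibniz]
        have h : D (c : K) = 0 := c.2
        rw [h, smul_zero, add_zero, smul_eq_mul]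
        rfl } (fun a b => D.leibniz a b)

lemma overConsts_apply {k K : Type} [Field k] [Field K] [Algebra k K] (D : Derivation k K K)
    (x : K) : overConsts D x = D x := rfl

/-- derivatives of polynomial expressions -/
lemma der_aeval_mem {F K : Type} [Field F] [Field K] [Algebra F K] (D : Derivation ℤ K K)
    (L : Subfield K) (hF : ∀ f : F, algebraMap F K f ∈ L ∧ D (algebraMap F K f) ∈ L) (x : K)
    (hx : x ∈ L) (P : F[X]) :
    ∃ u ∈ L, D (aeval x P) = u + aeval x (derivative P) * D x := by
  induction P using Polynomial.induction_on' with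
  | add P Q hP hQ =>
    obtain ⟨u, hu, h1⟩ := hP
    obtain ⟨w, hw, h2⟩ := hQ
    refine ⟨u + w, add_mem hu hw, ?_⟩
    rw [map_add, map_add, h1, h2, derivative_add, map_add]
    ring
  | monomial n c =>
    refine ⟨D (algebraMap F K c) * x ^ n, mul_mem (hF c).2 (pow_mem hx n), ?_⟩
    rw [aeval_monomial, Derivation.leibniz, Derivation.leibniz_pow, derivative_monomial,
      aeval_monomial, map_mul, map_natCast, smul_eq_mul, smul_eq_mul, smul_eq_mul, nsmul_eq_mul]
    ring

/-- a derivation preserves a finite extension of a field which it preserves -/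
lemma der_mem {F K : Type} [Field F] [CharZero F] [Field K] [Algebra F K] (D : Derivation ℤ K K)
    (L : Subfield K) (hF : ∀ f : F, algebraMap F K f ∈ L ∧ D (algebraMap F K f) ∈ L) (x : K)
    (hx : x ∈ L) (hi : IsIntegral F x) : D x ∈ L := by
  have h0 : aeval x (minpoly F x) = 0 := minpoly.aeval F x
  have h1 : aeval x (derivative (minpoly F x)) ≠ 0 :=
    (minpoly.irreducible hi).separable.aeval_derivative_ne_zero h0
  obtain ⟨u, hu, h2⟩ := der_aeval_mem D L hF x hx (minpoly F x)
  rw [h0, map_zero] at h2
  have h3 : D x = -u / aeval x (derivative (minpoly F x)) := by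
    rw [eq_div_iff h1]
    linear_combination -h2
  rw [h3]
  refine div_mem (neg_mem hu) ?_
  rw [aeval_eq_sum_range]
  refine sum_mem fun i _ => ?_
  rw [Algebra.smul_def]
  exact mul_mem (hF _).1 (pow_mem hx i)

end DlogAux

open Polynomial DlogAux

theorem dlog_const {k K : Type} [Field k] [CharZero k] [Field K] [Algebra k K]
    (hcl : ∀ z : K, IsAlgebraic k z → z ∈ (algebraMap k K).range) {p : ℕ} (e : Fin p → k)
    (he : LinearIndependent ℚ e) (z : Fin p → K) (hz : ∀ l, z l ≠ 0)
    (h : ∀ D : Derivation k K K, ∑ l, algebraMap k K (e l) * (D (z l) / z l) = 0) :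
    ∀ l, z l ∈ (algebraMap k K).range := by
  classical
  intro l0
  by_contra hl0
  set t : K := z l0 with ht0
  have ht : Transcendental k t := fun h => hl0 (hcl _ h)
  obtain ⟨B, D, hDt, hDB, hBalg⟩ := exists_der_one t ht
  have hD := h D
  set k1 : IntermediateField k K := consts D with hk1
  have : CharZero k1 := charZero_of_injective_algebraMap (R := k) (algebraMap k k1).injective
  have hmap : ∀ P : k1[X], D (aeval t P) = aeval t (derivative P) := by
    intro P
    have h1 := (overConsts D).map_aeval P t
    rw [overConsts_apply, overConsts_apply, hDt, smul_eq_mul, mul_one] at h1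
    exact h1
  have ht1 : Transcendental k1 t := by
    intro hal
    have hi : IsIntegral k1 t := hal.isIntegral
    have h0 : aeval t (minpoly k1 t) = 0 := minpoly.aeval k1 t
    have h1 : aeval t (derivative (minpoly k1 t)) ≠ 0 :=
      (minpoly.irreducible hi).separable.aeval_derivative_ne_zero h0
    apply h1
    rw [← hmap, h0, map_zero]
  let F : IntermediateField k1 K := IntermediateField.adjoin k1 {t}
  have : CharZero F := charZero_of_injective_algebraMap (R := k1) (algebraMap k1 F).injective
  have htF : t ∈ F := IntermediateField.mem_adjoin_simple_self k1 t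
  -- everything is algebraic over F
  have hBF : ∀ x ∈ Algebra.adjoin k B, x ∈ F := by
    intro x hx
    induction hx using Algebra.adjoin_induction with
    | mem x hx =>
      by_cases hxt : x = t
      · rw [hxt]; exact htF
      · exact F.algebraMap_mem ⟨x, hDB x hx hxt⟩
    | algebraMap r =>
      have h1 : algebraMap k K r = algebraMap k1 K (algebraMap k k1 r) :=
        IsScalarTower.algebraMap_apply k k1 K r
      rw [h1]
      exact F.algebraMap_mem _
    | add x y _ _ hx hy => exact add_mem hx hy
    | mul x y _ _ hx hy => exact mul_mem hx hy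
  have halgF : ∀ x : K, IsIntegral F x := by
    intro x
    have hx := hBalg.isAlgebraic x
    let f : Algebra.adjoin k B →+* F :=
      { toFun := fun a => ⟨a.1, hBF a.1 a.2⟩
        map_one' := rfl
        map_mul' := fun _ _ => rfl
        map_zero' := rfl
        map_add' := fun _ _ => rfl }
    have hf : Function.Injective f := fun a b hab => Subtype.ext (congrArg (fun y : F => (y : K)) hab)
    have := IsAlgebraic.ringHom_of_comp_eq f (RingHom.id K) hx hf (by ext; rfl)
    exact this.isIntegral
  let L : IntermediateField F K := IntermediateField.adjoin F (Set.range z)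
  have hfd : FiniteDimensional F L :=
    IntermediateField.finiteDimensional_adjoin (fun x _ => halgF x)
  have hzL : ∀ l, z l ∈ L := fun l => IntermediateField.subset_adjoin F _ ⟨l, rfl⟩
  -- the derivations
  let dK : Derivation ℤ K K := D.restrictScalars ℤ
  have hdK : ∀ x, dK x = D x := fun _ => rfl
  have hDF : ∀ x ∈ F, D x ∈ F := by
    intro x hx
    induction hx using IntermediateField.adjoin_induction with
    | mem x hx =>
      rw [Set.mem_singleton_iff.1 hx, hDt]
      exact one_mem F
    | algebraMap x =>
      have h1 : D (algebraMap k1 K x) = 0 := x.2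
      rw [h1]
      exact zero_mem F
    | add x y _ _ hx hy => rw [map_add]; exact add_mem hx hy
    | inv x hx' hx =>
      rw [Derivation.leibniz_inv, smul_eq_mul]
      exact mul_mem (neg_mem (pow_mem (inv_mem hx') 2)) hx
    | mul x y hx' hy' hx hy =>
      rw [Derivation.leibniz, smul_eq_mul, smul_eq_mul]
      exact add_mem (mul_mem hx' hy) (mul_mem hy' hx)
  have hDL : ∀ x ∈ L, D x ∈ L := by
    intro x hx
    have h1 := der_mem (F := F) dK L.toSubfield (fun f => ⟨L.algebraMap_mem f, by
      have h2 : D (algebraMap F K f) = algebraMap F K ⟨D f, hDF f f.2⟩ := rfl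
      rw [hdK, h2]
      exact L.algebraMap_mem _⟩) x hx (halgF x)
    exact h1
  obtain ⟨dF, hdF⟩ := exists_restr (algebraMap F K) dK (fun x => ⟨⟨D x, hDF x x.2⟩, rfl⟩)
  obtain ⟨dL, hdL⟩ := exists_restr (algebraMap L K) dK (fun x => ⟨⟨D x, hDL x x.2⟩, rfl⟩)
  have hcomp : ∀ f, dL (algebraMap F L f) = algebraMap F L (dF f) := by
    intro f
    apply (algebraMap L K).injective
    rw [hdL, ← IsScalarTower.algebraMap_apply F L K, ← IsScalarTower.algebraMap_apply F L K, hdF]
  -- norms
  let zL : Fin p → L := fun l => ⟨z l, hzL l⟩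
  have hzL0 : ∀ l, zL l ≠ 0 := fun l h0 => hz l (congrArg (fun y : L => (y : K)) h0)
  set Nm : Fin p → F := fun l => Algebra.norm F (zL l) with hNm
  have hNm0 : ∀ l, Nm l ≠ 0 := fun l => Algebra.norm_ne_zero_iff.2 (hzL0 l)
  have hdN : ∀ l, dF (Nm l) / Nm l = Algebra.trace F L (dL (zL l) / zL l) := by
    intro l
    rw [div_eq_iff (hNm0 l), mul_comm]
    exact norm_der dF dL hcomp (zL l) (hzL0 l)
  let eF : Fin p → F := fun l => algebraMap k1 F (algebraMap k k1 (e l))
  have hsumL : ∑ l, algebraMap F L (eF l) * (dL (zL l) / zL l) = 0 := by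
    apply (algebraMap L K).injective
    rw [map_sum, map_zero, ← hD]
    refine Finset.sum_congr rfl fun l _ => ?_
    rw [map_mul, map_div₀, hdL, hdK]
    rfl
  have hsumF : ∑ l, eF l * (dF (Nm l) / Nm l) = 0 := by
    have h1 := congrArg (Algebra.trace F L) hsumL
    rw [map_sum, map_zero] at h1
    rw [← h1]
    refine Finset.sum_congr rfl fun l _ => ?_
    have h2 : algebraMap F L (eF l) * (dL (zL l) / zL l) = eF l • (dL (zL l) / zL l) :=
      (Algebra.smul_def _ _).symm
    rw [hdN, h2, map_smul, smul_eq_mul]
  -- fractions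
  have hfr : ∀ l, ∃ r s : k1[X], ((Nm l : F) : K) = aeval t r / aeval t s := fun l =>
    (IntermediateField.mem_adjoin_simple_iff k1 _).1 (Nm l).2
  choose r s hrs using hfr
  have hNmK : ∀ l, ((Nm l : F) : K) ≠ 0 := fun l h0 => hNm0 l (Subtype.ext h0)
  have hs0 : ∀ l, aeval t (s l) ≠ 0 := by
    intro l h0
    apply hNmK l
    rw [hrs, h0, div_zero]
  have hr0 : ∀ l, aeval t (r l) ≠ 0 := by
    intro l h0
    apply hNmK l
    rw [hrs, h0, zero_div]
  have hs1 : ∀ l, s l ≠ 0 := fun l h0 => hs0 l (by rw [h0, map_zero])
  have hr1 : ∀ l, r l ≠ 0 := fun l h0 => hr0 l (by rw [h0, map_zero])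
  have hquot : ∀ l, ((dF (Nm l) / Nm l : F) : K) =
      aeval t (derivative (r l)) / aeval t (r l) - aeval t (derivative (s l)) / aeval t (s l) := by
    intro l
    have h1 : ((dF (Nm l) / Nm l : F) : K) = D ((Nm l : F) : K) / ((Nm l : F) : K) := by
      have h2 := hdF (Nm l)
      have h3 : ((dF (Nm l) : F) : K) = D ((Nm l : F) : K) := h2
      rw [← h3]
      rfl
    rw [h1, hrs, Derivation.leibniz_div, hmap, hmap]
    have := hs0 l
    have := hr0 l
    simp only [smul_eq_mul]
    field_simp
  have hsum2 : ∑ i : Fin p ⊕ Fin p, algebraMap k1 K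
      (Sum.elim (fun l => algebraMap k k1 (e l)) (fun l => -algebraMap k k1 (e l)) i) *
      (aeval t (derivative (Sum.elim r s i)) / aeval t (Sum.elim r s i)) = 0 := by
    rw [Fintype.sum_sum_type]
    simp only [Sum.elim_inl, Sum.elim_inr]
    rw [← Finset.sum_add_distrib]
    have h1 := congrArg (fun y : F => (y : K)) hsumF
    simp only [IntermediateField.coe_sum, IntermediateField.coe_mul, IntermediateField.coe_zero]
      at h1
    rw [← h1]
    refine Finset.sum_congr rfl fun l _ => ?_
    have h2 := hquot l
    rw [h2, map_neg]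
    have h3 : ((eF l : F) : K) = algebraMap k1 K (algebraMap k k1 (e l)) := rfl
    rw [h3]
    ring
  have hres := res_zero t ht1 Finset.univ _ (Sum.elim r s) (by
    rintro (i | i) _
    · exact hr1 i
    · exact hs1 i) hsum2
  rw [Fintype.sum_sum_type] at hres
  simp only [Sum.elim_inl, Sum.elim_inr] at hres
  rw [← Finset.sum_add_distrib] at hres
  -- back to k
  have hk : ∑ l, (((r l).natTrailingDegree : ℚ) - ((s l).natTrailingDegree : ℚ)) • e l = 0 := by
    apply (algebraMap k k1).injective
    rw [map_sum, map_zero, ← hres]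
    refine Finset.sum_congr rfl fun l _ => ?_
    rw [Algebra.smul_def, map_mul]
    have h1 : algebraMap k k1 (algebraMap ℚ k (((r l).natTrailingDegree : ℚ) -
        ((s l).natTrailingDegree : ℚ))) = ((r l).natTrailingDegree : k1) -
        ((s l).natTrailingDegree : k1) := by
      simp
    rw [h1]
    ring
  have hli := Fintype.linearIndependent_iff.1 he _ hk l0
  -- the norm of t
  have hNt : ((Nm l0 : F) : K) = t ^ (Module.finrank F L) := by
    have h1 : zL l0 = algebraMap F L ⟨t, htF⟩ := rfl
    have h2 : Nm l0 = (⟨t, htF⟩ : F) ^ (Module.finrank F L) := by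
      rw [hNm]
      change Algebra.norm F (zL l0) = _
      rw [h1, Algebra.norm_algebraMap]
    rw [h2]
    rfl
  have hpoly : r l0 = X ^ (Module.finrank F L) * s l0 := by
    have h1 : aeval t (r l0 - X ^ (Module.finrank F L) * s l0) = 0 := by
      rw [map_sub, map_mul, map_pow, aeval_X, ← hNt, hrs, div_mul_cancel₀ _ (hs0 l0), sub_self]
    exact sub_eq_zero.1 ((transcendental_iff.1 ht1) _ h1)
  have hdeg : (r l0).natTrailingDegree = Module.finrank F L + (s l0).natTrailingDegree := by
    rw [hpoly, natTrailingDegree_mul (pow_ne_zero _ X_ne_zero) (hs1 l0), natTrailingDegree_X_pow]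
  have hpos : 0 < Module.finrank F L := Module.finrank_pos
  rw [hdeg] at hli
  push_cast at hli
  have h5 : (Module.finrank F L : ℚ) = 0 := by linarith
  have h6 : Module.finrank F L = 0 := by exact_mod_cast h5
  omega

end Pool.Agent.CITR
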