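import Mathlib
import Pool.Agent.Lib.MP_c95b3b_ag_R.Defs
import Pool.Agent.Lib.MP_c95b3b_ag_R.Dlog

/-!
MP_c95b3b_ag, CITR module R3: from a relation between logarithmic differentials with constant
coefficients to relations with integral exponents.
-/

set_option autoImplicit false

namespace Pool.Agent.CITR

namespace SpanAux

variable {k K : Type} [Field k] [Field K] [Algebra k K]

theorem ld_mul (D : Derivation k K K) {y z : K} (hy : y ≠ 0) (hz : z ≠ 0) :
    D (y * z) / (y * z) = D y / y + D z / z := by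
  rw [Derivation.leibniz, smul_eq_mul, smul_eq_mul]
  field_simp
  ring

theorem ld_inv (D : Derivation k K K) {y : K} (hy : y ≠ 0) :
    D y⁻¹ / y⁻¹ = -(D y / y) := by
  have h := ld_mul D hy (inv_ne_zero hy)
  rw [mul_inv_cancel₀ hy, D.map_one_eq_zero, zero_div] at h
  rw [eq_comm, neg_eq_iff_add_eq_zero]
  exact h.symm

theorem ld_pow (D : Derivation k K K) {y : K} (hy : y ≠ 0) (m : ℕ) :
    D (y ^ m) / y ^ m = m * (D y / y) := by
  induction m with
  | zero => simp
  | succ m ih =>
    rw [pow_succ, ld_mul D (pow_ne_zero m hy) hy, ih]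
    push_cast
    ring

theorem ld_zpow (D : Derivation k K K) {y : K} (hy : y ≠ 0) (m : ℤ) :
    D (y ^ m) / y ^ m = m * (D y / y) := by
  obtain ⟨m, rfl | rfl⟩ := m.eq_nat_or_neg
  · rw [zpow_natCast, ld_pow D hy]
    push_cast
    ring
  · rw [zpow_neg, zpow_natCast, ld_inv D (pow_ne_zero m hy), ld_pow D hy]
    push_cast
    ring

theorem ld_prod (D : Derivation k K K) {n : ℕ} (s : Finset (Fin n)) (x : Fin n → K)
    (hx : ∀ j, x j ≠ 0) (m : Fin n → ℤ) :
    D (∏ j ∈ s, x j ^ m j) / ∏ j ∈ s, x j ^ m j = ∑ j ∈ s, (m j : K) * (D (x j) / x j) := by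
  classical
  induction s using Finset.induction_on with
  | empty => simp
  | insert a s ha ih =>
    rw [Finset.prod_insert ha, Finset.sum_insert ha,
      ld_mul D (zpow_ne_zero _ (hx a)) (Finset.prod_ne_zero_iff.mpr fun j _ => zpow_ne_zero _ (hx j)),
      ih, ld_zpow D (hx a)]

end SpanAux

open SpanAux in
theorem mem_span_of_dlog {k K : Type} [Field k] [CharZero k] [Field K] [Algebra k K]
    (hcl : ∀ z : K, IsAlgebraic k z → z ∈ (algebraMap k K).range) {n : ℕ} (x : Fin n → K)
    (hx : ∀ j, x j ≠ 0) (c : Fin n → k)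
    (h : ∀ D : Derivation k K K, ∑ j, algebraMap k K (c j) * (D (x j) / x j) = 0) :
    c ∈ Submodule.span k (Gam k x) := by
  classical
  set M : Submodule ℚ k := Submodule.span ℚ (Set.range c) with hM
  have : FiniteDimensional ℚ M := FiniteDimensional.span_of_finite ℚ (Set.finite_range c)
  set p := Module.finrank ℚ M with hp
  let b : Module.Basis (Fin p) ℚ M := Module.finBasis ℚ M
  let e : Fin p → k := fun l => (b l : k)
  have he : LinearIndependent ℚ e := b.linearIndependent.map' M.subtype (Submodule.ker_subtype _)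
  have hcM : ∀ j, c j ∈ M := fun j => Submodule.subset_span ⟨j, rfl⟩
  let q : Fin n → Fin p → ℚ := fun j l => b.repr ⟨c j, hcM j⟩ l
  have hc : ∀ j, c j = ∑ l, (q j l : k) * e l := by
    intro j
    have h1 := b.sum_repr ⟨c j, hcM j⟩
    have h2 : ∑ i, ((b.repr ⟨c j, hcM j⟩ i • b i : M) : k) = c j := by
      rw [← AddSubmonoidClass.coe_finsetSum, h1]
    rw [← h2]
    refine Finset.sum_congr rfl fun l _ => ?_
    rw [Submodule.coe_smul, Rat.smul_def]
  -- common denominator
  set N : ℕ := ∏ j, ∏ l, (q j l).den with hN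
  have hN0 : N ≠ 0 := Finset.prod_ne_zero_iff.mpr fun j _ => Finset.prod_ne_zero_iff.mpr
    fun l _ => (q j l).den_nz
  have hint : ∀ j l, ∃ m : ℤ, (m : ℚ) = N * q j l := by
    intro j l
    have hdvd : (q j l).den ∣ N :=
      (Finset.dvd_prod_of_mem (fun l => (q j l).den) (Finset.mem_univ l)).trans
        (Finset.dvd_prod_of_mem (fun j => ∏ l, (q j l).den) (Finset.mem_univ j))
    obtain ⟨t, ht⟩ := hdvd
    refine ⟨t * (q j l).num, ?_⟩
    rw [ht]
    push_cast
    have h3 : ((q j l).den : ℚ) * q j l = (q j l).num := by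
      rw [mul_comm]
      exact Rat.mul_den_eq_num (q j l)
    calc (t : ℚ) * (q j l).num = t * (((q j l).den : ℚ) * q j l) := by rw [h3]
      _ = _ := by ring
  choose m hm using hint
  have hmk : ∀ j l, (m j l : k) = (N : k) * (q j l : k) := by
    intro j l
    have := congrArg (fun r : ℚ => (r : k)) (hm j l)
    push_cast at this
    exact this
  have hNk : (N : k) ≠ 0 := Nat.cast_ne_zero.mpr hN0
  let z : Fin p → K := fun l => ∏ j, x j ^ m j l
  have hz : ∀ l, z l ≠ 0 := fun l => Finset.prod_ne_zero_iff.mpr fun j _ => zpow_ne_zero _ (hx j)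
  have hzk := dlog_const hcl e he z hz (by
    intro D
    have h4 : ∀ l, D (z l) / z l = ∑ j, (m j l : K) * (D (x j) / x j) :=
      fun l => ld_prod D Finset.univ x hx fun j => m j l
    calc ∑ l, algebraMap k K (e l) * (D (z l) / z l)
        = ∑ l, ∑ j, algebraMap k K (e l) * ((m j l : K) * (D (x j) / x j)) := by
          refine Finset.sum_congr rfl fun l _ => ?_
          rw [h4, Finset.mul_sum]
      _ = ∑ j, ∑ l, algebraMap k K (e l) * ((m j l : K) * (D (x j) / x j)) := Finset.sum_comm
      _ = ∑ j, algebraMap k K N * (algebraMap k K (c j) * (D (x j) / x j)) := by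
          refine Finset.sum_congr rfl fun j _ => ?_
          rw [hc j, map_sum, Finset.sum_mul, Finset.mul_sum]
          refine Finset.sum_congr rfl fun l _ => ?_
          have h5 : (m j l : K) = algebraMap k K ((N : k) * (q j l : k)) := by
            rw [← hmk, map_intCast]
          rw [h5, map_mul, map_mul]
          ring
      _ = 0 := by rw [← Finset.mul_sum, h D, mul_zero])
  have hcvec : c = ∑ l, ((N : k)⁻¹ * e l) • (fun j => (m j l : k)) := by
    funext j
    rw [Finset.sum_apply, hc j]
    refine Finset.sum_congr rfl fun l _ => ?_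
    rw [Pi.smul_apply, smul_eq_mul, hmk]
    field_simp
  rw [hcvec]
  refine Submodule.sum_mem _ fun l _ => Submodule.smul_mem _ _ (Submodule.subset_span ?_)
  exact ⟨fun j => m j l, fun j => rfl, hzk l⟩

end Pool.Agent.CITR
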