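import Mathlib
import Pool.Agent.Lib.MP_c95b3b_ag_R.Defs

set_option autoImplicit false

/-!
Linear disjointness of the complex numbers and the field of the algebraic germs over the algebraic
numbers.
-/

namespace Pool.Agent.CITR

open MvPolynomial Filter

/-- The field of the algebraic numbers. -/
noncomputable abbrev QB : IntermediateField ℚ ℂ := algebraicClosure ℚ ℂ

/-- A basis of the complex numbers over the algebraic numbers. -/
noncomputable def disjBasis : Module.Basis (Module.Basis.ofVectorSpaceIndex QB ℂ) QB ℂ :=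
  Module.Basis.ofVectorSpace QB ℂ

/-- Decomposition of a polynomial along the basis. -/
theorem disj_decomp {κ : Type} (f : MvPolynomial κ ℂ) :
    ∃ (J : Finset (Module.Basis.ofVectorSpaceIndex QB ℂ))
      (g : Module.Basis.ofVectorSpaceIndex QB ℂ → MvPolynomial κ QB),
      f = ∑ j ∈ J, C (disjBasis j) * map (algebraMap QB ℂ) (g j) := by
  classical
  refine ⟨f.support.biUnion (fun s => (disjBasis.repr (coeff s f)).support),
    fun j => ∑ s ∈ f.support, monomial s (disjBasis.repr (coeff s f) j), ?_⟩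
  have h1 : ∀ s ∈ f.support, coeff s f =
      ∑ j ∈ f.support.biUnion (fun s => (disjBasis.repr (coeff s f)).support),
        (disjBasis.repr (coeff s f) j) • (disjBasis j : ℂ) := by
    intro s hs
    conv_lhs => rw [← disjBasis.linearCombination_repr (coeff s f)]
    rw [Finsupp.linearCombination_apply, Finsupp.sum]
    refine Finset.sum_subset (Finset.subset_biUnion_of_mem
      (fun s => (disjBasis.repr (coeff s f)).support) hs) (fun j _ hj => ?_)
    rw [Finsupp.notMem_support_iff.mp hj, zero_smul]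
  conv_lhs => rw [f.as_sum]
  have h2 : ∀ j, map (algebraMap QB ℂ)
      (∑ s ∈ f.support, monomial s (disjBasis.repr (coeff s f) j)) =
      ∑ s ∈ f.support, monomial s ((disjBasis.repr (coeff s f) j : QB) : ℂ) := by
    intro j
    rw [map_sum]
    refine Finset.sum_congr rfl fun s _ => ?_
    rw [map_monomial]
    rfl
  simp only [h2, Finset.mul_sum]
  rw [Finset.sum_comm]
  refine Finset.sum_congr rfl fun s hs => ?_
  conv_lhs => rw [h1 s hs]
  rw [map_sum]
  refine Finset.sum_congr rfl fun j _ => ?_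
  rw [C_mul_monomial]
  congr 1
  rw [mul_comm]
  rfl

theorem disj_key {ι : Type} (φ : Ultrafilter ι)
    (J : Finset (Module.Basis.ofVectorSpaceIndex QB ℂ))
    (w : Module.Basis.ofVectorSpaceIndex QB ℂ → US φ) (hw : ∀ j, w j ∈ kst φ)
    (h : ∑ j ∈ J, algebraMap ℂ (US φ) (disjBasis j) * w j = 0) : ∀ j ∈ J, w j = 0 := by
  classical
  choose F hF1 hF2 using fun j => exists_of_mem_kst (hw j)
  have h1 : ∑ j ∈ J, algebraMap ℂ (US φ) (disjBasis j) * w j =
      cl φ (fun i => ∑ j ∈ J, disjBasis j * F j i) := by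
    have h2 : (fun i => ∑ j ∈ J, disjBasis j * F j i) =
        ∑ j ∈ J, (fun i => disjBasis j * F j i) := by
      funext i
      rw [Finset.sum_apply]
    rw [h2, ← clHom_apply, map_sum]
    refine Finset.sum_congr rfl fun j _ => ?_
    rw [hF2 j, algebraMap_eq_cl, ← cl_mul]
    rfl
  rw [h1, cl_eq_zero] at h
  intro j hj
  rw [hF2 j, cl_eq_zero]
  filter_upwards [h] with i hi
  have hli := linearIndependent_iff'.mp disjBasis.linearIndependent J
    (fun j => (⟨F j i, mem_algebraicClosure_iff.mpr (hF1 j i)⟩ : QB)) (by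
      rw [← hi]
      refine Finset.sum_congr rfl fun j _ => ?_
      rw [mul_comm]
      rfl) j hj
  exact congrArg Subtype.val hli

theorem aeval_mem_kst {ι κ : Type} (φ : Ultrafilter ι) (c : κ → US φ) (hc : ∀ l, c l ∈ kst φ)
    (g : MvPolynomial κ QB) : aeval c (map (algebraMap QB ℂ) g) ∈ kst φ := by
  induction g using MvPolynomial.induction_on with
  | C a =>
    rw [map_C, MvPolynomial.algHom_C, algebraMap_eq_cl, cl_mem_kst]
    exact Eventually.of_forall fun _ => mem_algebraicClosure_iff.mp a.2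
  | add p q hp hq =>
    rw [map_add, map_add]
    exact (kst φ).add_mem hp hq
  | mul_X p l hp =>
    rw [map_mul, map_mul, map_X, aeval_X]
    exact (kst φ).mul_mem hp (hc l)

theorem disj_zero {ι κ : Type} (φ : Ultrafilter ι) (c : κ → US φ) (hc : ∀ l, c l ∈ kst φ)
    (J : Finset (Module.Basis.ofVectorSpaceIndex QB ℂ))
    (g : Module.Basis.ofVectorSpaceIndex QB ℂ → MvPolynomial κ QB)
    (h : aeval c (∑ j ∈ J, C (disjBasis j) * map (algebraMap QB ℂ) (g j)) = 0) :
    ∀ j ∈ J, aeval c (map (algebraMap QB ℂ) (g j)) = 0 := by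
  refine disj_key φ J (fun j => aeval c (map (algebraMap QB ℂ) (g j)))
    (fun j => aeval_mem_kst φ c hc (g j)) ?_
  rw [← h, map_sum]
  refine Finset.sum_congr rfl fun j _ => ?_
  rw [map_mul, MvPolynomial.algHom_C]

theorem disj_ideal {ι : Type} (φ : Ultrafilter ι) (m : ℕ) (b : Fin m → US φ)
    (hb : ∀ l, b l ∈ kst φ) (f : MvPolynomial (Fin m) ℂ) (hf : aeval b f = 0) :
    f ∈ Ideal.span {g : MvPolynomial (Fin m) ℂ | aeval b g = 0 ∧
      ∀ s, IsAlgebraic ℚ (coeff s g)} := by
  obtain ⟨J, g, hJ⟩ := disj_decomp f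
  rw [hJ] at hf
  have h := disj_zero φ b hb J g hf
  rw [hJ]
  refine Ideal.sum_mem _ fun j hj => Ideal.mul_mem_left _ _ (Ideal.subset_span ⟨h j hj, ?_⟩)
  intro s
  rw [coeff_map]
  exact mem_algebraicClosure_iff.mp (coeff s (g j)).2

theorem disj_indep {ι κ : Type} (φ : Ultrafilter ι) (c : κ → US φ) (hc : ∀ l, c l ∈ kst φ)
    (h : AlgebraicIndependent ℚ c) : AlgebraicIndependent ℂ c := by
  have _ : Algebra.IsAlgebraic ℚ QB := algebraicClosure.isAlgebraic ℚ ℂ
  have hQ : AlgebraicIndependent QB c := h.extendScalars QB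
  rw [algebraicIndependent_iff] at hQ ⊢
  intro p hp
  obtain ⟨J, g, hJ⟩ := disj_decomp p
  rw [hJ] at hp ⊢
  have h1 := disj_zero φ c hc J g hp
  refine Finset.sum_eq_zero fun j hj => ?_
  have h2 := h1 j hj
  rw [aeval_map_algebraMap] at h2
  rw [hQ _ h2, map_zero, mul_zero]

end Pool.Agent.CITR
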