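import Mathlib
import Pool.Agent.Lib.MP_c95b3b_ag_R.Defs
import Pool.Agent.Lib.MP_c95b3b_ag_h8.Indep
import Pool.Agent.Lib.MP_c95b3b_ag_R.Disj

set_option autoImplicit false

/-!
The image of the variety under a monomial map: the ideal of the image, its dimension, the field of
definition.
-/

namespace Pool.Agent.CITR

open MvPolynomial Filter

theorem cl_pow {ι : Type} {φ : Ultrafilter ι} (f : ι → ℂ) (k : ℕ) :
    cl φ (fun i => f i ^ k) = cl φ f ^ k := by
  rw [← clHom_apply, ← clHom_apply, ← map_pow]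
  rfl

theorem cl_zpow {ι : Type} {φ : Ultrafilter ι} (f : ι → ℂ) (k : ℤ) :
    cl φ (fun i => f i ^ k) = cl φ f ^ k := by
  cases k with
  | ofNat k =>
    simp only [Int.ofNat_eq_natCast, zpow_natCast]
    exact cl_pow f k
  | negSucc k =>
    simp only [zpow_negSucc]
    rw [cl_inv, cl_pow]

theorem cl_prod {ι κ : Type} {φ : Ultrafilter ι} (s : Finset κ) (f : κ → ι → ℂ) :
    cl φ (fun i => ∏ k ∈ s, f k i) = ∏ k ∈ s, cl φ (f k) := by
  have h : (fun i => ∏ k ∈ s, f k i) = ∏ k ∈ s, f k := by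
    funext i
    rw [Finset.prod_apply]
  rw [h, ← clHom_apply, map_prod]
  rfl

theorem bg_eq {n m : ℕ} {φ : Ultrafilter (Fin n → ℂ)} (γ : Fin m → Fin n → ℤ) (l : Fin m) :
    bg φ γ l = cl φ (fun x => ∏ i, x i ^ γ l i) := by
  rw [cl_prod]
  unfold bg xg
  refine Finset.prod_congr rfl fun i _ => ?_
  rw [cl_zpow]

/-- Clearing the denominators. -/
theorem exists_clear {n m : ℕ} (γ : Fin m → Fin n → ℤ) (f : MvPolynomial (Fin m) ℂ) :
    ∃ (N : ℕ) (g : MvPolynomial (Fin n) ℂ), ∀ x : Fin n → ℂ, (∀ i, x i ≠ 0) →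
      eval x g = (∏ i, x i) ^ N * eval (fun l => ∏ i, x i ^ γ l i) f := by
  induction f using MvPolynomial.induction_on with
  | C a => exact ⟨0, C a, fun x hx => by rw [eval_C, eval_C, pow_zero, one_mul]⟩
  | add p q hp hq =>
    obtain ⟨N₁, g₁, h₁⟩ := hp
    obtain ⟨N₂, g₂, h₂⟩ := hq
    refine ⟨N₁ + N₂, g₁ * (∏ i, X i) ^ N₂ + g₂ * (∏ i, X i) ^ N₁, fun x hx => ?_⟩
    rw [map_add, map_mul, map_mul, map_pow, map_pow, map_prod, h₁ x hx, h₂ x hx, map_add]
    simp only [eval_X]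
    ring
  | mul_X p l hp =>
    obtain ⟨N, g, h⟩ := hp
    let M : ℕ := ∑ i, (γ l i).natAbs
    refine ⟨N + M, g * ∏ i, X i ^ ((M : ℤ) + γ l i).toNat, fun x hx => ?_⟩
    have hM : ∀ i, 0 ≤ (M : ℤ) + γ l i := by
      intro i
      have h1 : (γ l i).natAbs ≤ M := Finset.single_le_sum (f := fun i => (γ l i).natAbs)
        (fun _ _ => Nat.zero_le _) (Finset.mem_univ i)
      omega
    have h2 : ∀ i, x i ^ ((M : ℤ) + γ l i).toNat = x i ^ M * x i ^ γ l i := by
      intro i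
      rw [← zpow_natCast, Int.toNat_of_nonneg (hM i), zpow_add₀ (hx i), zpow_natCast]
    rw [map_mul, map_mul, h x hx, map_prod, eval_X]
    simp only [map_pow, eval_X, h2]
    rw [Finset.prod_mul_distrib, Finset.prod_pow]
    ring

section

variable {n : ℕ} {P : Ideal (MvPolynomial (Fin n) ℂ)} {φ : Ultrafilter (Fin n → ℂ)}
  (hP : P.IsPrime) (hX : (∏ i : Fin n, (X i : MvPolynomial (Fin n) ℂ)) ∉ P)
  (hon : ∀ᶠ x in (φ : Filter (Fin n → ℂ)), OnTorus n P x)
  (hgen : ∀ G ∉ P, ∀ᶠ x in (φ : Filter (Fin n → ℂ)), eval x G ≠ 0)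

include hP hX hon hgen

omit hP hX hgen in
theorem aeval_bg {m : ℕ} (γ : Fin m → Fin n → ℤ) (f : MvPolynomial (Fin m) ℂ) :
    aeval (bg φ γ) f = cl φ (fun x => eval (fun l => ∏ i, x i ^ γ l i) f) := by
  have _ := hon
  induction f using MvPolynomial.induction_on with
  | C a =>
    rw [MvPolynomial.algHom_C, algebraMap_eq_cl]
    congr 1
    funext x
    rw [eval_C]
  | add p q hp hq =>
    rw [map_add, hp, hq, ← cl_add]
    congr 1
    funext x
    rw [map_add]
  | mul_X p l hp =>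
    rw [map_mul, hp, aeval_X, bg_eq, ← cl_mul]
    congr 1
    funext x
    rw [map_mul, eval_X]

theorem mem_Qid_iff {m : ℕ} (γ : Fin m → Fin n → ℤ) (f : MvPolynomial (Fin m) ℂ) :
    f ∈ Qid φ γ ↔ ∀ x, OnTorus n P x → eval (fun l => ∏ i, x i ^ γ l i) f = 0 := by
  have _ := hP
  have _ := hX
  have h1 : f ∈ Qid φ γ ↔ ∀ᶠ x in (φ : Filter (Fin n → ℂ)),
      eval (fun l => ∏ i, x i ^ γ l i) f = 0 := by
    rw [← cl_eq_zero, ← aeval_bg hon]
    exact RingHom.mem_ker
  rw [h1]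
  constructor
  · intro h x hx
    obtain ⟨N, g, hg⟩ := exists_clear γ f
    have hgP : g ∈ P := by
      by_contra hgP
      have h2 := (hgen g hgP).and (h.and hon)
      obtain ⟨y, hy1, hy2, hy3⟩ := h2.exists
      apply hy1
      rw [hg y hy3.1, hy2, mul_zero]
    have h3 := hg x hx.1
    rw [hx.2 g hgP] at h3
    have h4 : (∏ i, x i) ^ N ≠ 0 := pow_ne_zero _ (Finset.prod_ne_zero_iff.mpr fun i _ => hx.1 i)
    exact (mul_eq_zero.mp h3.symm).resolve_left h4
  · intro h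
    filter_upwards [hon] with x hx
    exact h x hx

theorem Qid_prime {m : ℕ} (γ : Fin m → Fin n → ℤ) :
    (Qid φ γ).IsPrime ∧ (∏ l : Fin m, (X l : MvPolynomial (Fin m) ℂ)) ∉ Qid φ γ := by
  refine ⟨RingHom.ker_isPrime _, fun h => ?_⟩
  rw [mem_Qid_iff hP hX hon hgen] at h
  obtain ⟨x, hx⟩ := hon.exists
  have h1 := h x hx
  rw [map_prod] at h1
  simp only [eval_X] at h1
  rw [Finset.prod_eq_zero_iff] at h1
  obtain ⟨l, -, hl⟩ := h1
  rw [Finset.prod_eq_zero_iff] at hl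
  obtain ⟨i, -, hi⟩ := hl
  exact zpow_ne_zero _ (hx.1 i) hi

omit hP hX hgen in
theorem bg_mem_kst {m : ℕ} (γ : Fin m → Fin n → ℤ) (hγ : ∀ l, γ l ∈ GamZ φ) (l : Fin m) :
    bg φ γ l ∈ kst φ := by
  rw [bg_eq, cl_mem_kst]
  filter_upwards [hon, mem_GamZ.mp (hγ l)] with x hx h1
  exact h1 hx.1

/-- (uses R7) -/
theorem Qid_alg {m : ℕ} (γ : Fin m → Fin n → ℤ) (hγ : ∀ l, γ l ∈ GamZ φ) :
    Qid φ γ = Ideal.span {g | g ∈ Qid φ γ ∧ ∀ s, IsAlgebraic ℚ (coeff s g)} := by
  have _ := hP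
  have _ := hX
  have _ := hgen
  apply le_antisymm
  · intro f hf
    have h1 := disj_ideal φ m (bg φ γ) (bg_mem_kst hon γ hγ) f hf
    exact h1
  · rw [Ideal.span_le]
    intro g hg
    exact hg.1

/-- (uses R7 and CIT8.ringKrullDim_eq_card) -/
theorem Qid_dim {m : ℕ} (γ : Fin m → Fin n → ℤ) (hγ : ∀ l, γ l ∈ GamZ φ) :
    ∃ L : Finset (Fin m), AlgebraicIndependent ℚ (fun l : L => bg φ γ l) ∧
      ringKrullDim (MvPolynomial (Fin m) ℂ ⧸ Qid φ γ) = (L.card : WithBot ℕ∞) := by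
  classical
  obtain ⟨L, hL1, -, hL3⟩ := CIT8.exists_maxIndep ℚ (bg φ γ)
  refine ⟨L, hL1, ?_⟩
  have hpr : (Qid φ γ).IsPrime := (Qid_prime hP hX hon hgen γ).1
  let R := MvPolynomial (Fin m) ℂ ⧸ Qid φ γ
  let j : R →ₐ[ℂ] US φ := Ideal.Quotient.liftₐ (Qid φ γ) (aeval (bg φ γ)) (fun a ha => ha)
  have hj : Function.Injective j := by
    rw [injective_iff_map_eq_zero]
    intro r hr
    obtain ⟨f, rfl⟩ := Ideal.Quotient.mk_surjective r
    rw [Ideal.Quotient.eq_zero_iff_mem]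
    exact hr
  let z : Fin m → R := fun l => Ideal.Quotient.mk (Qid φ γ) (X l)
  have hz : ∀ l, j (z l) = bg φ γ l := by
    intro l
    show aeval (bg φ γ) (X l) = _
    rw [aeval_X]
  have hx : AlgebraicIndependent ℂ (fun l : L => z l) := by
    rw [← AlgHom.algebraicIndependent_iff j hj]
    have h1 := disj_indep φ (fun l : L => bg φ γ l) (fun l => bg_mem_kst hon γ hγ l) hL1
    have h2 : (j ∘ fun l : L => z l) = fun l : L => bg φ γ l := by
      funext l
      exact hz l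
    rw [h2]
    exact h1
  have hgen' : ∀ l, z l ∈ CIT8.acl ℂ (Set.range (fun l : L => z l)) := by
    intro l
    by_cases hl : l ∈ L
    · exact CIT8.subset_acl _ ⟨⟨l, hl⟩, rfl⟩
    · by_contra hcon
      have h1 : AlgebraicIndepOn ℂ z (insert l (L : Set (Fin m))) := by
        refine AlgebraicIndepOn.insert (s := (L : Set (Fin m))) hx ?_
        rw [Set.image_eq_range]
        exact hcon
      have h2 : AlgebraicIndependent ℂ (fun i : (insert l L : Finset (Fin m)) => z i) := by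
        rw [← Finset.coe_insert] at h1
        exact h1
      rw [← AlgHom.algebraicIndependent_iff j hj] at h2
      have h3 : (j ∘ fun i : (insert l L : Finset (Fin m)) => z i) =
          fun i : (insert l L : Finset (Fin m)) => bg φ γ i := by
        funext i
        exact hz i
      rw [h3] at h2
      have h4 := hL3 _ (h2.restrictScalars (R := ℚ) (algebraMap ℚ ℂ).injective)
      rw [Finset.card_insert_of_notMem hl] at h4
      omega
  have hall : ∀ r : R, r ∈ CIT8.acl ℂ (Set.range (fun l : L => z l)) := by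
    intro r
    obtain ⟨f, rfl⟩ := Ideal.Quotient.mk_surjective r
    induction f using MvPolynomial.induction_on with
    | C a => exact CIT8.acl_algebraMap _ a
    | add p q hp hq =>
      rw [map_add]
      exact CIT8.acl_add hp hq
    | mul_X p l hp =>
      rw [map_mul]
      exact CIT8.acl_mul hp (hgen' l)
  have h := CIT8.ringKrullDim_eq_card (fun l : L => z l) hx hall
  rw [Fintype.card_coe] at h
  exact h

end

end Pool.Agent.CITR
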