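import Pool.Agent.Lib.MP_c95b3b_ag_R.Defs

set_option autoImplicit false
set_option linter.unusedSectionVars false

/-!
Module R4: a relation between logarithmic differential forms which are killed by enough
derivations has constant coefficients.
-/

namespace Pool.Agent.CITR

section

variable {k K : Type} [Field k] [CharZero k] [Field K] [Algebra k K]

/-- A derivation applied to a logarithmic derivative. -/
theorem lie_dlog (δ D : Derivation k K K) (x : K) (hx : x ≠ 0) :
    δ (D x / x) = ⁅δ, D⁆ x / x + D (δ x / x) := by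
  have h1 : ∀ (E : Derivation k K K) (y : K), E (y / x) = E y / x - y * E x / x ^ 2 := by
    intro E y
    have h2 : E (y / x * x) = E y := by rw [div_mul_cancel₀ _ hx]
    rw [Derivation.leibniz, smul_eq_mul, smul_eq_mul] at h2
    field_simp
    field_simp at h2
    linear_combination h2
  rw [h1, h1, Derivation.commutator_apply]
  ring

/-- The logarithmic forms. -/
theorem lie_form (δ D : Derivation k K K) {n : ℕ} (x : Fin n → K) (hx : ∀ j, x j ≠ 0)
    (a : Fin n → k) (h : ∑ j, algebraMap k K (a j) * (δ (x j) / x j) = 0) :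
    δ (∑ j, algebraMap k K (a j) * (D (x j) / x j)) =
      ∑ j, algebraMap k K (a j) * (⁅δ, D⁆ (x j) / x j) := by
  have hc : ∀ (E : Derivation k K K) (c : k) (y : K), E (algebraMap k K c * y) =
      algebraMap k K c * E y := by
    intro E c y
    rw [Derivation.leibniz, Derivation.map_algebraMap, smul_zero, add_zero, smul_eq_mul]
  have h1 : D (∑ j, algebraMap k K (a j) * (δ (x j) / x j)) = 0 := by rw [h, map_zero]
  rw [map_sum] at h1 ⊢
  simp only [hc] at h1 ⊢
  have h2 : ∀ j, algebraMap k K (a j) * δ (D (x j) / x j) =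
      algebraMap k K (a j) * (⁅δ, D⁆ (x j) / x j) + algebraMap k K (a j) * D (δ (x j) / x j) := by
    intro j
    rw [lie_dlog δ D (x j) (hx j)]
    ring
  rw [Finset.sum_congr rfl fun j _ => h2 j, Finset.sum_add_distrib, h1, add_zero]

/-- A nonzero space of vectors which is stable under the derivations contains a nonzero vector
with constant coordinates. -/
theorem exists_const (Δ : Set (Derivation k K K))
    (hΔ : ∀ z : K, (∀ δ ∈ Δ, δ z = 0) → z ∈ (algebraMap k K).range) {p : ℕ}
    (R : Submodule K (Fin p → K)) (hR : ∀ δ ∈ Δ, ∀ g ∈ R, (fun l => δ (g l)) ∈ R) (g : Fin p → K)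
    (hg : g ∈ R) (hg0 : g ≠ 0) :
    ∃ c : Fin p → k, c ≠ 0 ∧ (fun l => algebraMap k K (c l)) ∈ R := by
  classical
  have key : ∀ N : ℕ, ∀ g : Fin p → K, g ∈ R → g ≠ 0 →
      (Finset.univ.filter fun l => g l ≠ 0).card = N →
        ∃ c : Fin p → k, c ≠ 0 ∧ (fun l => algebraMap k K (c l)) ∈ R := by
    intro N
    induction N using Nat.strong_induction_on with
    | _ N ih =>
      intro g hg hg0 hN
      obtain ⟨l₀, hl₀⟩ : ∃ l, g l ≠ 0 := by
        by_contra hcon
        push Not at hcon
        exact hg0 (funext hcon)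
      set g' : Fin p → K := (g l₀)⁻¹ • g with hg'
      have hg'R : g' ∈ R := R.smul_mem _ hg
      have hg'l : g' l₀ = 1 := by
        rw [hg', Pi.smul_apply, smul_eq_mul, inv_mul_cancel₀ hl₀]
      have hsupp : ∀ l, g' l ≠ 0 ↔ g l ≠ 0 := by
        intro l
        rw [hg', Pi.smul_apply, smul_eq_mul]
        simp [hl₀]
      by_cases hall : ∀ δ ∈ Δ, ∀ l, δ (g' l) = 0
      · have h1 : ∀ l, ∃ c : k, algebraMap k K c = g' l := fun l =>
          RingHom.mem_range.mp (hΔ (g' l) fun δ hδ => hall δ hδ l)
        choose c hc using h1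
        refine ⟨c, ?_, ?_⟩
        · intro h0
          have h2 := hc l₀
          rw [h0, Pi.zero_apply, map_zero, hg'l] at h2
          exact zero_ne_one h2
        · have h3 : (fun l => algebraMap k K (c l)) = g' := funext hc
          rw [h3]
          exact hg'R
      · push Not at hall
        obtain ⟨δ, hδ, l₁, hl₁⟩ := hall
        refine ih _ ?_ (fun l => δ (g' l)) (hR δ hδ g' hg'R) ?_ rfl
        · rw [← hN]
          refine Finset.card_lt_card ?_
          rw [Finset.ssubset_iff_of_subset]
          · refine ⟨l₀, by simpa using hl₀, ?_⟩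
            rw [Finset.mem_filter, hg'l, Derivation.map_one_eq_zero]
            simp
          · intro l hl
            rw [Finset.mem_filter] at hl ⊢
            refine ⟨Finset.mem_univ _, (hsupp l).mp fun h0 => hl.2 ?_⟩
            rw [h0, map_zero]
        · intro h0
          exact hl₁ (congrFun h0 l₁)
  exact key _ g hg hg0 rfl

end

theorem dlog_rel_const {k K : Type} [Field k] [CharZero k] [Field K] [Algebra k K]
    (Δ : Set (Derivation k K K))
    (hΔ : ∀ z : K, (∀ δ ∈ Δ, δ z = 0) → z ∈ (algebraMap k K).range) {n p : ℕ} (x : Fin n → K)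
    (hx : ∀ j, x j ≠ 0) (a : Fin p → Fin n → k)
    (hkill : ∀ δ ∈ Δ, ∀ l, ∑ j, algebraMap k K (a l j) * (δ (x j) / x j) = 0)
    (g : Fin p → K) (hg : g ≠ 0)
    (hrel : ∀ D : Derivation k K K,
      ∑ l, g l * ∑ j, algebraMap k K (a l j) * (D (x j) / x j) = 0) :
    ∃ c : Fin p → k, c ≠ 0 ∧ ∀ D : Derivation k K K,
      ∑ l, algebraMap k K (c l) * ∑ j, algebraMap k K (a l j) * (D (x j) / x j) = 0 := by
  let R : Submodule K (Fin p → K) :=
    { carrier := {g | ∀ D : Derivation k K K,
        ∑ l, g l * ∑ j, algebraMap k K (a l j) * (D (x j) / x j) = 0}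
      add_mem' := by
        intro g g' hg hg' D
        simp only [Pi.add_apply, add_mul, Finset.sum_add_distrib]
        rw [hg D, hg' D, add_zero]
      zero_mem' := by
        intro D
        simp
      smul_mem' := by
        intro c g hg D
        simp only [Pi.smul_apply, smul_eq_mul, mul_assoc]
        rw [← Finset.mul_sum, hg D, mul_zero] }
  obtain ⟨c, hc, hcR⟩ := exists_const Δ hΔ R (by
    intro δ hδ g' hg' D
    have h1 := congrArg δ (hg' D)
    rw [map_sum, map_zero] at h1
    have h2 : ∀ l, δ (g' l * ∑ j, algebraMap k K (a l j) * (D (x j) / x j)) =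
        g' l * ∑ j, algebraMap k K (a l j) * (⁅δ, D⁆ (x j) / x j) +
          δ (g' l) * ∑ j, algebraMap k K (a l j) * (D (x j) / x j) := by
      intro l
      rw [Derivation.leibniz, smul_eq_mul, smul_eq_mul, lie_form δ D x hx (a l) (hkill δ hδ l)]
      ring
    rw [Finset.sum_congr rfl fun l _ => h2 l, Finset.sum_add_distrib, hg' ⁅δ, D⁆, zero_add] at h1
    exact h1) g hrel hg
  exact ⟨c, hc, hcR⟩

end Pool.Agent.CITR
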