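import Pool.Agent.Lib.MP_c95b3b_ag_R.Defs
import Pool.Agent.Lib.MP_c95b3b_ag_R.Span
import Pool.Agent.Lib.MP_c95b3b_ag_R.Lie

set_option autoImplicit false
set_option linter.unusedSectionVars false

/-!
Module R5: the inequality of Ax type for logarithmic derivatives.
-/

namespace Pool.Agent.CITR

section

variable {k K : Type} [Field k] [CharZero k] [Field K] [Algebra k K]

/-- A derivation which vanishes on a subring vanishes on the elements algebraic over it. -/
theorem ax_algebraic (D : Derivation k K K) (S : Subalgebra k K) (hS : ∀ z ∈ S, D z = 0) (z : K)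
    (hz : IsAlgebraic S z) : D z = 0 := by
  have : CharZero K := charZero_of_injective_algebraMap (algebraMap k K).injective
  have hS0 : CharZero S := charZero_of_injective_algebraMap (algebraMap k S).injective
  let D' : Derivation S K K := Derivation.mk' {
    toFun := D
    map_add' := map_add D
    map_smul' := fun a z => by
      rw [Subalgebra.smul_def, smul_eq_mul, Derivation.leibniz, hS a a.2, smul_zero, add_zero]
      rfl } (fun y z => by
      show D (y * z) = _
      rw [Derivation.leibniz]
      rfl)
  have hD' : ∀ z, D' z = D z := fun _ => rfl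
  have key : ∀ (N : ℕ) (P : Polynomial S), P ≠ 0 → Polynomial.aeval z P = 0 → P.natDegree = N →
      D z = 0 := by
    intro N
    induction N using Nat.strong_induction_on with
    | _ N ih =>
      intro P hP0 hP hN
      have h1 := D'.map_aeval P z
      rw [hP, map_zero, smul_eq_mul, hD'] at h1
      rcases mul_eq_zero.mp h1.symm with h2 | h2
      · rcases Nat.eq_zero_or_pos N with h3 | h3
        · exfalso
          rw [h3] at hN
          obtain ⟨s, hs⟩ := Polynomial.natDegree_eq_zero.mp hN
          rw [← hs, Polynomial.aeval_C] at hP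
          have h4 : s = 0 := by
            have h5 : ((s : S) : K) = 0 := hP
            exact Subtype.ext h5
          rw [← hs, h4, map_zero] at hP0
          exact hP0 rfl
        · refine ih _ (?_ : (Polynomial.derivative P).natDegree < N) (Polynomial.derivative P)
            ?_ h2 rfl
          · rw [← hN]
            exact Polynomial.natDegree_derivative_lt (by omega)
          · intro h4
            have h5 := Polynomial.derivative_eq_zero.mp h4
            omega
      · exact h2
  obtain ⟨P, hP0, hP⟩ := hz
  exact key _ P hP0 hP rfl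

/-- The logarithmic derivatives of `x`, as a linear map of the derivation. -/
noncomputable def axL {n : ℕ} (x : Fin n → K) : Derivation k K K →ₗ[K] (Fin n → K) where
  toFun D := fun j => D (x j) / x j
  map_add' D E := by
    funext j
    rw [Pi.add_apply, Derivation.add_apply, add_div]
  map_smul' c D := by
    funext j
    rw [Pi.smul_apply, Derivation.smul_apply, RingHom.id_apply, smul_eq_mul, smul_eq_mul,
      mul_div_assoc]

/-- The functionals. -/
noncomputable def axF {n p : ℕ} (a : Fin p → Fin n → k) : (Fin n → K) →ₗ[K] (Fin p → K) where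
  toFun v := fun l => ∑ j, algebraMap k K (a l j) * v j
  map_add' v w := by
    funext l
    simp only [Pi.add_apply, mul_add, Finset.sum_add_distrib]
  map_smul' c v := by
    funext l
    simp only [Pi.smul_apply, smul_eq_mul, RingHom.id_apply, Finset.mul_sum]
    refine Finset.sum_congr rfl fun j _ => ?_
    ring

/-- A linear map into `K^p` which is not onto is killed by a nonzero functional. -/
theorem ax_functional {V : Type} [AddCommGroup V] [Module K V] {p : ℕ}
    (f : V →ₗ[K] (Fin p → K)) (h : LinearMap.range f ≠ ⊤) :
    ∃ g : Fin p → K, g ≠ 0 ∧ ∀ v, ∑ l, g l * f v l = 0 := by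
  obtain ⟨φ, hφ0, hφ⟩ := Submodule.exists_le_ker_of_lt_top (LinearMap.range f)
    (lt_top_iff_ne_top.mpr h)
  have hsum : ∀ v : Fin p → K, φ v = ∑ l, φ (Pi.single l 1) * v l := by
    intro v
    conv_lhs => rw [pi_eq_sum_univ' v]
    rw [map_sum]
    refine Finset.sum_congr rfl fun l _ => ?_
    rw [map_smul, smul_eq_mul, mul_comm]
  refine ⟨fun l => φ (Pi.single l 1), ?_, fun v => ?_⟩
  · intro h0
    refine hφ0 (LinearMap.ext fun v => ?_)
    rw [hsum v, LinearMap.zero_apply]
    refine Finset.sum_eq_zero fun l _ => ?_
    rw [show φ (Pi.single l 1) = 0 from congrFun h0 l, zero_mul]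
  · rw [← hsum]
    exact hφ (LinearMap.mem_range_self f v)

end

theorem ax_ineq {k K : Type} [Field k] [CharZero k] [Field K] [Algebra k K]
    (hcl : ∀ z : K, IsAlgebraic k z → z ∈ (algebraMap k K).range) (Δ : Set (Derivation k K K))
    (hΔ : ∀ z : K, (∀ δ ∈ Δ, δ z = 0) → z ∈ (algebraMap k K).range) {n p : ℕ} (x : Fin n → K)
    (hx : ∀ j, x j ≠ 0) (a : Fin p → Fin n → k)
    (hkill : ∀ δ ∈ Δ, ∀ l, ∑ j, algebraMap k K (a l j) * (δ (x j) / x j) = 0)
    (hind : ∀ c : Fin p → k, c ≠ 0 → (∑ l, c l • a l) ∉ Submodule.span k (Gam k x))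
    (Jw J0 : Finset (Fin n)) (δ : Fin n → Derivation k K K) (hδ : ∀ q ∈ Jw, δ q ∈ Δ)
    (hδ' : ∀ q ∈ Jw, ∀ j ∈ Jw, δ q (x j) = if q = j then 1 else 0)
    (h0 : ∀ j, IsAlgebraic (Algebra.adjoin k (x '' (J0 : Set (Fin n)))) (x j)) :
    p + Jw.card ≤ J0.card := by
  classical
  set W : Submodule K (Fin n → K) := LinearMap.range (axL (k := k) x) with hW
  -- the dimension is at most the number of the elements of `J0`
  have hle : Module.finrank K W ≤ J0.card := by
    let π : W →ₗ[K] (J0 → K) := (LinearMap.funLeft K K (fun j : J0 => (j : Fin n))).comp W.subtype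
    have hinj : Function.Injective π := by
      rw [← LinearMap.ker_eq_bot, LinearMap.ker_eq_bot']
      rintro ⟨w, D, rfl⟩ hw
      have h1 : ∀ j ∈ J0, D (x j) = 0 := by
        intro j hj
        have h2 := congrFun hw ⟨j, hj⟩
        have h3 : D (x j) / x j = 0 := h2
        rwa [div_eq_zero_iff, or_iff_left (hx j)] at h3
      have h2 : ∀ z ∈ Algebra.adjoin k (x '' (J0 : Set (Fin n))), D z = 0 := by
        intro z hz
        induction hz using Algebra.adjoin_induction with
        | mem z hz =>
          obtain ⟨j, hj, rfl⟩ := hz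
          exact h1 j hj
        | algebraMap c => exact Derivation.map_algebraMap D c
        | add y z _ _ hy hz => rw [map_add, hy, hz, add_zero]
        | mul y z _ _ hy hz => rw [Derivation.leibniz, hy, hz, smul_zero, smul_zero, add_zero]
      refine Subtype.ext (funext fun j => ?_)
      show D (x j) / x j = 0
      rw [ax_algebraic D _ h2 (x j) (h0 j), zero_div]
    have h1 := LinearMap.finrank_le_finrank_of_injective hinj
    rwa [Module.finrank_fintype_fun_eq_card, Fintype.card_coe] at h1
  -- the functionals map it onto `K^p`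
  let Φ : W →ₗ[K] (Fin p → K) := (axF a).comp W.subtype
  have hsurj : LinearMap.range Φ = ⊤ := by
    by_contra hne
    obtain ⟨g, hg, hg0⟩ := ax_functional Φ hne
    obtain ⟨c, hc, hcD⟩ := dlog_rel_const Δ hΔ x hx a hkill g hg (fun D =>
      hg0 ⟨axL x D, LinearMap.mem_range_self _ D⟩)
    refine hind c hc (mem_span_of_dlog hcl x hx _ fun D => ?_)
    rw [← hcD D]
    simp only [Finset.sum_apply, Pi.smul_apply, smul_eq_mul, map_sum, map_mul, Finset.sum_mul,
      Finset.mul_sum]
    rw [Finset.sum_comm]
    refine Finset.sum_congr rfl fun l _ => Finset.sum_congr rfl fun j _ => ?_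
    ring
  -- the kernel
  have hker : Jw.card ≤ Module.finrank K (LinearMap.ker Φ) := by
    let w : Jw → LinearMap.ker Φ := fun q =>
      ⟨⟨axL x (δ q), LinearMap.mem_range_self _ _⟩, by
        rw [LinearMap.mem_ker]
        funext l
        exact hkill (δ q) (hδ q q.2) l⟩
    have hw : LinearIndependent K w := by
      refine (Fintype.linearIndependent_iff (R := K) (v := w)).mpr ?_
      intro g hg q
      have h1 := congrArg (fun v : LinearMap.ker Φ => ((v : W) : Fin n → K) q) hg
      simp only [AddSubmonoidClass.coe_finsetSum, SetLike.val_smul, Finset.sum_apply,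
        Pi.smul_apply, ZeroMemClass.coe_zero, Pi.zero_apply] at h1
      rw [Finset.sum_eq_single q] at h1
      · have h2 : ((w q : W) : Fin n → K) q = δ q (x q) / x q := rfl
        rw [h2, hδ' q q.2 q q.2, if_pos rfl, smul_eq_mul, mul_eq_zero] at h1
        rcases h1 with h1 | h1
        · exact h1
        · exact absurd h1 (div_ne_zero one_ne_zero (hx q))
      · intro q' _ hqq
        have h2 : ((w q' : W) : Fin n → K) q = δ q' (x q) / x q := rfl
        rw [h2, hδ' q' q'.2 q q.2, if_neg (fun h => hqq (Subtype.ext h)), zero_div, smul_zero]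
      · intro h
        exact absurd (Finset.mem_univ q) h
    have h1 := hw.fintype_card_le_finrank
    rwa [Fintype.card_coe] at h1
  have hrank := LinearMap.finrank_range_add_finrank_ker Φ
  rw [hsurj, finrank_top, Module.finrank_fintype_fun_eq_card, Fintype.card_fin] at hrank
  omega

end Pool.Agent.CITR
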