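import Pool.Agent.Lib.MP_c95b3b_ag_R.Defs
import Pool.Agent.Lib.MP_c95b3b_ag_h60.Key
import Pool.Agent.Lib.MP_c95b3b_ag_h85.Dim

set_option autoImplicit false
set_option linter.unusedVariables false

namespace Pool.Agent.CITR

open MvPolynomial Filter CIT60

theorem aeval_xg {n : ℕ} (φ : Ultrafilter (Fin n → ℂ)) (f : MvPolynomial (Fin n) ℂ) :
    aeval (xg φ) f = cl φ (fun x => eval x f) := by
  let ψ : MvPolynomial (Fin n) ℂ →ₐ[ℂ] US φ :=
    { toRingHom := (clHom φ).comp (RingHom.pi fun x => (eval x : MvPolynomial (Fin n) ℂ →+* ℂ))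
      commutes' := fun c => by
        show cl φ (fun x => eval x (algebraMap ℂ (MvPolynomial (Fin n) ℂ) c)) = _
        rw [algebraMap_eq_cl]
        congr 1
        funext x
        rw [MvPolynomial.algebraMap_eq, eval_C] }
  have h : (aeval (xg φ) : MvPolynomial (Fin n) ℂ →ₐ[ℂ] US φ) = ψ := by
    refine MvPolynomial.algHom_ext fun j => ?_
    rw [aeval_X]
    show cl φ (fun x => x j) = cl φ (fun x => eval x (X j))
    congr 1
    funext x
    rw [eval_X]
  rw [h]
  rfl

section

variable {n : ℕ} {P : Ideal (MvPolynomial (Fin n) ℂ)} {φ : Ultrafilter (Fin n → ℂ)}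
  (hP : P.IsPrime) (hX : (∏ i : Fin n, (X i : MvPolynomial (Fin n) ℂ)) ∉ P)
  (hon : ∀ᶠ x in (φ : Filter (Fin n → ℂ)), OnTorus n P x)
  (hgen : ∀ G ∉ P, ∀ᶠ x in (φ : Filter (Fin n → ℂ)), eval x G ≠ 0)

include hP hX hon hgen

theorem gen_iff (f : MvPolynomial (Fin n) ℂ) : aeval (xg φ) f = 0 ↔ f ∈ P := by
  rw [aeval_xg, cl_eq_zero]
  constructor
  · intro h
    by_contra hf
    obtain ⟨x, h1, h2⟩ := (h.and (hgen f hf)).exists
    exact h2 h1
  · intro hf
    filter_upwards [hon] with x hx
    exact hx.2 f hf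

theorem xg_ne_zero (j : Fin n) : xg φ j ≠ 0 := by
  intro h
  have h1 := cl_eq_zero.mp h
  obtain ⟨x, h2, h3⟩ := (h1.and hon).exists
  exact h3.1 j h2

/-- The transcendence degree at almost all points (uses CIT60.key). -/
theorem rank_points (d : ℕ) (hd : ringKrullDim (MvPolynomial (Fin n) ℂ ⧸ P) = d)
    (J : Finset (Fin n)) (hJ : AlgebraicIndependent ℚ (fun j : J => xg φ j)) :
    ∃ Jw : Finset (Fin n), J.card ≤ Jw.card + d ∧
      ∀ᶠ x in (φ : Filter (Fin n → ℂ)), AlgebraicIndependent ℚ (fun j : Jw => x j) := by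
  classical
  let R := MvPolynomial (Fin n) ℂ ⧸ P
  have : IsDomain R := Ideal.Quotient.isDomain P
  have : FaithfulSMul ℚ R :=
    (faithfulSMul_iff_algebraMap_injective ℚ R).mpr (algebraMap ℚ R).injective
  have : FaithfulSMul ℂ R :=
    (faithfulSMul_iff_algebraMap_injective ℂ R).mpr (algebraMap ℂ R).injective
  -- the coordinates of `J`
  let e : Fin J.card ≃ J := J.equivFin.symm
  let xb : Fin J.card → R := fun i => Ideal.Quotient.mk P (X (e i).1)
  have hdc : ∀ I : Finset (Fin J.card), AlgebraicIndependent ℂ (fun i : I => xb i) →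
      I.card ≤ d := by
    intro I hI
    have h1 := CIT85.card_le_ringKrullDim (k := ℂ) (R := R) (fun i : I => xb i) hI
    rw [Fintype.card_coe, hd] at h1
    exact_mod_cast h1
  obtain ⟨g, hg0, hg⟩ := key xb d hdc
  obtain ⟨G, rfl⟩ := Ideal.Quotient.mk_surjective g
  have hGP : G ∉ P := fun h => hg0 (Ideal.Quotient.eq_zero_iff_mem.mpr h)
  -- the rank of the family is the cardinality
  have hindR : AlgebraicIndependent ℚ xb := by
    have h1 : AlgebraicIndependent ℚ (fun i : Fin J.card => xg φ (e i)) :=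
      hJ.comp e e.injective
    rw [algebraicIndependent_iff] at h1 ⊢
    intro p hp
    apply h1 p
    let ψ : R →ₐ[ℂ] US φ := Ideal.Quotient.liftₐ P (aeval (xg φ))
      (fun a ha => (gen_iff hP hX hon hgen a).mpr ha)
    have h2 : ∀ i, ψ (xb i) = xg φ (e i) := by
      intro i
      show aeval (xg φ) (X (e i).1) = _
      rw [aeval_X]
    have h3 := congrArg (ψ.restrictScalars ℚ) hp
    rw [map_zero, ← AlgHom.comp_apply, comp_aeval] at h3
    have h4 : (fun i => (ψ.restrictScalars ℚ) (xb i)) = fun i => xg φ (e i) := by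
      funext i
      exact h2 i
    rw [h4] at h3
    exact h3
  have hrk : ((J.card : ℕ) : ℕ∞) ≤ (mat R).eRk (Set.range xb) := by
    have h1 : (mat R).Indep (Set.range xb) :=
      (algebraicIndependent_subtype_range hindR.injective).mpr hindR
    have h2 : (Set.range xb).encard = ((J.card : ℕ) : ℕ∞) := by
      rw [← Set.image_univ, Function.Injective.encard_image hindR.injective, Set.encard_univ]
      simp
    rw [← h2]
    exact h1.encard_le_eRk_of_subset subset_rfl
  -- at the points
  have hpt : ∀ᶠ x in (φ : Filter (Fin n → ℂ)), ∃ Jw : Finset (Fin n), J.card ≤ Jw.card + d ∧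
      AlgebraicIndependent ℚ (fun j : Jw => x j) := by
    filter_upwards [hon, hgen G hGP] with x hx hxG
    let ev : R →ₐ[ℂ] ℂ := Ideal.Quotient.liftₐ P (aeval x) (fun a ha => by
      have := hx.2 a ha
      rwa [← aeval_eq_eval] at this)
    have hev : ∀ p, ev (Ideal.Quotient.mk P p) = eval x p := by
      intro p
      rw [← aeval_eq_eval]
      rfl
    -- a maximal independent subset of `J` at the point
    obtain ⟨Jw, hJwJ, hJw, hmax⟩ : ∃ Jw : Finset (Fin n), Jw ⊆ J ∧
        AlgebraicIndependent ℚ (fun j : Jw => x j) ∧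
        ∀ j ∈ J, IsAlgebraic (Algebra.adjoin ℚ (x '' (Jw : Set (Fin n)))) (x j) := by
      let S := J.powerset.filter (fun I : Finset (Fin n) => AlgebraicIndependent ℚ (fun j : I => x j))
      have hS : S.Nonempty := by
        refine ⟨∅, ?_⟩
        simp only [S, Finset.mem_filter, Finset.mem_powerset, Finset.empty_subset, true_and]
        have : IsEmpty ((∅ : Finset (Fin n)) : Type) := by
          constructor; rintro ⟨a, ha⟩; simp at ha
        rw [algebraicIndependent_empty_type_iff]
        exact (algebraMap ℚ ℂ).injective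
      obtain ⟨I, hIS, hImax⟩ := Finset.exists_max_image S Finset.card hS
      simp only [S, Finset.mem_filter, Finset.mem_powerset] at hIS hImax
      refine ⟨I, hIS.1, hIS.2, fun j hj => ?_⟩
      by_cases hjI : j ∈ I
      · have h1 : x j ∈ Algebra.adjoin ℚ (x '' (I : Set (Fin n))) :=
          Algebra.subset_adjoin ⟨j, hjI, rfl⟩
        exact isAlgebraic_algebraMap (⟨x j, h1⟩ : Algebra.adjoin ℚ (x '' (I : Set (Fin n))))
      · by_contra hcon
        have h1 : AlgebraicIndepOn ℚ x (insert j (I : Set (Fin n))) :=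
          AlgebraicIndepOn.insert (s := (I : Set (Fin n))) hIS.2 hcon
        have h2 : AlgebraicIndependent ℚ (fun l : (insert j I : Finset (Fin n)) => x l) := by
          rw [← Finset.coe_insert] at h1
          exact h1
        have h3 := hImax _ ⟨Finset.insert_subset hj hIS.1, h2⟩
        rw [Finset.card_insert_of_notMem hjI] at h3
        omega
    refine ⟨Jw, ?_, hJw⟩
    let eb : Fin Jw.card ≃ Jw := Jw.equivFin.symm
    let b : Fin Jw.card → ℂ := fun i => x (eb i)
    have hbr : x '' (Jw : Set (Fin n)) ⊆ Set.range b := by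
      rintro _ ⟨j, hj, rfl⟩
      exact ⟨eb.symm ⟨j, hj⟩, by simp [b]⟩
    have hmem : ∀ i, ev (xb i) ∈ (mat ℂ).closure (Set.range b) := by
      intro i
      rw [hev, eval_X]
      refine (mat ℂ).closure_subset_closure hbr ?_
      rw [CIT60.mem_closure_iff]
      exact hmax _ (e i).2
    have h1 := (hg ev (by rw [hev]; exact hxG) Jw.card b hmem).1
    have h2 := hrk.trans h1
    exact_mod_cast h2
  -- one of the finitely many subsets works almost everywhere
  by_contra hcon
  push Not at hcon
  have hall : ∀ᶠ x in (φ : Filter (Fin n → ℂ)), ∀ Jw : Finset (Fin n), J.card ≤ Jw.card + d →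
      ¬ AlgebraicIndependent ℚ (fun j : Jw => x j) := by
    rw [eventually_all]
    intro Jw
    by_cases h : J.card ≤ Jw.card + d
    · have h1 := hcon Jw h
      filter_upwards [h1] with x hx _
      exact hx
    · exact Eventually.of_forall fun x h' => absurd h' h
  obtain ⟨x, ⟨Jw, h1, h2⟩, h3⟩ := (hpt.and hall).exists
  exact h3 Jw h1 h2

end

end Pool.Agent.CITR
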