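import Mathlib
import Pool.Agent.Lib.MP_c95b3b_ag_R.Defs
import Pool.Agent.Lib.MP_c95b3b_ag_R.Der

set_option autoImplicit false

/-!
The field of the algebraic germs is relatively algebraically closed in the ultrapower, and it is
the field of the common constants of the internal derivations.
-/

namespace Pool.Agent.CITR

open Filter

theorem mem_range_kst {ι : Type} {φ : Ultrafilter ι} {z : US φ} (hz : z ∈ kst φ) :
    z ∈ (algebraMap (kst φ) (US φ)).range := ⟨⟨z, hz⟩, rfl⟩

theorem kst_closed {ι : Type} (φ : Ultrafilter ι) (z : US φ) (hz : IsAlgebraic (kst φ) z) :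
    z ∈ (algebraMap (kst φ) (US φ)).range := by
  classical
  obtain ⟨p, hp0, hp⟩ := hz
  obtain ⟨f, rfl⟩ := cl_surj z
  apply mem_range_kst
  rw [cl_mem_kst]
  have hc : ∀ k, ∃ F : ι → ℂ, (∀ i, IsAlgebraic ℚ (F i)) ∧ ((p.coeff k : kst φ) : US φ) = cl φ F :=
    fun k => exists_of_mem_kst (p.coeff k).2
  choose F hF1 hF2 using hc
  have h1 : ∀ᶠ i in (φ : Filter ι), F p.natDegree i ≠ 0 := by
    by_contra hcon
    rw [← Ultrafilter.eventually_not] at hcon
    have h2 : cl φ (F p.natDegree) = 0 := by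
      rw [cl_eq_zero]
      filter_upwards [hcon] with i hi
      exact not_not.mp hi
    rw [← hF2] at h2
    have h3 : p.coeff p.natDegree = 0 := Subtype.ext h2
    exact hp0 (Polynomial.leadingCoeff_eq_zero.mp h3)
  have h2 : ∀ᶠ i in (φ : Filter ι),
      ∑ k ∈ Finset.range (p.natDegree + 1), F k i * f i ^ k = 0 := by
    rw [← cl_eq_zero]
    have h3 : (fun i => ∑ k ∈ Finset.range (p.natDegree + 1), F k i * f i ^ k) =
        ∑ k ∈ Finset.range (p.natDegree + 1), (F k * f ^ k) := by
      funext i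
      rw [Finset.sum_apply]
      rfl
    rw [h3, ← clHom_apply, map_sum, ← hp, Polynomial.aeval_eq_sum_range]
    refine Finset.sum_congr rfl fun k _ => ?_
    rw [map_mul, map_pow, clHom_apply, clHom_apply, ← hF2, Subfield.smul_def, smul_eq_mul]
  filter_upwards [h1, h2] with i hi1 hi2
  let a : ℕ → algebraicClosure ℚ ℂ := fun k => ⟨F k i, mem_algebraicClosure_iff.mpr (hF1 k i)⟩
  let q : Polynomial (algebraicClosure ℚ ℂ) :=
    ∑ k ∈ Finset.range (p.natDegree + 1), Polynomial.monomial k (a k)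
  have hq0 : q ≠ 0 := by
    intro h
    have h3 : q.coeff p.natDegree = a p.natDegree := by
      simp only [q, Polynomial.finsetSum_coeff, Polynomial.coeff_monomial]
      rw [Finset.sum_ite_eq' (Finset.range (p.natDegree + 1)) p.natDegree a,
        if_pos (Finset.self_mem_range_succ _)]
    rw [h, Polynomial.coeff_zero] at h3
    exact hi1 (congrArg Subtype.val h3).symm
  have hq : Polynomial.aeval (f i) q = 0 := by
    rw [← hi2]
    simp only [q, map_sum, Polynomial.aeval_monomial]
    rfl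
  have h4 : IsAlgebraic (algebraicClosure ℚ ℂ) (f i) := ⟨q, hq0, hq⟩
  have _ : Algebra.IsAlgebraic ℚ (algebraicClosure ℚ ℂ) := algebraicClosure.isAlgebraic ℚ ℂ
  exact h4.restrictScalars ℚ

/-- (uses R1) -/
theorem kst_const {ι : Type} (φ : Ultrafilter ι) (z : US φ)
    (hz : ∀ δ : ι → Derivation ℚ ℂ ℂ, ider φ δ z = 0) :
    z ∈ (algebraMap (kst φ) (US φ)).range := by
  classical
  obtain ⟨f, rfl⟩ := cl_surj z
  apply mem_range_kst
  by_contra hcon
  rw [cl_mem_kst, ← Ultrafilter.eventually_not] at hcon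
  have hd : ∀ w : ℂ, ∃ D : Derivation ℚ ℂ ℂ, ¬ IsAlgebraic ℚ w → D w = 1 := by
    intro w
    by_cases hw : IsAlgebraic ℚ w
    · exact ⟨0, fun h => absurd hw h⟩
    · have hx : AlgebraicIndependent ℚ (fun _ : Unit => w) := by
        rw [algebraicIndependent_unique_type_iff]
        exact hw
      obtain ⟨δ, hδ⟩ := exists_der (fun _ : Unit => w) hx
      refine ⟨δ (), fun _ => ?_⟩
      rw [hδ () (), if_pos rfl]
  choose D hD using hd
  have h1 := hz (fun i => D (f i))
  rw [ider_cl, cl_eq_zero] at h1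
  obtain ⟨i, hi1, hi2⟩ := (h1.and hcon).exists
  rw [hD (f i) hi2] at hi1
  exact one_ne_zero hi1

end Pool.Agent.CITR
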