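import Mathlib
import Pool.Agent.Lib.MP_c95b3b_ag_R.Defs

/-!
# Families of integer vectors which are independent at almost all points
-/

set_option autoImplicit false
set_option linter.unusedVariables false

namespace Pool.Agent.CITR

open MvPolynomial Filter

namespace LosAux

theorem intCast_eq {ι : Type} (φ : Ultrafilter ι) (m : ℤ) :
    ((m : ℤ) : US φ) = cl φ (fun _ => (m : ℂ)) := by
  have h := map_intCast (clHom φ) m
  exact h.symm

theorem cl_sum_mul {ι : Type} (φ : Ultrafilter ι) {p : ℕ} (f g : Fin p → ι → ℂ) :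
    cl φ (fun x => ∑ l, f l x * g l x) = ∑ l, cl φ (f l) * cl φ (g l) := by
  have h1 : (fun x => ∑ l, f l x * g l x) = ∑ l, f l * g l := by
    funext x
    simp [Finset.sum_apply]
  rw [h1, ← clHom_apply, map_sum]
  refine Finset.sum_congr rfl fun l _ => ?_
  rw [map_mul, clHom_apply, clHom_apply]

/-- Integer vectors, dependent over `ℂ`, are dependent over `ℤ`. -/
theorem exists_int {n p r : ℕ} (a : Fin p → Fin n → ℤ) (μ : Fin r → Fin n → ℤ) (f : Fin p → ℂ)
    (e : Fin r → ℂ) (h : ∀ j, ∑ l, f l * (a l j : ℂ) = ∑ t, e t * (μ t j : ℂ)) (l0 : Fin p)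
    (hl0 : f l0 ≠ 0) :
    ∃ (c : Fin p → ℤ) (d : Fin r → ℤ), c l0 ≠ 0 ∧ ∑ l, c l • a l = ∑ t, d t • μ t := by
  obtain ⟨ρ, hρ⟩ : ∃ ρ : Module.Dual ℚ ℂ, ρ (f l0) ≠ 0 := by
    by_contra hcon
    push Not at hcon
    exact hl0 ((Module.forall_dual_apply_eq_zero_iff ℚ (f l0)).mp hcon)
  have hint : ∀ (z : ℂ) (m : ℤ), ρ (z * (m : ℂ)) = ρ z * (m : ℚ) := by
    intro z m
    have h1 : z * (m : ℂ) = (m : ℚ) • z := by
      rw [Algebra.smul_def, mul_comm]
      congr 1
    rw [h1, map_smul, smul_eq_mul, mul_comm]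
  have hQ : ∀ j, ∑ l, ρ (f l) * (a l j : ℚ) = ∑ t, ρ (e t) * (μ t j : ℚ) := by
    intro j
    have h1 := congrArg ρ (h j)
    rw [map_sum, map_sum] at h1
    simp only [hint] at h1
    exact h1
  obtain ⟨N, hN⟩ := IsLocalization.exist_integer_multiples_of_finite (nonZeroDivisors ℤ)
    (Sum.elim (fun l => ρ (f l)) (fun t => ρ (e t)) : Fin p ⊕ Fin r → ℚ)
  have hN0 : ((N : ℤ) : ℚ) ≠ 0 := by
    exact_mod_cast nonZeroDivisors.ne_zero N.2
  choose q hq using hN
  have hc : ∀ l, ((q (Sum.inl l) : ℤ) : ℚ) = (N : ℤ) * ρ (f l) := by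
    intro l
    have := hq (Sum.inl l)
    simpa using this
  have hd : ∀ t, ((q (Sum.inr t) : ℤ) : ℚ) = (N : ℤ) * ρ (e t) := by
    intro t
    have := hq (Sum.inr t)
    simpa using this
  refine ⟨fun l => q (Sum.inl l), fun t => q (Sum.inr t), ?_, ?_⟩
  · intro h0
    have h1 := hc l0
    have h0' : q (Sum.inl l0) = 0 := h0
    rw [h0', Int.cast_zero] at h1
    exact (mul_ne_zero hN0 hρ) h1.symm
  · funext j
    have h1 : ((∑ l, q (Sum.inl l) * a l j : ℤ) : ℚ) = ((∑ t, q (Sum.inr t) * μ t j : ℤ) : ℚ) := by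
      push_cast
      simp only [hc, hd, mul_assoc]
      rw [← Finset.mul_sum, ← Finset.mul_sum, hQ j]
    have h2 : (∑ l, q (Sum.inl l) * a l j : ℤ) = ∑ t, q (Sum.inr t) * μ t j := by
      exact_mod_cast h1
    simpa [Finset.sum_apply] using h2

end LosAux

open LosAux

theorem los_indep {n p : ℕ} (φ : Ultrafilter (Fin n → ℂ)) (a : (Fin n → ℂ) → Fin p → Fin n → ℤ)
    (hgen' : ∀ᶠ x in (φ : Filter (Fin n → ℂ)), ∀ j, x j ≠ 0)
    (ha : ∀ᶠ x in (φ : Filter (Fin n → ℂ)), ∀ c : Fin p → ℤ,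
      (∃ N : ℤ, N ≠ 0 ∧ N • (∑ l, c l • a x l) ∈ GamZ φ) → c = 0) (c : Fin p → kst φ)
    (hc : c ≠ 0) : (∑ l, c l • ast φ a l) ∉ Submodule.span (kst φ) (Gam (kst φ) (xg φ)) := by
  intro hmem
  obtain ⟨r, d, g, hg⟩ := Submodule.mem_span_set'.mp hmem
  have hg' : ∀ t, ∃ m : Fin n → ℤ, (∀ j, (g t : Fin n → kst φ) j = (m j : kst φ)) ∧
      ∏ j, xg φ j ^ m j ∈ (algebraMap (kst φ) (US φ)).range := fun t => (g t).2
  choose μ hμ1 hμ2 using hg'
  have hμ : ∀ t, μ t ∈ GamZ φ := by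
    intro t
    rw [mem_GamZ]
    have h1 : ∏ j, xg φ j ^ μ t j = cl φ (fun x => ∏ j, x j ^ μ t j) := by
      have h2 : (fun x : Fin n → ℂ => ∏ j, x j ^ μ t j) = ∏ j, (fun x : Fin n → ℂ => x j ^ μ t j) := by
        funext x
        simp [Finset.prod_apply]
      rw [h2, ← clHom_apply, map_prod]
      refine Finset.prod_congr rfl fun j _ => ?_
      rw [clHom_apply, xg]
      cases μ t j with
      | ofNat k =>
        simp only [Int.ofNat_eq_natCast, zpow_natCast]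
        rw [← clHom_apply, ← map_pow]
        rfl
      | negSucc k =>
        simp only [zpow_negSucc]
        rw [← clHom_apply, ← map_pow, clHom_apply, cl_inv]
        rfl
    obtain ⟨z, hz⟩ := hμ2 t
    have h3 : cl φ (fun x => ∏ j, x j ^ μ t j) ∈ kst φ := by
      rw [← h1, ← hz]
      exact z.2
    exact (cl_mem_kst.mp h3).mono fun x h _ => h
  choose f hf hcf using fun l => exists_of_mem_kst (c l).2
  choose e he hde using fun t => exists_of_mem_kst (d t).2
  have heq : ∀ j, ∀ᶠ x in (φ : Filter (Fin n → ℂ)),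
      ∑ l, f l x * (a x l j : ℂ) = ∑ t, e t x * (μ t j : ℂ) := by
    intro j
    rw [← cl_eq, cl_sum_mul φ f (fun l x => (a x l j : ℂ)), cl_sum_mul φ e (fun t _ => (μ t j : ℂ))]
    have h1 := congrArg (fun v : Fin n → kst φ => ((v j : kst φ) : US φ)) hg
    simp only [Finset.sum_apply, Pi.smul_apply, smul_eq_mul, AddSubmonoidClass.coe_finsetSum,
      MulMemClass.coe_mul, hμ1] at h1
    rw [Finset.sum_congr rfl fun l _ => show cl φ (f l) * cl φ (fun x => (a x l j : ℂ)) =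
      (c l : US φ) * (ast φ a l j : US φ) from by rw [hcf l]; rfl, ← h1]
    refine Finset.sum_congr rfl fun t _ => ?_
    rw [hde t, ← intCast_eq]
    congr 1
  obtain ⟨l0, hl0⟩ : ∃ l0, c l0 ≠ 0 := by
    by_contra hcon
    push Not at hcon
    exact hc (funext hcon)
  have hf0 : ∀ᶠ x in (φ : Filter (Fin n → ℂ)), f l0 x ≠ 0 := by
    rw [Ultrafilter.eventually_not, ← cl_eq_zero, ← hcf l0]
    exact fun h => hl0 (Subtype.ext h)
  obtain ⟨x, hx1, hx2, hx3⟩ := ((eventually_all.mpr heq).and (ha.and hf0)).exists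
  obtain ⟨c', d', h1, h2⟩ := exists_int (a x) μ (fun l => f l x) (fun t => e t x) hx1 l0 hx3
  have h3 : c' = 0 := by
    refine hx2 c' ⟨1, one_ne_zero, ?_⟩
    rw [one_smul, h2]
    exact Submodule.sum_mem _ fun t _ => Submodule.smul_mem _ _ (hμ t)
  exact h1 (congrFun h3 l0)

end Pool.Agent.CITR
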