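import Mathlib
import Pool.Agent.Lib.MP_c95b3b_ag_R.Defs
import Pool.Agent.Lib.MP_c95b3b_ag_R.Der
import Pool.Agent.Lib.MP_c95b3b_ag_R.Ax
import Pool.Agent.Lib.MP_c95b3b_ag_R.Germ
import Pool.Agent.Lib.MP_c95b3b_ag_R.Gen
import Pool.Agent.Lib.MP_c95b3b_ag_R.Los
import Pool.Agent.Lib.MP_c95b3b_ag_h8.Indep

/-!
CITR, module R11: the main inequality.
-/

set_option autoImplicit false

namespace Pool.Agent.CITR

open MvPolynomial Filter

namespace MainAux

/-- algebraicity over a larger subalgebra -/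
theorem alg_ext {R₁ R₂ K : Type} [CommRing R₁] [CommRing R₂] [Field K] [Algebra R₁ K]
    [Algebra R₂ K] (S₁ : Subalgebra R₁ K) (S₂ : Subalgebra R₂ K) (h : ∀ y ∈ S₁, y ∈ S₂) {x : K}
    (hx : IsAlgebraic S₁ x) : IsAlgebraic S₂ x := by
  let f : S₁ →+* S₂ :=
    { toFun := fun y => ⟨y, h y y.2⟩
      map_one' := rfl
      map_mul' := fun _ _ => rfl
      map_zero' := rfl
      map_add' := fun _ _ => rfl }
  have hf : Function.Injective f := fun a b hab => Subtype.ext (congrArg (fun z : S₂ => (z : K)) hab)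
  obtain ⟨p, hp0, hp⟩ := hx
  refine ⟨p.map f, (Polynomial.map_ne_zero_iff hf).2 hp0, ?_⟩
  rw [Polynomial.aeval_def, Polynomial.eval₂_map]
  rw [Polynomial.aeval_def] at hp
  exact hp

/-- the rational algebra generated by a set which consists of constants and elements of `T` -/
theorem adjoin_sub {k K : Type} [Field k] [CharZero k] [Field K] [CharZero K] [Algebra k K]
    (S T : Set K) (h : ∀ y ∈ S, y ∈ (algebraMap k K).range ∨ y ∈ T) :
    ∀ y ∈ Algebra.adjoin ℚ S, y ∈ Algebra.adjoin k T := by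
  intro y hy
  induction hy using Algebra.adjoin_induction with
  | mem y hy =>
    rcases h y hy with ⟨c, rfl⟩ | h1
    · exact Subalgebra.algebraMap_mem _ c
    · exact Algebra.subset_adjoin h1
  | algebraMap r =>
    have h1 : algebraMap ℚ K r = algebraMap k K (r : k) := by
      rw [eq_ratCast, map_ratCast]
    rw [h1]
    exact Subalgebra.algebraMap_mem _ _
  | add x y _ _ hx hy => exact Subalgebra.add_mem _ hx hy
  | mul x y _ _ hx hy => exact Subalgebra.mul_mem _ hx hy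

/-- extension of an independent family by elements of a second family -/
theorem exists_ext {K : Type} [Field K] [CharZero K] {α β : Type} [Fintype α] [Fintype β]
    (b : α → K) (x : β → K) (hb : AlgebraicIndependent ℚ b) :
    ∃ J : Finset β, AlgebraicIndependent ℚ (Sum.elim b (fun j : J => x j)) ∧
      ∀ i, x i ∈ CIT8.acl ℚ (Set.range (Sum.elim b (fun j : J => x j))) := by
  classical
  let z : α ⊕ β → K := Sum.elim b x
  let s : Finset β → Set (α ⊕ β) := fun J => Set.range Sum.inl ∪ Sum.inr '' (J : Set β)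
  let Q := (Finset.univ : Finset (Finset β)).filter (fun J => AlgebraicIndepOn ℚ z (s J))
  have hequiv : ∀ J : Finset β, AlgebraicIndepOn ℚ z (s J) ↔
      AlgebraicIndependent ℚ (Sum.elim b (fun j : J => x j)) := by
    intro J
    let e : α ⊕ J ≃ s J := Equiv.ofBijective
      (fun t => Sum.elim (fun a : α => (⟨Sum.inl a, Or.inl ⟨a, rfl⟩⟩ : s J))
        (fun j : J => (⟨Sum.inr j.1, Or.inr ⟨j.1, j.2, rfl⟩⟩ : s J)) t) (by
        constructor
        · rintro (a | j) (a' | j') h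
          · have h1 := congrArg Subtype.val h
            exact congrArg Sum.inl (Sum.inl.inj h1)
          · have h1 := congrArg Subtype.val h
            cases h1
          · have h1 := congrArg Subtype.val h
            cases h1
          · have h1 := congrArg Subtype.val h
            exact congrArg Sum.inr (Subtype.ext (Sum.inr.inj h1))
        · rintro ⟨t, ⟨a, rfl⟩ | ⟨j, hj, rfl⟩⟩
          · exact ⟨Sum.inl a, rfl⟩
          · exact ⟨Sum.inr ⟨j, hj⟩, rfl⟩)
    have h1 : (fun i : s J => z i) ∘ e = Sum.elim b (fun j : J => x j) := by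
      funext t
      rcases t with a | j <;> rfl
    rw [← h1]
    exact (algebraicIndependent_equiv e).symm
  have hQ : Q.Nonempty := by
    refine ⟨∅, ?_⟩
    simp only [Q, Finset.mem_filter, Finset.mem_univ, true_and]
    rw [hequiv]
    have hem : IsEmpty ((∅ : Finset β) : Type) := ⟨fun a => absurd a.2 (Finset.notMem_empty _)⟩
    have h1 : b ∘ (Equiv.sumEmpty α ((∅ : Finset β) : Type)) =
        Sum.elim b (fun j : (∅ : Finset β) => x j) := by
      funext t
      rcases t with a | j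
      · rfl
      · exact hem.elim j
    rw [← h1]
    exact (algebraicIndependent_equiv _).2 hb
  obtain ⟨J, hJQ, hJmax⟩ := Finset.exists_max_image Q Finset.card hQ
  simp only [Q, Finset.mem_filter, Finset.mem_univ, true_and] at hJQ hJmax
  refine ⟨J, (hequiv J).1 hJQ, fun i => ?_⟩
  by_contra hcon
  have hi : i ∉ J := fun hi => hcon (CIT8.subset_acl _ ⟨Sum.inr ⟨i, hi⟩, rfl⟩)
  have h1 : AlgebraicIndepOn ℚ z (insert (Sum.inr i) (s J)) := by
    refine AlgebraicIndepOn.insert hJQ ?_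
    have h2 : z '' (s J) = Set.range (Sum.elim b (fun j : J => x j)) := by
      ext y
      constructor
      · rintro ⟨_, ⟨a, rfl⟩ | ⟨j, hj, rfl⟩, rfl⟩
        · exact ⟨Sum.inl a, rfl⟩
        · exact ⟨Sum.inr ⟨j, hj⟩, rfl⟩
      · rintro ⟨a | j, rfl⟩
        · exact ⟨Sum.inl a, Or.inl ⟨a, rfl⟩, rfl⟩
        · exact ⟨Sum.inr j, Or.inr ⟨j, j.2, rfl⟩, rfl⟩
    rw [h2]
    exact hcon
  have h2 : insert (Sum.inr i) (s J) = s (insert i J) := by
    simp only [s]
    rw [Finset.coe_insert, Set.image_insert_eq, Set.union_insert]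
  rw [h2] at h1
  have h3 := hJmax _ h1
  rw [Finset.card_insert_of_notMem hi] at h3
  omega

/-- logarithmic derivative of a monomial -/
theorem der_mon (D : Derivation ℚ ℂ ℂ) {n : ℕ} (x : Fin n → ℂ) (hx : ∀ j, x j ≠ 0)
    (a : Fin n → ℤ) (s : Finset (Fin n)) :
    D (∏ j ∈ s, x j ^ a j) =
      (∏ j ∈ s, x j ^ a j) * ∑ j ∈ s, (a j : ℂ) * (D (x j) / x j) := by
  classical
  induction s using Finset.induction_on with
  | empty => simp
  | insert i s hi ih =>
    rw [Finset.prod_insert hi, Finset.sum_insert hi, Derivation.leibniz, ih,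
      Derivation.leibniz_zpow]
    have h1 : x i ^ a i = x i ^ (a i - 1) * x i := by
      rw [← zpow_add_one₀ (hx i), sub_add_cancel]
    have hxi := hx i
    simp only [smul_eq_mul, zsmul_eq_mul]
    rw [h1]
    field_simp
    ring

/-- the lattice step -/
theorem exists_indep {n : ℕ} (G Λ : Submodule ℤ (Fin n → ℤ)) (p : ℕ)
    (h : p + Module.finrank ℤ (Λ ⊓ G : Submodule ℤ (Fin n → ℤ)) ≤ Module.finrank ℤ Λ) :
    ∃ a : Fin p → Fin n → ℤ, (∀ l, a l ∈ Λ) ∧
      ∀ c : Fin p → ℤ, (∃ N : ℤ, N ≠ 0 ∧ N • (∑ l, c l • a l) ∈ G) → c = 0 := by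
  have h1 := Submodule.finrank_quotient_add_finrank (G.comap Λ.subtype)
  have h2 : Module.finrank ℤ (G.comap Λ.subtype) =
      Module.finrank ℤ (Λ ⊓ G : Submodule ℤ (Fin n → ℤ)) := by
    have e : (G.comap Λ.subtype) ≃ₗ[ℤ] (Λ ⊓ G : Submodule ℤ (Fin n → ℤ)) := by
      have h3 : G.comap Λ.subtype = (Λ ⊓ G).comap Λ.subtype := by
        ext y
        simp
      rw [h3]
      exact Submodule.comapSubtypeEquivOfLe inf_le_left
    exact e.finrank_eq
  rw [h2] at h1
  obtain ⟨f, hf⟩ := exists_linearIndependent_of_le_finrank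
    (R := ℤ) (M := Λ ⧸ G.comap Λ.subtype) (n := p) (by omega)
  have hs : ∀ l, ∃ a : Λ, (G.comap Λ.subtype).mkQ a = f l := fun l =>
    Submodule.mkQ_surjective _ (f l)
  choose a ha using hs
  refine ⟨fun l => a l, fun l => (a l).2, ?_⟩
  rintro c ⟨N, hN, hG⟩
  have h3 : ∑ l, (N * c l) • f l = 0 := by
    have h4 : (G.comap Λ.subtype).mkQ (N • ∑ l, c l • a l) = 0 := by
      rw [Submodule.mkQ_apply, Submodule.Quotient.mk_eq_zero, Submodule.mem_comap]
      simpa using hG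
    rw [← h4, map_smul, map_sum, Finset.smul_sum]
    refine Finset.sum_congr rfl fun l _ => ?_
    rw [map_smul, ha, mul_smul]
  funext l
  have h5 := Fintype.linearIndependent_iff.1 hf _ h3 l
  exact (mul_eq_zero.1 h5).resolve_left hN

theorem cl_zpow' {ι : Type} {φ : Ultrafilter ι} (f : ι → ℂ) (m : ℤ) :
    cl φ f ^ m = cl φ (fun i => f i ^ m) := rfl

theorem cl_prod' {ι : Type} {φ : Ultrafilter ι} {β : Type} (s : Finset β) (f : β → ι → ℂ) :
    ∏ j ∈ s, cl φ (f j) = cl φ (fun i => ∏ j ∈ s, f j i) := by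
  classical
  induction s using Finset.induction_on with
  | empty => rfl
  | insert j s hj ih =>
    rw [Finset.prod_insert hj, ih, ← cl_mul]
    congr 1
    funext i
    rw [Finset.prod_insert hj]

theorem bg_eq {n m : ℕ} (φ : Ultrafilter (Fin n → ℂ)) (γ : Fin m → Fin n → ℤ) (l : Fin m) :
    bg φ γ l = cl φ (fun x => ∏ j, x j ^ γ l j) := by
  unfold bg
  rw [← cl_prod']
  rfl

/-- the dimension is a natural number -/
theorem exists_dim {R : Type} [CommRing R] [Nontrivial R] (n m : ℕ)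
    (h : ringKrullDim R + ((m : ℕ) : WithBot ℕ∞) + 1 ≤ (n : WithBot ℕ∞)) :
    ∃ d : ℕ, ringKrullDim R = d := by
  have h0 : (0 : WithBot ℕ∞) ≤ ringKrullDim R := ringKrullDim_nonneg_of_nontrivial
  have h1 : ringKrullDim R ≤ (n : WithBot ℕ∞) := by
    refine le_trans ?_ h
    rw [add_assoc]
    refine le_add_of_nonneg_right ?_
    positivity
  obtain ⟨r, hr⟩ : ∃ r, r = ringKrullDim R := ⟨_, rfl⟩
  rw [← hr] at h0 h1 ⊢
  cases r with
  | bot => exact absurd h0 (by simp)
  | coe r =>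
    cases r with
    | top =>
      exfalso
      have h2 : ((⊤ : ℕ∞) : WithBot ℕ∞) ≤ ((n : ℕ∞) : WithBot ℕ∞) := h1
      rw [WithBot.coe_le_coe] at h2
      exact absurd h2 (by simp)
    | coe r => exact ⟨r, rfl⟩

end MainAux

section

variable {n : ℕ} {P : Ideal (MvPolynomial (Fin n) ℂ)} {φ : Ultrafilter (Fin n → ℂ)}
  (hP : P.IsPrime) (hX : (∏ i : Fin n, (X i : MvPolynomial (Fin n) ℂ)) ∉ P)
  (hon : ∀ᶠ x in (φ : Filter (Fin n → ℂ)), OnTorus n P x)
  (hgen : ∀ G ∉ P, ∀ᶠ x in (φ : Filter (Fin n → ℂ)), eval x G ≠ 0)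

include hP hX hon hgen

open MainAux in
/-- The main inequality (uses R1, R5, R6, R9, R10). -/
theorem main_ineq (hU : ∀ᶠ x in (φ : Filter (Fin n → ℂ)), Unlikely n P x) {m : ℕ}
    (γ : Fin m → Fin n → ℤ) (hγ : ∀ l, γ l ∈ GamZ φ) (L : Finset (Fin m))
    (hL : AlgebraicIndependent ℚ (fun l : L => bg φ γ l)) :
    ∀ᶠ x in (φ : Filter (Fin n → ℂ)), ∃ Λ : Submodule ℤ (Fin n → ℤ), Λ ≤ GamZ φ ∧
      (∀ a ∈ Λ, ∏ i, x i ^ a i = 1) ∧ L.card + 1 ≤ Module.finrank ℤ Λ := by
  classical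
  have : Nontrivial (MvPolynomial (Fin n) ℂ ⧸ P) := Ideal.Quotient.nontrivial_iff.2 hP.ne_top
  -- the dimension
  obtain ⟨d, hd⟩ : ∃ d : ℕ, ringKrullDim (MvPolynomial (Fin n) ℂ ⧸ P) = d := by
    obtain ⟨x, -, Λ, hΛ, -⟩ := hU.exists
    exact exists_dim n _ hΛ
  have hne : ∀ᶠ x in (φ : Filter (Fin n → ℂ)), ∀ j, x j ≠ 0 := by
    filter_upwards [hon] with x hx
    exact hx.1
  have hxg : ∀ j, xg φ j ≠ 0 := xg_ne_zero hP hX hon hgen
  -- bases
  obtain ⟨JD, hJD, hJD', -⟩ := CIT8.exists_maxIndep ℚ (xg φ)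
  obtain ⟨J0, hJ0, hJ0'⟩ := exists_ext (fun l : L => bg φ γ l) (xg φ) hL
  have hcard : L.card + J0.card ≤ JD.card := by
    have h1 := CIT8.card_le_of_acl (F := ℚ) (Sum.elim (fun l : L => bg φ γ l)
      (fun j : J0 => xg φ j)) (fun j : JD => xg φ j) hJ0 (by
      rintro (l | j)
      · exact CIT8.acl_prod Finset.univ (fun j => xg φ j ^ γ l j)
          fun j _ => CIT8.acl_zpow (hJD' j) _
      · exact hJD' j)
    simpa using h1
  obtain ⟨Jw, hJw, hJw'⟩ := rank_points hP hX hon hgen d hd JD hJD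
  by_contra hcon
  rw [← Ultrafilter.eventually_not] at hcon
  -- the number of the additional relations
  obtain ⟨p, hp⟩ : ∃ p, p = d + 1 - L.card := ⟨_, rfl⟩
  -- the vectors at almost all points
  have hvec : ∀ᶠ x in (φ : Filter (Fin n → ℂ)), ∃ a : Fin p → Fin n → ℤ,
      (∀ l, ∏ i, x i ^ a l i = 1) ∧
      ∀ c : Fin p → ℤ, (∃ N : ℤ, N ≠ 0 ∧ N • (∑ l, c l • a l) ∈ GamZ φ) → c = 0 := by
    filter_upwards [hcon, hU] with x hx hUx
    obtain ⟨-, Λ, hΛ, hΛ1⟩ := hUx
    rw [hd] at hΛ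
    have h1 : d + (n - Module.finrank ℤ Λ) + 1 ≤ n := by exact_mod_cast hΛ
    have h2 : ¬ L.card + 1 ≤ Module.finrank ℤ (Λ ⊓ GamZ φ : Submodule ℤ (Fin n → ℤ)) := by
      intro h3
      exact hx ⟨Λ ⊓ GamZ φ, inf_le_right, fun a ha => hΛ1 a ha.1, h3⟩
    have h3 : Module.finrank ℤ (Λ ⊓ GamZ φ : Submodule ℤ (Fin n → ℤ)) ≤ Module.finrank ℤ Λ :=
      Submodule.finrank_mono inf_le_left
    obtain ⟨a, ha, ha'⟩ := exists_indep (GamZ φ) Λ p (by omega)
    exact ⟨a, fun l => hΛ1 _ (ha l), ha'⟩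
  have hchoice : ∀ x : Fin n → ℂ, ∃ a : Fin p → Fin n → ℤ,
      (∃ a : Fin p → Fin n → ℤ, (∀ l, ∏ i, x i ^ a l i = 1) ∧
        ∀ c : Fin p → ℤ, (∃ N : ℤ, N ≠ 0 ∧ N • (∑ l, c l • a l) ∈ GamZ φ) → c = 0) →
      ((∀ l, ∏ i, x i ^ a l i = 1) ∧
        ∀ c : Fin p → ℤ, (∃ N : ℤ, N ≠ 0 ∧ N • (∑ l, c l • a l) ∈ GamZ φ) → c = 0) := by
    intro x
    by_cases h : ∃ a : Fin p → Fin n → ℤ, (∀ l, ∏ i, x i ^ a l i = 1) ∧
        ∀ c : Fin p → ℤ, (∃ N : ℤ, N ≠ 0 ∧ N • (∑ l, c l • a l) ∈ GamZ φ) → c = 0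
    · obtain ⟨a, ha⟩ := h
      exact ⟨a, fun _ => ha⟩
    · exact ⟨0, fun h' => absurd h' h⟩
  choose a ha using hchoice
  have ha1 : ∀ᶠ x in (φ : Filter (Fin n → ℂ)), ∀ l, ∏ i, x i ^ a x l i = 1 := by
    filter_upwards [hvec] with x hx
    exact (ha x hx).1
  have ha2 : ∀ᶠ x in (φ : Filter (Fin n → ℂ)), ∀ c : Fin p → ℤ,
      (∃ N : ℤ, N ≠ 0 ∧ N • (∑ l, c l • a x l) ∈ GamZ φ) → c = 0 := by
    filter_upwards [hvec] with x hx
    exact (ha x hx).2
  -- the derivations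
  have hder : ∀ x : Fin n → ℂ, ∃ D : Fin n → Derivation ℚ ℂ ℂ,
      AlgebraicIndependent ℚ (fun j : Jw => x j) →
        ∀ q ∈ Jw, ∀ j ∈ Jw, D q (x j) = if q = j then 1 else 0 := by
    intro x
    by_cases h : AlgebraicIndependent ℚ (fun j : Jw => x j)
    · obtain ⟨D, hD⟩ := exists_der (fun j : Jw => x j) h
      refine ⟨fun q => if hq : q ∈ Jw then D ⟨q, hq⟩ else 0, fun _ q hq j hj => ?_⟩
      have h1 : (if hq : q ∈ Jw then D ⟨q, hq⟩ else 0) = D ⟨q, hq⟩ := dif_pos hq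
      have h2 := hD ⟨q, hq⟩ ⟨j, hj⟩
      simp only [Subtype.mk.injEq] at h2
      change (if hq : q ∈ Jw then D ⟨q, hq⟩ else 0 : Derivation ℚ ℂ ℂ) (x j) = _
      rw [h1]
      exact h2
    · exact ⟨0, fun h' => absurd h' h⟩
  choose D hD using hder
  have hmain := ax_ineq (k := kst φ) (K := US φ) (kst_closed φ) (Set.range (ider φ))
    (fun z hz => kst_const φ z fun δ => hz _ ⟨δ, rfl⟩) (xg φ) hxg (ast φ a)
    (by
      rintro _ ⟨δ, rfl⟩ l
      have h1 : ∀ j, algebraMap (kst φ) (US φ) (ast φ a l j) * (ider φ δ (xg φ j) / xg φ j) =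
          cl φ (fun x => ((a x l j : ℤ) : ℂ) * (δ x (x j) / x j)) := fun j => rfl
      have h2 : ∀ s : Finset (Fin n), ∑ j ∈ s, algebraMap (kst φ) (US φ) (ast φ a l j) *
          (ider φ δ (xg φ j) / xg φ j) =
          cl φ (fun x => ∑ j ∈ s, ((a x l j : ℤ) : ℂ) * (δ x (x j) / x j)) := by
        intro s
        induction s using Finset.induction_on with
        | empty => rfl
        | insert i s hi ih =>
          rw [Finset.sum_insert hi, ih, h1, ← cl_add]
          congr 1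
          funext x
          rw [Finset.sum_insert hi]
      rw [h2, cl_eq_zero]
      filter_upwards [ha1, hne] with x hx1 hx2
      have h3 := der_mon (δ x) x hx2 (a x l) Finset.univ
      rw [hx1 l, one_mul, Derivation.map_one_eq_zero] at h3
      exact h3.symm)
    (los_indep φ a hne ha2) Jw J0 (fun q => ider φ (fun x => D x q)) (fun q _ => ⟨_, rfl⟩)
    (by
      intro q hq j hj
      have h1 : ider φ (fun x => D x q) (xg φ j) = cl φ (fun x => D x q (x j)) := rfl
      have h2 : (if q = j then 1 else 0 : US φ) = cl φ (fun _ => if q = j then 1 else 0) := by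
        by_cases h : q = j
        · simp only [h, if_true]
          rfl
        · simp only [h, if_false]
          rfl
      rw [h1, h2, cl_eq]
      filter_upwards [hJw'] with x hx
      exact hD x hx q hq j hj)
    (by
      intro j
      refine alg_ext _ _ (adjoin_sub _ _ ?_) (hJ0' j)
      rintro _ ⟨l | i, rfl⟩
      · left
        have h1 : bg φ γ l ∈ kst φ := by
          have h2 : bg φ γ l = cl φ (fun x => ∏ j, x j ^ γ l j) := bg_eq φ γ l
          rw [h2, cl_mem_kst]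
          filter_upwards [mem_GamZ.1 (hγ l), hne] with x hx1 hx2
          exact hx1 hx2
        exact ⟨⟨_, h1⟩, rfl⟩
      · right
        exact ⟨i, i.2, rfl⟩)
  omega

end

end Pool.Agent.CITR
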