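import Pool.Agent.Lib.MP_c95b3b_ag_R.Final

set_option autoImplicit false

/-!
Division by the stabiliser: the image over the algebraic numbers can be chosen with finite
stabiliser.
-/

namespace Pool.Agent.CITR

open MvPolynomial Filter

/-- `V(Q)` is a quotient of `V(P)` of the required kind: `γ` is a homomorphism of `G_m^n` onto
`G_m^m`, `Q` the ideal of the closure `B` of the image of `Y = V(P)`, `B` is defined over the
algebraic numbers, the algebraic points of `U(B)` are dense in `B`, `B` lies in no proper algebraic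
subgroup and `1 ≤ dim B ≤ m - 2`. -/
def IsImg (n : ℕ) (P : Ideal (MvPolynomial (Fin n) ℂ)) (m : ℕ) (γ : Fin m → Fin n → ℤ)
    (Q : Ideal (MvPolynomial (Fin m) ℂ)) : Prop :=
  LinearIndependent ℤ γ ∧ Q.IsPrime ∧ (∏ l : Fin m, (X l : MvPolynomial (Fin m) ℂ)) ∉ Q ∧
    (∀ f, f ∈ Q ↔ ∀ x, OnTorus n P x → eval (fun l => ∏ i, x i ^ γ l i) f = 0) ∧
    Q = Ideal.span {g | g ∈ Q ∧ ∀ s, IsAlgebraic ℚ (coeff s g)} ∧
    (∀ f, (∀ y, Unlikely m Q y → (∀ l, IsAlgebraic ℚ (y l)) → eval y f = 0) →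
      ∀ y, OnTorus m Q y → eval y f = 0) ∧
    ¬ InSubgroup m Q ∧
    1 ≤ ringKrullDim (MvPolynomial (Fin m) ℂ ⧸ Q) ∧
    ringKrullDim (MvPolynomial (Fin m) ℂ ⧸ Q) + 2 ≤ (m : WithBot ℕ∞)

namespace StabAux

/-- The filter of the sets which contain almost all points of `S`. -/
def fil (n : ℕ) (P : Ideal (MvPolynomial (Fin n) ℂ)) (hP : P.IsPrime) (S : Set (Fin n → ℂ)) :
    Filter (Fin n → ℂ) where
  sets := {s | ∃ G ∉ P, {x | x ∈ S ∧ eval x G ≠ 0} ⊆ s}
  univ_sets := ⟨1, fun h => hP.ne_top ((Ideal.eq_top_iff_one P).mpr h), Set.subset_univ _⟩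
  sets_of_superset := by
    rintro s t ⟨G, hG, h⟩ hst
    exact ⟨G, hG, h.trans hst⟩
  inter_sets := by
    rintro s t ⟨G, hG, h⟩ ⟨G', hG', h'⟩
    refine ⟨G * G', fun h0 => (hP.mem_or_mem h0).elim hG hG', fun x hx => ?_⟩
    obtain ⟨hx1, hx2⟩ := hx
    rw [map_mul, mul_ne_zero_iff] at hx2
    exact ⟨h ⟨hx1, hx2.1⟩, h' ⟨hx1, hx2.2⟩⟩

theorem exists_ultra_set (n : ℕ) (P : Ideal (MvPolynomial (Fin n) ℂ)) (hP : P.IsPrime)
    (hX : (∏ i : Fin n, (X i : MvPolynomial (Fin n) ℂ)) ∉ P) (S : Set (Fin n → ℂ))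
    (hS : ∀ f : MvPolynomial (Fin n) ℂ, (∀ x ∈ S, eval x f = 0) →
      ∀ x, OnTorus n P x → eval x f = 0) :
    ∃ φ : Ultrafilter (Fin n → ℂ), (∀ᶠ x in (φ : Filter (Fin n → ℂ)), x ∈ S) ∧
      ∀ G ∉ P, ∀ᶠ x in (φ : Filter (Fin n → ℂ)), eval x G ≠ 0 := by
  have hne : (fil n P hP S).NeBot := by
    rw [Filter.neBot_iff, Ne, ← Filter.empty_mem_iff_bot]
    rintro ⟨G, hG, h⟩
    apply hG
    refine UltraAux.mem_of_onTorus n P hP hX G (hS G fun x hx => ?_)
    by_contra h0
    exact h ⟨hx, h0⟩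
  refine ⟨Ultrafilter.of (fil n P hP S), ?_, fun G hG => ?_⟩
  · have h1 : S ∈ fil n P hP S :=
      ⟨1, fun h => hP.ne_top ((Ideal.eq_top_iff_one P).mpr h), fun x hx => hx.1⟩
    exact Ultrafilter.of_le _ h1
  · have h1 : {x | eval x G ≠ 0} ∈ fil n P hP S := ⟨G, hG, fun x hx => hx.2⟩
    exact Ultrafilter.of_le _ h1

/-- A polynomial in `t ^ e` with infinitely many zeros. -/
theorem coeff_zero_of_forall (N : ℕ) (c : ℕ → ℂ) (z : ℂ) (hz : z ≠ 0) (e : ℤ) (he : e ≠ 0)
    (h : ∀ t : ℂ, t ≠ 0 → ∑ j ∈ Finset.range N, c j * (t ^ e * z) ^ j = 0) :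
    ∀ j ∈ Finset.range N, c j = 0 := by
  classical
  let p : Polynomial ℂ := ∑ j ∈ Finset.range N, Polynomial.monomial j (c j)
  have hcoeff : ∀ j ∈ Finset.range N, p.coeff j = c j := by
    intro j hj
    simp only [p, Polynomial.finsetSum_coeff, Polynomial.coeff_monomial]
    rw [Finset.sum_ite_eq' (Finset.range N) j c, if_pos hj]
  have hroot : ∀ s : ℂ, s ≠ 0 → p.eval s = 0 := by
    intro s hs
    obtain ⟨t, ht0, ht⟩ : ∃ t : ℂ, t ≠ 0 ∧ t ^ e = s * z⁻¹ := by
      have hsz : s * z⁻¹ ≠ 0 := mul_ne_zero hs (inv_ne_zero hz)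
      obtain ⟨t, ht⟩ := IsAlgClosed.exists_pow_nat_eq (s * z⁻¹) (n := e.natAbs)
        (Int.natAbs_pos.mpr he)
      have ht0 : t ≠ 0 := by
        rintro rfl
        rw [zero_pow (Int.natAbs_pos.mpr he).ne'] at ht
        exact hsz ht.symm
      rcases Int.natAbs_eq e with h1 | h1
      · refine ⟨t, ht0, ?_⟩
        rw [h1, zpow_natCast]
        simpa using ht
      · refine ⟨t⁻¹, inv_ne_zero ht0, ?_⟩
        rw [h1, zpow_neg, inv_zpow, inv_inv, zpow_natCast]
        simpa using ht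
    have h1 := h t ht0
    rw [ht, mul_assoc, inv_mul_cancel₀ hz, mul_one] at h1
    simp only [p, Polynomial.eval_finsetSum, Polynomial.eval_monomial]
    exact h1
  have hp0 : p = 0 := by
    refine Polynomial.eq_zero_of_infinite_isRoot p ?_
    refine Set.Infinite.mono (s := {0}ᶜ) ?_ (Set.Finite.infinite_compl (Set.finite_singleton _))
    intro s hs
    exact hroot s hs
  intro j hj
  rw [← hcoeff j hj, hp0, Polynomial.coeff_zero]

/-- Rank and nullity over the integers. -/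
theorem rank_nullity {V W : Type} [AddCommGroup V] [Module.Finite ℤ V] [Module.Free ℤ V]
    [AddCommGroup W] (f : V →ₗ[ℤ] W) :
    Module.finrank ℤ (LinearMap.range f) + Module.finrank ℤ (LinearMap.ker f) =
      Module.finrank ℤ V := by
  rw [← Submodule.finrank_quotient_add_finrank (LinearMap.ker f),
    f.quotKerEquivRange.finrank_eq]

/-- The exponents of the image of a point. -/
theorem comp_mon {n m p : ℕ} (γ : Fin m → Fin n → ℤ) (C : Fin p → Fin m → ℤ) {x : Fin n → ℂ}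
    (hx : ∀ i, x i ≠ 0) (i : Fin p) :
    ∏ l, (∏ j, x j ^ γ l j) ^ C i l = ∏ j, x j ^ (FinalAux.T γ (C i)) j :=
  FinalAux.prod_T γ (C i) hx

end StabAux

section

variable {m : ℕ} {Q : Ideal (MvPolynomial (Fin m) ℂ)} {φ : Ultrafilter (Fin m → ℂ)}
  (hQ : Q.IsPrime) (hX : (∏ i : Fin m, (X i : MvPolynomial (Fin m) ℂ)) ∉ Q)
  (hon : ∀ᶠ x in (φ : Filter (Fin m → ℂ)), OnTorus m Q x)
  (hgen : ∀ G ∉ Q, ∀ᶠ x in (φ : Filter (Fin m → ℂ)), eval x G ≠ 0)

include hQ hX hon hgen

/-- A coordinate which moves along the stabiliser is transcendental over the invariant monomials. -/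
theorem not_mem_closure {p : ℕ} (C : Fin p → Fin m → ℤ) (v : Fin m → ℤ)
    (hv : ∀ i, ∑ l, C i l * v l = 0) (l₀ : Fin m) (hl₀ : v l₀ ≠ 0)
    (hst : ∀ y, OnTorus m Q y → ∀ t : ℂ, t ≠ 0 → OnTorus m Q (fun l => t ^ v l * y l)) :
    xg φ l₀ ∉ (CIT60.mat (US φ)).closure (Set.range (bg φ C)) := by
  classical
  rw [CIT60.mem_closure_iff]
  rintro ⟨p', hp0, hp⟩
  -- the coefficients
  have hq : ∀ j, ∃ q : MvPolynomial (Fin p) ℚ, aeval (bg φ C) q = (p'.coeff j : US φ) := by
    intro j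
    have h1 : ∀ z ∈ Algebra.adjoin ℚ (Set.range (bg φ C)),
        ∃ q : MvPolynomial (Fin p) ℚ, aeval (bg φ C) q = z := by
      intro z hz
      rw [Algebra.adjoin_range_eq_range_aeval] at hz
      exact hz
    exact h1 _ (p'.coeff j).2
  choose q hq using hq
  let N := p'.natDegree + 1
  let γ' : Fin (p + 1) → Fin m → ℤ := Fin.cons (Pi.single l₀ 1) C
  have hb0 : bg φ γ' 0 = xg φ l₀ := by
    show ∏ j, xg φ j ^ (Pi.single l₀ 1 : Fin m → ℤ) j = xg φ l₀
    rw [Finset.prod_eq_single l₀]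
    · rw [Pi.single_eq_same, zpow_one]
    · intro j _ hj
      rw [Pi.single_eq_of_ne hj, zpow_zero]
    · intro h; exact absurd (Finset.mem_univ _) h
  have hbs : ∀ i, bg φ γ' (Fin.succ i) = bg φ C i := fun i => rfl
  let F : MvPolynomial (Fin (p + 1)) ℂ := ∑ j ∈ Finset.range N,
    rename Fin.succ (map (algebraMap ℚ ℂ) (q j)) * X 0 ^ j
  have hF : F ∈ Qid φ γ' := by
    show aeval (bg φ γ') F = 0
    simp only [F, map_sum, map_mul, map_pow, aeval_X, aeval_rename, hb0]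
    have h1 : (bg φ γ') ∘ Fin.succ = bg φ C := funext hbs
    rw [h1]
    simp only [aeval_map_algebraMap, hq]
    have h2 := hp
    rw [Polynomial.aeval_eq_sum_range] at h2
    rw [← h2]
    refine Finset.sum_congr rfl fun j _ => ?_
    rw [Algebra.smul_def]
    rfl
  have hFy := (mem_Qid_iff hQ hX hon hgen γ' F).mp hF
  have hFy' : ∀ y, OnTorus m Q y → ∑ j ∈ Finset.range N,
      eval (fun i => ∏ l, y l ^ C i l) (map (algebraMap ℚ ℂ) (q j)) * y l₀ ^ j = 0 := by
    intro y hy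
    have h1 := hFy y hy
    simp only [F, map_sum, map_mul, map_pow, eval_X, eval_rename] at h1
    have h2 : ∏ i, y i ^ γ' 0 i = y l₀ := by
      show ∏ j, y j ^ (Pi.single l₀ 1 : Fin m → ℤ) j = y l₀
      rw [Finset.prod_eq_single l₀]
      · rw [Pi.single_eq_same, zpow_one]
      · intro j _ hj
        rw [Pi.single_eq_of_ne hj, zpow_zero]
      · intro h; exact absurd (Finset.mem_univ _) h
    rw [h2] at h1
    exact h1
  have hinv : ∀ y : Fin m → ℂ, ∀ t : ℂ, t ≠ 0 → ∀ i,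
      ∏ l, (t ^ v l * y l) ^ C i l = ∏ l, y l ^ C i l := by
    intro y t ht i
    simp_rw [mul_zpow]
    rw [Finset.prod_mul_distrib]
    have h1 : ∏ l, (t ^ v l) ^ C i l = 1 := by
      have h2 : ∀ T : Finset (Fin m), ∏ l ∈ T, (t ^ v l) ^ C i l = t ^ (∑ l ∈ T, C i l * v l) := by
        intro T
        induction T using Finset.induction_on with
        | empty => simp
        | insert a T ha ih =>
          rw [Finset.prod_insert ha, Finset.sum_insert ha, ih, zpow_add₀ ht, ← zpow_mul,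
            mul_comm (v a)]
      rw [h2, hv i, zpow_zero]
    rw [h1, one_mul]
  have hzero : ∀ j ∈ Finset.range N, ∀ y, OnTorus m Q y →
      eval (fun i => ∏ l, y l ^ C i l) (map (algebraMap ℚ ℂ) (q j)) = 0 := by
    intro j hj y hy
    refine StabAux.coeff_zero_of_forall N
      (fun j => eval (fun i => ∏ l, y l ^ C i l) (map (algebraMap ℚ ℂ) (q j))) (y l₀) (hy.1 l₀)
      (v l₀) hl₀ ?_ j hj
    intro t ht
    have h1 := hFy' _ (hst y hy t ht)
    simp only [hinv y t ht] at h1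
    exact h1
  apply hp0
  ext j
  rw [Polynomial.coeff_zero, ZeroMemClass.coe_zero]
  by_cases hj : j ∈ Finset.range N
  · rw [← hq j]
    have h1 : map (algebraMap ℚ ℂ) (q j) ∈ Qid φ C :=
      (mem_Qid_iff hQ hX hon hgen C _).mpr (hzero j hj)
    have h2 : aeval (bg φ C) (map (algebraMap ℚ ℂ) (q j)) = 0 := h1
    rwa [aeval_map_algebraMap] at h2
  · rw [Polynomial.coeff_eq_zero_of_natDegree_lt (by
      rw [Finset.mem_range] at hj; omega)]
    rfl

/-- The dimension drops by at least one when the stabiliser is divided out. -/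
theorem card_add_one_le (hk : ∀ l, xg φ l ∈ kst φ) {p : ℕ} (C : Fin p → Fin m → ℤ)
    (v : Fin m → ℤ) (hv : ∀ i, ∑ l, C i l * v l = 0) (l₀ : Fin m) (hl₀ : v l₀ ≠ 0)
    (hst : ∀ y, OnTorus m Q y → ∀ t : ℂ, t ≠ 0 → OnTorus m Q (fun l => t ^ v l * y l))
    (L : Finset (Fin p)) (hL : AlgebraicIndependent ℚ (fun i : L => bg φ C i)) :
    (((L.card + 1 : ℕ) : ℕ∞) : WithBot ℕ∞) ≤ ringKrullDim (MvPolynomial (Fin m) ℂ ⧸ Q) := by
  classical
  obtain ⟨L₀, h1, h2, -⟩ := CIT8.exists_maxIndep ℚ (xg φ)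
  have hdom : IsDomain (MvPolynomial (Fin m) ℂ ⧸ Q) := Ideal.Quotient.isDomain Q
  -- the dimension is at least the rank
  have hdim : ((L₀.card : ℕ) : WithBot ℕ∞) ≤ ringKrullDim (MvPolynomial (Fin m) ℂ ⧸ Q) := by
    let R := MvPolynomial (Fin m) ℂ ⧸ Q
    let j : R →ₐ[ℂ] US φ := Ideal.Quotient.liftₐ Q (aeval (xg φ))
      (fun a ha => (gen_iff hQ hX hon hgen a).mpr ha)
    have hj : Function.Injective j := by
      rw [injective_iff_map_eq_zero]
      intro r hr
      obtain ⟨f, rfl⟩ := Ideal.Quotient.mk_surjective r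
      rw [Ideal.Quotient.eq_zero_iff_mem]
      exact (gen_iff hQ hX hon hgen f).mp hr
    let z : Fin m → R := fun l => Ideal.Quotient.mk Q (X l)
    have hz : ∀ l, j (z l) = xg φ l := by
      intro l
      show aeval (xg φ) (X l) = _
      rw [aeval_X]
    have hx : AlgebraicIndependent ℂ (fun l : L₀ => z l) := by
      rw [← AlgHom.algebraicIndependent_iff j hj]
      have h3 := disj_indep φ (fun l : L₀ => xg φ l) (fun l => hk l) h1
      have h4 : (j ∘ fun l : L₀ => z l) = fun l : L₀ => xg φ l := by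
        funext l
        exact hz l
      rw [h4]
      exact h3
    have h5 := CIT85.card_le_ringKrullDim (k := ℂ) (R := R) (fun l : L₀ => z l) hx
    rwa [Fintype.card_coe] at h5
  refine le_trans ?_ hdim
  -- the rank
  have hspan : ∀ l, xg φ l ∈ (CIT60.mat (US φ)).closure (Set.range (fun l : L₀ => xg φ l)) := by
    intro l
    rw [CIT60.mem_closure_iff]
    exact h2 l
  have hbg : ∀ i, bg φ C i ∈ (CIT60.mat (US φ)).closure (Set.range (fun l : L₀ => xg φ l)) := by
    intro i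
    exact CIT60.closure_prod_mem _ _ fun l _ => CIT60.closure_zpow_mem (hspan l) _
  have hindep : (CIT60.mat (US φ)).Indep (Set.range (fun i : L => bg φ C i)) :=
    (algebraicIndependent_subtype_range hL.injective).mpr hL
  have hnot : xg φ l₀ ∉ (CIT60.mat (US φ)).closure (Set.range (fun i : L => bg φ C i)) := by
    intro h
    refine not_mem_closure hQ hX hon hgen C v hv l₀ hl₀ hst ?_
    refine (CIT60.mat (US φ)).closure_subset_closure ?_ h
    rintro _ ⟨i, rfl⟩
    exact ⟨i, rfl⟩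
  have hins := (hindep.notMem_closure_iff (Set.mem_univ _)).mp hnot
  have h3 : (insert (xg φ l₀) (Set.range (fun i : L => bg φ C i))).encard = ((L.card + 1 : ℕ) : ℕ∞) := by
    rw [Set.encard_insert_of_notMem hins.2, ← Set.image_univ,
      Function.Injective.encard_image hL.injective, Set.encard_univ]
    simp
  have h4 : (insert (xg φ l₀) (Set.range (fun i : L => bg φ C i))) ⊆
      (CIT60.mat (US φ)).closure (Set.range (fun l : L₀ => xg φ l)) := by
    rintro a (rfl | ⟨i, rfl⟩)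
    · exact hspan l₀
    · exact hbg i
  have h5 := hins.1.encard_le_eRk_of_subset h4
  rw [h3, Matroid.eRk_closure_eq] at h5
  have h6 : (CIT60.mat (US φ)).eRk (Set.range (fun l : L₀ => xg φ l)) ≤ ((L₀.card : ℕ) : ℕ∞) := by
    refine (Matroid.eRk_le_encard _ _).trans ?_
    rw [← Set.image_univ]
    refine (Set.encard_image_le _ _).trans ?_
    rw [Set.encard_univ]
    simp
  exact_mod_cast h5.trans h6

end


open FinalAux in
/-- Division by a one-parameter group of the stabiliser. -/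
theorem descent {n m : ℕ} {P : Ideal (MvPolynomial (Fin n) ℂ)} {γ : Fin m → Fin n → ℤ}
    {Q : Ideal (MvPolynomial (Fin m) ℂ)} (h : IsImg n P m γ Q) (v : Fin m → ℤ) (hv : v ≠ 0)
    (hst : ∀ y, OnTorus m Q y → ∀ t : ℂ, t ≠ 0 → OnTorus m Q (fun l => t ^ v l * y l)) :
    ∃ (m' : ℕ) (γ' : Fin m' → Fin n → ℤ) (Q' : Ideal (MvPolynomial (Fin m') ℂ)),
      m' < m ∧ IsImg n P m' γ' Q' := by
  classical
  obtain ⟨hγ, hQ, hX, hmem, halg, hdense, hne, hd1, hd2⟩ := h
  obtain ⟨l₀, hl₀⟩ : ∃ l, v l ≠ 0 := by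
    by_contra hcon
    push Not at hcon
    exact hv (funext hcon)
  obtain ⟨φ, hφ, hgen⟩ := StabAux.exists_ultra_set m Q hQ hX
    {y | Unlikely m Q y ∧ ∀ l, IsAlgebraic ℚ (y l)}
    (fun f hf => hdense f (fun y hy hya => hf y ⟨hy, hya⟩))
  have hon : ∀ᶠ y in (φ : Filter (Fin m → ℂ)), OnTorus m Q y := hφ.mono fun y hy => hy.1.1
  have hGam : ∀ a, a ∈ GamZ φ := by
    intro a
    rw [mem_GamZ]
    filter_upwards [hφ] with y hy _
    rw [← mem_algebraicClosure_iff]
    exact prod_mem fun j _ => zpow_mem (mem_algebraicClosure_iff.mpr (hy.2 j)) _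
  have hk : ∀ l, xg φ l ∈ kst φ := by
    intro l
    rw [xg, cl_mem_kst]
    exact hφ.mono fun y hy => hy.2 l
  -- the invariant characters
  let dv : (Fin m → ℤ) →ₗ[ℤ] ℤ := Fintype.linearCombination ℤ v
  have hdv : ∀ c, dv c = ∑ l, c l * v l := by
    intro c
    show Fintype.linearCombination ℤ v c = _
    rw [Fintype.linearCombination_apply]
    simp only [smul_eq_mul]
  let V : Submodule ℤ (Fin m → ℤ) := LinearMap.ker dv
  have hV : ∀ Λ : Submodule ℤ (Fin m → ℤ),
      Module.finrank ℤ Λ ≤ Module.finrank ℤ (Λ ⊓ V : Submodule ℤ (Fin m → ℤ)) + 1 := by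
    intro Λ
    have h1 := StabAux.rank_nullity (dv.domRestrict Λ)
    have h2 : Module.finrank ℤ (LinearMap.range (dv.domRestrict Λ)) ≤ 1 := by
      have := Submodule.finrank_le (LinearMap.range (dv.domRestrict Λ))
      rwa [Module.finrank_self] at this
    have h3 : Module.finrank ℤ (LinearMap.ker (dv.domRestrict Λ)) =
        Module.finrank ℤ (Λ ⊓ V : Submodule ℤ (Fin m → ℤ)) := by
      have h4 : (LinearMap.ker (dv.domRestrict Λ)).map Λ.subtype = Λ ⊓ V := by
        ext c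
        rw [Submodule.mem_map, Submodule.mem_inf]
        constructor
        · rintro ⟨⟨c', hc'⟩, h5, rfl⟩
          exact ⟨hc', h5⟩
        · rintro ⟨h5, h6⟩
          exact ⟨⟨c, h5⟩, h6, rfl⟩
      rw [← h4]
      exact (Submodule.equivMapOfInjective Λ.subtype Λ.injective_subtype _).finrank_eq
    omega
  obtain ⟨m', hm'⟩ : ∃ m', m' = Module.finrank ℤ V := ⟨_, rfl⟩
  have hmm : m' + 1 = m := by
    have h1 := hV ⊤
    rw [top_inf_eq, ← hm'] at h1
    have h2 : Module.finrank ℤ (⊤ : Submodule ℤ (Fin m → ℤ)) = m := by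
      rw [finrank_top, Module.finrank_fin_fun]
    have h3 := StabAux.rank_nullity dv
    rw [Module.finrank_fin_fun] at h3
    have h4 : 0 < Module.finrank ℤ (LinearMap.range dv) := by
      have h5 : Nontrivial (LinearMap.range dv) := by
        rw [Submodule.nontrivial_iff_ne_bot]
        intro h6
        rw [LinearMap.range_eq_bot] at h6
        have h7 := LinearMap.congr_fun h6 (Pi.single l₀ 1)
        rw [hdv, LinearMap.zero_apply, Finset.sum_eq_single l₀] at h7
        · rw [Pi.single_eq_same, one_mul] at h7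
          exact hl₀ h7
        · intro l _ hl
          rw [Pi.single_eq_of_ne hl, zero_mul]
        · intro h8; exact absurd (Finset.mem_univ _) h8
      exact Module.finrank_pos
    have h5 : Module.finrank ℤ (LinearMap.ker dv) = m' := hm'.symm
    omega
  obtain ⟨⟨B⟩⟩ : Nonempty (Nonempty (Module.Basis (Fin m') ℤ V)) := by
    rw [hm']
    exact ⟨⟨Module.finBasis ℤ V⟩⟩
  obtain ⟨C, hCdef⟩ : ∃ C : Fin m' → Fin m → ℤ, C = fun i => (B i : Fin m → ℤ) := ⟨_, rfl⟩
  have hC : LinearIndependent ℤ C := by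
    rw [hCdef]
    exact B.linearIndependent.map' V.subtype (Submodule.ker_subtype _)
  have hCspan : Submodule.span ℤ (Set.range C) = V := by
    have h1 : Set.range C = V.subtype '' Set.range B := by
      rw [← Set.range_comp, hCdef]; rfl
    rw [h1, Submodule.span_image, B.span_eq, Submodule.map_top, Submodule.range_subtype]
  have hCv : ∀ i, ∑ l, C i l * v l = 0 := by
    intro i
    rw [← hdv, hCdef]
    exact (B i).2
  -- the ideal
  have hGC : ∀ i, C i ∈ GamZ φ := fun i => hGam _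
  obtain ⟨hQ', hX'⟩ := Qid_prime hQ hX hon hgen C
  have halg' := Qid_alg hQ hX hon hgen C hGC
  obtain ⟨L, hL, hdim⟩ := Qid_dim hQ hX hon hgen C hGC
  have hcard := card_add_one_le hQ hX hon hgen hk C v hCv l₀ hl₀ hst L hL
  obtain ⟨d, hd⟩ : ∃ d : ℕ, ringKrullDim (MvPolynomial (Fin m) ℂ ⧸ Q) = d := by
    have hdom : IsDomain (MvPolynomial (Fin m) ℂ ⧸ Q) := Ideal.Quotient.isDomain Q
    refine MainAux.exists_dim m 1 ?_
    refine le_trans (le_of_eq ?_) hd2
    rw [add_assoc]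
    congr 1
  rw [hd] at hcard hd1 hd2
  have hcard' : L.card + 1 ≤ d := by exact_mod_cast hcard
  have hd2' : d + 2 ≤ m := by exact_mod_cast hd2
  have hne' : ¬ InSubgroup m' (Qid φ C) := by
    rintro ⟨a, ha0, ha⟩
    apply hne
    refine ⟨T C a, fun h => ha0 (T_inj hC (h.trans (map_zero _).symm)), fun y hy => ?_⟩
    rw [← prod_T C a hy.1]
    exact ha _ (onTorus_image hQ hX hon hgen C hy)
  have hunl : ∀ᶠ y in (φ : Filter (Fin m → ℂ)), ∃ Λ : Submodule ℤ (Fin m' → ℤ),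
      (∀ a ∈ Λ, ∏ i, (∏ l, y l ^ C i l) ^ a i = 1) ∧ L.card + 1 ≤ Module.finrank ℤ Λ := by
    filter_upwards [hφ] with y hy
    obtain ⟨⟨hyQ, Λ, hΛ1, hΛ2⟩, -⟩ := hy
    refine ⟨(Λ ⊓ V).comap (T C), fun a ha => ?_, ?_⟩
    · rw [prod_T C a hyQ.1]
      exact hΛ2 _ (Submodule.mem_inf.mp (Submodule.mem_comap.mp ha)).1
    · rw [finrank_comap hC (by rw [hCspan]; exact inf_le_right)]
      have h1 := hV Λ
      rw [hd] at hΛ1
      have h2 : d + (m - Module.finrank ℤ Λ) + 1 ≤ m := by exact_mod_cast hΛ1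
      omega
  have hL0 : L.card ≠ 0 := by
    intro hL0
    apply hne'
    have hdim0 : ringKrullDim (MvPolynomial (Fin m') ℂ ⧸ Qid φ C) = 0 := by
      rw [hdim, hL0]; rfl
    have hdom : IsDomain (MvPolynomial (Fin m') ℂ ⧸ Qid φ C) := Ideal.Quotient.isDomain _
    have hzero : Ring.KrullDimLE 0 (MvPolynomial (Fin m') ℂ ⧸ Qid φ C) :=
      ringKrullDimZero_iff_ringKrullDim_eq_zero.mpr hdim0
    have hmax : (Qid φ C).IsMaximal :=
      Ideal.Quotient.maximal_of_isField _ Ring.KrullDimLE.isField_of_isDomain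
    obtain ⟨β, hβ⟩ := isMaximal_iff_eq_vanishingIdeal_singleton.mp hmax
    have hpt : ∀ z, OnTorus m' (Qid φ C) z → ∀ l, z l = β l := by
      intro z hz l
      have h1 : (X l - MvPolynomial.C (β l) : MvPolynomial (Fin m') ℂ) ∈ Qid φ C := by
        rw [hβ, mem_vanishingIdeal_singleton_iff]
        simp
      have h2 := hz.2 _ h1
      rw [map_sub, eval_X, eval_C, sub_eq_zero] at h2
      exact h2
    obtain ⟨y0, hy0, Λ, hΛ1, hΛ2⟩ := (hon.and hunl).exists
    have hΛ0 : Λ ≠ ⊥ := by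
      rintro rfl
      rw [finrank_bot] at hΛ2
      omega
    obtain ⟨a, haΛ, ha0⟩ := Submodule.exists_mem_ne_zero_of_ne_bot hΛ0
    refine ⟨a, ha0, fun z hz => ?_⟩
    rw [← hΛ1 a haΛ]
    refine Finset.prod_congr rfl fun l _ => ?_
    rw [hpt z hz l, hpt _ (onTorus_image hQ hX hon hgen C hy0) l]
  refine ⟨m', fun i => T γ (C i), Qid φ C, by omega, ?_, hQ', hX', ?_, halg', ?_, hne', ?_, ?_⟩
  · exact hC.map' (T γ) (LinearMap.ker_eq_bot.mpr (T_inj hγ))
  · intro f
    rw [mem_Qid_iff hQ hX hon hgen C]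
    constructor
    · intro hf x hx
      have h1 := hf (fun l => ∏ i, x i ^ γ l i) ⟨fun l => Finset.prod_ne_zero_iff.mpr fun i _ =>
        zpow_ne_zero _ (hx.1 i), fun g hg => (hmem g).mp hg x hx⟩
      have h2 : (fun i => ∏ l, (∏ j, x j ^ γ l j) ^ C i l) =
          fun i => ∏ j, x j ^ (T γ (C i)) j := by
        funext i
        exact prod_T γ (C i) hx.1
      rw [h2] at h1
      exact h1
    · intro hf y hy
      obtain ⟨N, g, hg⟩ := exists_clear C f
      have h1 : g ∈ Q := by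
        rw [hmem]
        intro x hx
        rw [hg _ (fun l => Finset.prod_ne_zero_iff.mpr fun i _ => zpow_ne_zero _ (hx.1 i))]
        have h2 : (fun i => ∏ l, (∏ j, x j ^ γ l j) ^ C i l) =
            fun i => ∏ j, x j ^ (T γ (C i)) j := by
          funext i
          exact prod_T γ (C i) hx.1
        rw [h2, hf x hx, mul_zero]
      have h2 := hy.2 g h1
      rw [hg y hy.1] at h2
      exact (mul_eq_zero.mp h2).resolve_left
        (pow_ne_zero _ (Finset.prod_ne_zero_iff.mpr fun i _ => hy.1 i))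
  · intro f hf z hz
    refine hz.2 f (mem_Qid_of_ev hQ hX hon hgen C f ?_)
    filter_upwards [hφ, hunl] with y hy hΛ
    obtain ⟨Λ, hΛ1, hΛ2⟩ := hΛ
    refine hf _ ⟨onTorus_image hQ hX hon hgen C hy.1.1, Λ, ?_, hΛ1⟩ fun i => ?_
    · rw [hdim]
      have h4 : Module.finrank ℤ Λ ≤ m' := by
        have := Submodule.finrank_le Λ
        rwa [Module.finrank_fin_fun] at this
      have h5 : L.card + (m' - Module.finrank ℤ Λ) + 1 ≤ m' := by omega
      exact_mod_cast h5
    · rw [← mem_algebraicClosure_iff]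
      exact prod_mem fun j _ => zpow_mem (mem_algebraicClosure_iff.mpr (hy.2 j)) _
  · rw [hdim]
    have h5 : 1 ≤ L.card := Nat.one_le_iff_ne_zero.mpr hL0
    exact_mod_cast h5
  · rw [hdim]
    have h5 : L.card + 2 ≤ m' := by omega
    exact_mod_cast h5

/-- The main theorem with finite stabiliser: `B` is stable under no one-parameter group. -/
theorem result_stab (n : ℕ) (P : Ideal (MvPolynomial (Fin n) ℂ)) (hP : P.IsPrime)
    (hX : (∏ i : Fin n, (X i : MvPolynomial (Fin n) ℂ)) ∉ P)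
    (hU : ∀ f : MvPolynomial (Fin n) ℂ, (∀ x, Unlikely n P x → eval x f = 0) →
      ∀ x, OnTorus n P x → eval x f = 0)
    (hne : ¬ InSubgroup n P) :
    ∃ (m : ℕ) (γ : Fin m → Fin n → ℤ) (Q : Ideal (MvPolynomial (Fin m) ℂ)),
      IsImg n P m γ Q ∧ ∀ v : Fin m → ℤ, v ≠ 0 → ∃ y, OnTorus m Q y ∧ ∃ t : ℂ, t ≠ 0 ∧
        ¬ OnTorus m Q (fun l => t ^ v l * y l) := by
  classical
  have hex : ∃ m : ℕ, ∃ (γ : Fin m → Fin n → ℤ) (Q : Ideal (MvPolynomial (Fin m) ℂ)),
      IsImg n P m γ Q := by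
    obtain ⟨m, γ, Q, h⟩ := result n P hP hX hU hne
    exact ⟨m, γ, Q, h⟩
  obtain ⟨γ, Q, h⟩ := Nat.find_spec hex
  refine ⟨_, γ, Q, h, fun v hv => ?_⟩
  by_contra hcon
  push Not at hcon
  obtain ⟨m', γ', Q', hlt, h'⟩ := descent h v hv hcon
  exact Nat.find_min hex hlt ⟨γ', Q', h'⟩

end Pool.Agent.CITR
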