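import Pool.Agent.Lib.MP_c95b3b_ag_R.Span
import Pool.Agent.Lib.MP_c95b3b_ag_R.Stab

set_option autoImplicit false
set_option linter.unusedVariables false

/-!
Translates of varieties over the algebraic numbers; operators on the coefficients of polynomials.
-/

namespace Pool.Agent.CITR

open MvPolynomial

/-- The field of the algebraic numbers. -/
noncomputable abbrev QQ : Type := algebraicClosure ℚ ℂ

section

variable {m : ℕ}

/-- An additive map applied to the coefficients. -/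
noncomputable def dco (D : (Fin m →₀ ℕ) → ℂ →+ ℂ) (f : MvPolynomial (Fin m) ℂ) :
    MvPolynomial (Fin m) ℂ := ∑ s ∈ f.support, monomial s (D s (coeff s f))

theorem coeff_dco (D : (Fin m →₀ ℕ) → ℂ →+ ℂ) (f : MvPolynomial (Fin m) ℂ) (s : Fin m →₀ ℕ) :
    coeff s (dco D f) = D s (coeff s f) := by
  classical
  simp only [dco, coeff_sum, coeff_monomial]
  rw [Finset.sum_ite_eq']
  split_ifs with h
  · rfl
  · rw [notMem_support_iff.mp h, map_zero]

theorem dco_leib (D : (Fin m →₀ ℕ) → ℂ →+ ℂ)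
    (hD : ∀ s t y z, D (s + t) (y * z) = D s y * z + y * D t z) (f g : MvPolynomial (Fin m) ℂ) :
    dco D (f * g) = dco D f * g + f * dco D g := by
  classical
  ext s
  rw [coeff_dco, coeff_add, coeff_mul, coeff_mul, coeff_mul, map_sum, ← Finset.sum_add_distrib]
  refine Finset.sum_congr rfl fun p hp => ?_
  rw [Finset.HasAntidiagonal.mem_antidiagonal] at hp
  rw [← hp, hD, coeff_dco, coeff_dco]

theorem dco_add (D : (Fin m →₀ ℕ) → ℂ →+ ℂ) (f g : MvPolynomial (Fin m) ℂ) :
    dco D (f + g) = dco D f + dco D g := by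
  ext s
  rw [coeff_dco, coeff_add, coeff_add, coeff_dco, coeff_dco, map_add]

theorem dco_zero (D : (Fin m →₀ ℕ) → ℂ →+ ℂ) : dco D (0 : MvPolynomial (Fin m) ℂ) = 0 := by
  ext s
  rw [coeff_dco, coeff_zero, map_zero]

theorem dco_monomial (D : (Fin m →₀ ℕ) → ℂ →+ ℂ) (s : Fin m →₀ ℕ) (c : ℂ) :
    dco D (monomial s c) = monomial s (D s c) := by
  classical
  ext t
  rw [coeff_dco, coeff_monomial, coeff_monomial]
  split_ifs with h
  · rw [h]
  · rw [map_zero]

theorem dco_sum (D : (Fin m →₀ ℕ) → ℂ →+ ℂ) {κ : Type} (T : Finset κ)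
    (f : κ → MvPolynomial (Fin m) ℂ) : dco D (∑ i ∈ T, f i) = ∑ i ∈ T, dco D (f i) := by
  classical
  induction T using Finset.induction_on with
  | empty => simp [dco_zero]
  | insert a T ha ih => rw [Finset.sum_insert ha, Finset.sum_insert ha, dco_add, ih]

/-- If the operator has the Leibniz rule and maps the generators into the ideal, then it
preserves the ideal. -/
theorem dco_mem (D : (Fin m →₀ ℕ) → ℂ →+ ℂ)
    (hD : ∀ s t y z, D (s + t) (y * z) = D s y * z + y * D t z) (S : Set (MvPolynomial (Fin m) ℂ))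
    (hS : ∀ f ∈ S, dco D f ∈ Ideal.span S) (f : MvPolynomial (Fin m) ℂ) (hf : f ∈ Ideal.span S) :
    dco D f ∈ Ideal.span S := by
  induction hf using Submodule.span_induction with
  | mem x h => exact hS x h
  | zero => rw [dco_zero]; exact Submodule.zero_mem _
  | add x y _ _ h1 h2 => rw [dco_add]; exact Submodule.add_mem _ h1 h2
  | smul a x hx h =>
    rw [smul_eq_mul, dco_leib D hD]
    exact Submodule.add_mem _ (Ideal.mul_mem_left _ _ hx) (Ideal.mul_mem_left _ _ h)

/-- The Euler operators. -/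
noncomputable def eul (l : Fin m) (s : Fin m →₀ ℕ) : ℂ →+ ℂ := AddMonoidHom.mulLeft ((s l : ℕ) : ℂ)

theorem eul_apply (l : Fin m) (s : Fin m →₀ ℕ) (z : ℂ) : eul l s z = (s l : ℂ) * z := rfl

theorem eul_leib (l : Fin m) (s t : Fin m →₀ ℕ) (y z : ℂ) :
    eul l (s + t) (y * z) = eul l s y * z + y * eul l t z := by
  rw [eul_apply, eul_apply, eul_apply, Finsupp.add_apply, Nat.cast_add]
  ring

/-- An ideal which is stable under the Euler operators and contains no monomial is zero. -/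
theorem eq_bot_of_eul (Q : Ideal (MvPolynomial (Fin m) ℂ)) (hQ : Q.IsPrime)
    (hX : (∏ l : Fin m, (X l : MvPolynomial (Fin m) ℂ)) ∉ Q)
    (h : ∀ f ∈ Q, ∀ l, dco (eul l) f ∈ Q) : Q = ⊥ := by
  classical
  by_contra hne
  obtain ⟨f0, hf0, hf0'⟩ := Submodule.exists_mem_ne_zero_of_ne_bot hne
  -- an element with minimal support
  have hex : ∃ N : ℕ, ∃ f ∈ Q, f ≠ 0 ∧ f.support.card = N := ⟨_, f0, hf0, hf0', rfl⟩
  obtain ⟨f, hf, hfne, hN⟩ := Nat.find_spec hex
  have hmin : ∀ f' ∈ Q, f' ≠ 0 → f.support.card ≤ f'.support.card := by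
    intro f' hf' hne'
    rw [hN]
    exact Nat.find_min' hex ⟨f', hf', hne', rfl⟩
  obtain ⟨s, hs⟩ : f.support.Nonempty := by
    rw [Finset.nonempty_iff_ne_empty]
    intro h0
    exact hfne (support_eq_empty.mp h0)
  have huniq : ∀ t ∈ f.support, t = s := by
    intro t ht
    by_contra hts
    obtain ⟨l, hl⟩ : ∃ l, t l ≠ s l := by
      by_contra hcon
      push Not at hcon
      exact hts (Finsupp.ext hcon)
    have h1 : dco (eul l) f - C ((s l : ℕ) : ℂ) * f ∈ Q :=
      Submodule.sub_mem _ (h f hf l) (Ideal.mul_mem_left _ _ hf)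
    have hco : ∀ u, coeff u (dco (eul l) f - C ((s l : ℕ) : ℂ) * f) =
        ((u l : ℂ) - (s l : ℂ)) * coeff u f := by
      intro u
      rw [coeff_sub, coeff_dco, coeff_C_mul, eul_apply]
      ring
    have h2 : dco (eul l) f - C ((s l : ℕ) : ℂ) * f ≠ 0 := by
      intro h0
      have h3 := hco t
      rw [h0, coeff_zero] at h3
      have h4 : ((t l : ℂ) - (s l : ℂ)) ≠ 0 := by
        rw [sub_ne_zero]
        exact_mod_cast hl
      exact (mul_ne_zero h4 (mem_support_iff.mp ht)) h3.symm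
    have h3 := hmin _ h1 h2
    have h4 : (dco (eul l) f - C ((s l : ℕ) : ℂ) * f).support ⊆ f.support.erase s := by
      intro u hu
      rw [mem_support_iff, hco] at hu
      rw [Finset.mem_erase, mem_support_iff]
      refine ⟨?_, right_ne_zero_of_mul hu⟩
      rintro rfl
      exact (left_ne_zero_of_mul hu) (sub_self _)
    have h5 := Finset.card_le_card h4
    rw [Finset.card_erase_of_mem hs] at h5
    have h6 : 0 < f.support.card := Finset.card_pos.mpr ⟨s, hs⟩
    omega
  have hfm : f = monomial s (coeff s f) := by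
    ext t
    rw [coeff_monomial]
    split_ifs with hst
    · rw [hst]
    · by_contra hne'
      exact hst (huniq t (mem_support_iff.mpr hne')).symm
  rw [hfm, monomial_eq, Finsupp.prod_fintype _ _ (fun i => pow_zero _)] at hf
  rcases hQ.mem_or_mem hf with h1 | h1
  · apply hQ.ne_top
    rw [Ideal.eq_top_iff_one]
    have h2 : (1 : MvPolynomial (Fin m) ℂ) = C ((coeff s f)⁻¹) * C (coeff s f) := by
      rw [← C_mul, inv_mul_cancel₀ (mem_support_iff.mp hs), C_1]
    rw [h2]
    exact Ideal.mul_mem_left _ _ h1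
  · obtain ⟨l, -, hl⟩ := (Ideal.IsPrime.prod_mem_iff (hp := hQ)).mp h1
    have h2 := hQ.mem_of_pow_mem _ hl
    exact hX (Ideal.mem_of_dvd _ (Finset.dvd_prod_of_mem _ (Finset.mem_univ l)) h2)

end

theorem vanish_mem {n : ℕ} (P : Ideal (MvPolynomial (Fin n) ℂ)) (hP : P.IsPrime)
    (hX : (∏ i : Fin n, (X i : MvPolynomial (Fin n) ℂ)) ∉ P) (F : MvPolynomial (Fin n) ℂ)
    (hF : ∀ x, OnTorus n P x → eval x F = 0) : F ∈ P := by
  have hFP : F * ∏ i : Fin n, (X i : MvPolynomial (Fin n) ℂ) ∈ P := by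
    have h1 : F * ∏ i : Fin n, (X i : MvPolynomial (Fin n) ℂ) ∈
        vanishingIdeal ℂ (zeroLocus ℂ P) := by
      rw [mem_vanishingIdeal_iff]
      intro x hx
      rw [mem_zeroLocus_iff] at hx
      simp only [aeval_eq_eval] at hx ⊢
      by_cases h0 : ∀ i, x i ≠ 0
      · change eval x _ = 0
        rw [map_mul, hF x ⟨h0, fun g hg => hx g hg⟩, zero_mul]
      · push Not at h0
        obtain ⟨i, hi⟩ := h0
        change eval x _ = 0
        rw [map_mul, map_prod, Finset.prod_eq_zero (Finset.mem_univ i) (by rw [eval_X, hi]),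
          mul_zero]
    rw [vanishingIdeal_zeroLocus_eq_radical, hP.radical] at h1
    exact h1
  exact (hP.mem_or_mem hFP).resolve_right hX

/-- A derivation over the algebraic numbers, applied to the coefficients. -/
noncomputable def dder (D : Derivation QQ ℂ ℂ) (m : ℕ) (s : Fin m →₀ ℕ) : ℂ →+ ℂ :=
  D.toLinearMap.toAddMonoidHom

theorem dder_apply (D : Derivation QQ ℂ ℂ) (m : ℕ) (s : Fin m →₀ ℕ) (z : ℂ) :
    dder D m s z = D z := rfl

theorem der_alg (D : Derivation QQ ℂ ℂ) {z : ℂ} (hz : IsAlgebraic ℚ z) : D z = 0 := by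
  have h1 := D.map_algebraMap (⟨z, mem_algebraicClosure_iff.mpr hz⟩ : QQ)
  exact h1

theorem dder_mem (D : Derivation QQ ℂ ℂ) {n : ℕ} (P : Ideal (MvPolynomial (Fin n) ℂ))
    (hP : P = Ideal.span {f | f ∈ P ∧ ∀ s, IsAlgebraic ℚ (coeff s f)})
    (f : MvPolynomial (Fin n) ℂ) (hf : f ∈ P) : dco (dder D n) f ∈ P := by
  rw [hP] at hf ⊢
  refine dco_mem _ ?_ _ ?_ f hf
  · intro s t y z
    rw [dder_apply, dder_apply, dder_apply, D.leibniz, smul_eq_mul, smul_eq_mul]
    ring
  · intro g hg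
    have h1 : dco (dder D n) g = 0 := by
      ext s
      rw [coeff_dco, dder_apply, der_alg D (hg.2 s), coeff_zero]
    rw [h1]
    exact Submodule.zero_mem _

/-- The derivative of a monomial. -/
theorem der_prod_pow (D : Derivation QQ ℂ ℂ) {m : ℕ} (h : Fin m → ℂ) (h0 : ∀ l, h l ≠ 0)
    (s : Fin m →₀ ℕ) :
    D (∏ l, h l ^ s l) = (∏ l, h l ^ s l) * ∑ l, (s l : ℂ) * (D (h l) / h l) := by
  classical
  have key : ∀ T : Finset (Fin m), D (∏ l ∈ T, h l ^ s l) =
      (∏ l ∈ T, h l ^ s l) * ∑ l ∈ T, (s l : ℂ) * (D (h l) / h l) := by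
    intro T
    induction T using Finset.induction_on with
    | empty => simp
    | insert a T ha ih =>
      rw [Finset.prod_insert ha, D.leibniz, ih, Finset.sum_insert ha, D.leibniz_pow,
        smul_eq_mul, smul_eq_mul]
      rcases Nat.eq_zero_or_pos (s a) with h1 | h1
      · rw [h1]; simp
      · have h2 : h a ^ s a = h a ^ (s a - 1) * h a := by
          rw [← pow_succ, Nat.sub_add_cancel h1]
        rw [h2, nsmul_eq_mul, smul_eq_mul]
        field_simp [h0 a]
        ring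
  exact key Finset.univ

theorem isAlgebraic_eval {m : ℕ} (f : MvPolynomial (Fin m) ℂ) (hf : ∀ s, IsAlgebraic ℚ (coeff s f))
    (y : Fin m → ℂ) (hy : ∀ l, IsAlgebraic ℚ (y l)) : IsAlgebraic ℚ (eval y f) := by
  rw [eval_eq']
  have : ∀ z, IsAlgebraic ℚ z ↔ z ∈ algebraicClosure ℚ ℂ := fun z => mem_algebraicClosure_iff.symm
  rw [this]
  refine sum_mem fun s _ => mul_mem ((this _).mp (hf s)) (prod_mem fun l _ => pow_mem
    ((this _).mp (hy l)) _)

theorem isAlgebraic_dco {m : ℕ} (f : MvPolynomial (Fin m) ℂ) (hf : ∀ s, IsAlgebraic ℚ (coeff s f))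
    (l : Fin m) (s : Fin m →₀ ℕ) : IsAlgebraic ℚ (coeff s (dco (eul l) f)) := by
  rw [coeff_dco, eul_apply]
  exact (isAlgebraic_natCast _).mul (hf s)

section

variable {n : ℕ} (P₀ : Ideal (MvPolynomial (Fin n) ℂ)) (hP₀ : P₀.IsPrime)
    (hX₀ : (∏ i : Fin n, (X i : MvPolynomial (Fin n) ℂ)) ∉ P₀)
    (hQ₀ : P₀ = Ideal.span {f | f ∈ P₀ ∧ ∀ s, IsAlgebraic ℚ (coeff s f)}) {m : ℕ}
    (γ : Fin m → Fin n → ℤ) (h : Fin m → ℂ) (h0 : ∀ l, h l ≠ 0)

include hP₀ hX₀ hQ₀ h0

/-- Derive the equation of a translate. -/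
theorem der_translate (f : MvPolynomial (Fin m) ℂ) (hfa : ∀ s, IsAlgebraic ℚ (coeff s f))
    (hf : ∀ x, OnTorus n P₀ x → eval (fun l => h l * ∏ i, x i ^ γ l i) f = 0)
    (D : Derivation QQ ℂ ℂ) (x : Fin n → ℂ) (hx : OnTorus n P₀ x) :
    ∑ l, (D (h l) / h l) * eval (fun l => h l * ∏ i, x i ^ γ l i) (dco (eul l) f) = 0 := by
  classical
  -- exponents
  let N : ℕ := ∑ s ∈ f.support, ∑ i, (∑ l, (s l : ℤ) * γ l i).natAbs
  have hN : ∀ s ∈ f.support, ∀ i, 0 ≤ ∑ l, (s l : ℤ) * γ l i + N := by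
    intro s hs i
    have h1 : (∑ l, (s l : ℤ) * γ l i).natAbs ≤ N := by
      refine le_trans ?_ (Finset.single_le_sum (f := fun s : Fin m →₀ ℕ =>
        ∑ i, (∑ l, (s l : ℤ) * γ l i).natAbs) (fun _ _ => Nat.zero_le _) hs)
      exact Finset.single_le_sum (f := fun i => (∑ l, (s l : ℤ) * γ l i).natAbs)
        (fun _ _ => Nat.zero_le _) (Finset.mem_univ i)
    omega
  let e : (Fin m →₀ ℕ) → (Fin n →₀ ℕ) := fun s =>
    Finsupp.equivFunOnFinite.symm fun i => (∑ l, (s l : ℤ) * γ l i + N).toNat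
  have hmon : ∀ z : Fin n → ℂ, (∀ i, z i ≠ 0) → ∀ s ∈ f.support,
      ∏ i, z i ^ (e s i) = (∏ i, z i ^ N) * ∏ l, (∏ i, z i ^ γ l i) ^ s l := by
    intro z hz s hs
    have h1 : ∀ l, (∏ i, z i ^ γ l i) ^ s l = ∏ i, z i ^ ((s l : ℤ) * γ l i) := by
      intro l
      rw [← Finset.prod_pow]
      refine Finset.prod_congr rfl fun i _ => ?_
      rw [mul_comm, zpow_mul, zpow_natCast]
    simp_rw [h1]
    rw [Finset.prod_comm, ← Finset.prod_mul_distrib]
    refine Finset.prod_congr rfl fun i _ => ?_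
    have h2 : ∏ l, z i ^ ((s l : ℤ) * γ l i) = z i ^ (∑ l, (s l : ℤ) * γ l i) := by
      have h3 : ∀ T : Finset (Fin m), ∏ l ∈ T, z i ^ ((s l : ℤ) * γ l i) =
          z i ^ (∑ l ∈ T, (s l : ℤ) * γ l i) := by
        intro T
        induction T using Finset.induction_on with
        | empty => simp
        | insert a T ha ih => rw [Finset.prod_insert ha, Finset.sum_insert ha, ih, zpow_add₀ (hz i)]
      exact h3 _
    rw [h2, ← zpow_natCast, ← zpow_natCast, ← zpow_add₀ (hz i)]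
    congr 1
    show (((∑ l, (s l : ℤ) * γ l i + N).toNat : ℕ) : ℤ) = _
    rw [Int.toNat_of_nonneg (hN s hs i)]
    ring
  -- the polynomial
  let F : MvPolynomial (Fin n) ℂ := ∑ s ∈ f.support, monomial (e s) (coeff s f * ∏ l, h l ^ s l)
  have hFP : F ∈ P₀ := by
    refine vanish_mem P₀ hP₀ hX₀ F fun z hz => ?_
    have h1 : eval z F = (∏ i, z i ^ N) * eval (fun l => h l * ∏ i, z i ^ γ l i) f := by
      rw [eval_eq' (fun l => h l * ∏ i, z i ^ γ l i) f, Finset.mul_sum]
      simp only [F]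
      rw [map_sum]
      refine Finset.sum_congr rfl fun s hs => ?_
      rw [eval_monomial, Finsupp.prod_fintype _ _ (fun i => pow_zero _), hmon z hz.1 s hs]
      simp_rw [mul_pow]
      rw [Finset.prod_mul_distrib]
      ring
    rw [h1, hf z hz, mul_zero]
  have hDF := hx.2 _ (dder_mem D P₀ hQ₀ F hFP)
  have hDF' : eval x (dco (dder D n) F) = (∏ i, x i ^ N) *
      ∑ l, (D (h l) / h l) * eval (fun l => h l * ∏ i, x i ^ γ l i) (dco (eul l) f) := by
    simp only [F]
    rw [dco_sum, map_sum]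
    have h1 : ∀ l, eval (fun l => h l * ∏ i, x i ^ γ l i) (dco (eul l) f) =
        ∑ s ∈ f.support, (s l : ℂ) * coeff s f * ∏ l', (h l' * ∏ i, x i ^ γ l' i) ^ s l' := by
      intro l
      rw [dco, map_sum]
      refine Finset.sum_congr rfl fun s _ => ?_
      rw [eval_monomial, Finsupp.prod_fintype _ _ (fun i => pow_zero _), eul_apply]
    simp_rw [h1, Finset.mul_sum]
    rw [Finset.sum_comm]
    refine Finset.sum_congr rfl fun s hs => ?_
    rw [dco_monomial, dder_apply, D.leibniz, der_alg D (hfa s), smul_zero, add_zero, smul_eq_mul,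
      der_prod_pow D h h0, eval_monomial, Finsupp.prod_fintype _ _ (fun i => pow_zero _),
      hmon x hx.1 s hs, Finset.mul_sum, Finset.mul_sum, Finset.sum_mul]
    refine Finset.sum_congr rfl fun l _ => ?_
    simp_rw [mul_pow]
    rw [Finset.prod_mul_distrib]
    ring
  rw [hDF'] at hDF
  exact (mul_eq_zero.mp hDF).resolve_left (Finset.prod_ne_zero_iff.mpr fun i _ =>
    pow_ne_zero _ (hx.1 i))

end

/-- The ideal of a translate. -/
theorem translate_facts {n : ℕ} (P₀ : Ideal (MvPolynomial (Fin n) ℂ)) (hP₀ : P₀.IsPrime)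
    (hX₀ : (∏ i : Fin n, (X i : MvPolynomial (Fin n) ℂ)) ∉ P₀) (g : Fin n → ℂ)
    (hg0 : ∀ i, g i ≠ 0) (P : Ideal (MvPolynomial (Fin n) ℂ))
    (hP : ∀ f, f ∈ P ↔ ∀ x, OnTorus n P₀ x → eval (fun i => g i * x i) f = 0) :
    P.IsPrime ∧ (∏ i : Fin n, (X i : MvPolynomial (Fin n) ℂ)) ∉ P ∧
      (∀ x, OnTorus n P₀ x → OnTorus n P (fun i => g i * x i)) ∧
      (∀ x, OnTorus n P x → OnTorus n P₀ (fun i => (g i)⁻¹ * x i)) := by
  classical
  let τ : MvPolynomial (Fin n) ℂ →ₐ[ℂ] MvPolynomial (Fin n) ℂ := aeval fun i => C (g i) * X i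
  have hτ : ∀ (x : Fin n → ℂ) (f : MvPolynomial (Fin n) ℂ),
      eval x (τ f) = eval (fun i => g i * x i) f := by
    intro x f
    have h1 : (aeval x : MvPolynomial (Fin n) ℂ →ₐ[ℂ] ℂ).comp τ =
        (aeval (fun i => g i * x i) : MvPolynomial (Fin n) ℂ →ₐ[ℂ] ℂ) := by
      apply MvPolynomial.algHom_ext
      intro i
      simp [τ]
    have h2 := congrArg (fun F : MvPolynomial (Fin n) ℂ →ₐ[ℂ] ℂ => F f) h1
    simp only [AlgHom.comp_apply, aeval_eq_eval] at h2
    exact h2
  have hPτ : ∀ f, f ∈ P ↔ τ f ∈ P₀ := by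
    intro f
    rw [hP]
    constructor
    · intro h1
      refine vanish_mem P₀ hP₀ hX₀ _ fun x hx => ?_
      rw [hτ]
      exact h1 x hx
    · intro h1 x hx
      rw [← hτ]
      exact hx.2 _ h1
  have hPc : P = P₀.comap τ := by
    ext f
    rw [Ideal.mem_comap, hPτ]
  refine ⟨?_, ?_, ?_, ?_⟩
  · rw [hPc]
    exact Ideal.IsPrime.comap _
  · rw [hPτ]
    have h1 : τ (∏ i : Fin n, (X i : MvPolynomial (Fin n) ℂ)) = C (∏ i, g i) * ∏ i, X i := by
      simp only [τ, map_prod, aeval_X, Finset.prod_mul_distrib]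
    rw [h1]
    intro h2
    rcases hP₀.mem_or_mem h2 with h3 | h3
    · apply hP₀.ne_top
      rw [Ideal.eq_top_iff_one]
      have h4 : (1 : MvPolynomial (Fin n) ℂ) = C ((∏ i, g i)⁻¹) * C (∏ i, g i) := by
        rw [← C_mul, inv_mul_cancel₀ (Finset.prod_ne_zero_iff.mpr fun i _ => hg0 i), C_1]
      rw [h4]
      exact Ideal.mul_mem_left _ _ h3
    · exact hX₀ h3
  · intro x hx
    refine ⟨fun i => mul_ne_zero (hg0 i) (hx.1 i), fun f hf => ?_⟩
    exact (hP f).mp hf x hx
  · intro x hx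
    refine ⟨fun i => mul_ne_zero (inv_ne_zero (hg0 i)) (hx.1 i), fun f hf => ?_⟩
    let f' : MvPolynomial (Fin n) ℂ := aeval (fun i => C ((g i)⁻¹) * X i) f
    have h1 : eval x f' = eval (fun i => (g i)⁻¹ * x i) f := by
      have h1 : (aeval x : MvPolynomial (Fin n) ℂ →ₐ[ℂ] ℂ).comp
          (aeval (fun i => C ((g i)⁻¹) * X i) : MvPolynomial (Fin n) ℂ →ₐ[ℂ] MvPolynomial (Fin n) ℂ) =
          (aeval (fun i => (g i)⁻¹ * x i) : MvPolynomial (Fin n) ℂ →ₐ[ℂ] ℂ) := by
        apply MvPolynomial.algHom_ext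
        intro i
        simp
      have h2 := congrArg (fun F : MvPolynomial (Fin n) ℂ →ₐ[ℂ] ℂ => F f) h1
      simp only [AlgHom.comp_apply, aeval_eq_eval] at h2
      exact h2
    rw [← h1]
    refine hx.2 _ ?_
    rw [hPτ]
    have h2 : τ f' = f := by
      have h3 : τ.comp (aeval (fun i => C ((g i)⁻¹) * X i) :
          MvPolynomial (Fin n) ℂ →ₐ[ℂ] MvPolynomial (Fin n) ℂ) = AlgHom.id ℂ _ := by
        apply MvPolynomial.algHom_ext
        intro i
        simp only [τ, AlgHom.comp_apply, aeval_X, map_mul, algHom_C, AlgHom.id_apply,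
          algebraMap_eq]
        rw [← mul_assoc, ← C_mul, inv_mul_cancel₀ (hg0 i), C_1, one_mul]
      exact congrArg (fun F : MvPolynomial (Fin n) ℂ →ₐ[ℂ] MvPolynomial (Fin n) ℂ => F f) h3
    rw [h2]
    exact hf

/-- The weight of an exponent. -/
def wt {m : ℕ} (v : Fin m → ℤ) (s : Fin m →₀ ℕ) : ℤ := ∑ l, v l * (s l : ℤ)

/-- The Euler operator of a one-parameter group. -/
noncomputable def eulv {m : ℕ} (v : Fin m → ℤ) (s : Fin m →₀ ℕ) : ℂ →+ ℂ :=
  AddMonoidHom.mulLeft ((wt v s : ℤ) : ℂ)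

theorem eulv_apply {m : ℕ} (v : Fin m → ℤ) (s : Fin m →₀ ℕ) (z : ℂ) :
    eulv v s z = ((wt v s : ℤ) : ℂ) * z := rfl

theorem eulv_leib {m : ℕ} (v : Fin m → ℤ) (s t : Fin m →₀ ℕ) (y z : ℂ) :
    eulv v (s + t) (y * z) = eulv v s y * z + y * eulv v t z := by
  have h : wt v (s + t) = wt v s + wt v t := by
    simp only [wt, Finsupp.add_apply, Nat.cast_add, mul_add, Finset.sum_add_distrib]
  rw [eulv_apply, eulv_apply, eulv_apply, h, Int.cast_add]
  ring

theorem eulv_eq {m : ℕ} (v : Fin m → ℤ) (f : MvPolynomial (Fin m) ℂ) :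
    dco (eulv v) f = ∑ l, C ((v l : ℤ) : ℂ) * dco (eul l) f := by
  ext s
  rw [coeff_dco, eulv_apply, coeff_sum, wt, Int.cast_sum, Finset.sum_mul]
  refine Finset.sum_congr rfl fun l _ => ?_
  rw [coeff_C_mul, coeff_dco, eul_apply]
  push_cast
  ring

/-- A variety whose ideal is stable under the Euler operator is stable under the one-parameter
group. -/
theorem stable_of_eulv {m : ℕ} (v : Fin m → ℤ) (Q : Ideal (MvPolynomial (Fin m) ℂ))
    (h : ∀ f ∈ Q, dco (eulv v) f ∈ Q) (y : Fin m → ℂ) (hy : OnTorus m Q y) (t : ℂ) (ht : t ≠ 0) :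
    OnTorus m Q (fun l => t ^ v l * y l) := by
  classical
  refine ⟨fun l => mul_ne_zero (zpow_ne_zero _ ht) (hy.1 l), fun f hf => ?_⟩
  -- the polynomials `∏ (E - w) f`
  have key : ∀ A : Finset ℤ, ∃ F ∈ Q, ∀ s, coeff s F =
      (∏ w ∈ A, (((wt v s : ℤ) : ℂ) - (w : ℂ))) * coeff s f := by
    intro A
    induction A using Finset.induction_on with
    | empty => exact ⟨f, hf, fun s => by rw [Finset.prod_empty, one_mul]⟩
    | insert w A hw ih =>
      obtain ⟨F, hF, hFs⟩ := ih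
      refine ⟨dco (eulv v) F - C (w : ℂ) * F, Submodule.sub_mem _ (h F hF)
        (Ideal.mul_mem_left _ _ hF), fun s => ?_⟩
      rw [coeff_sub, coeff_dco, coeff_C_mul, eulv_apply, hFs, Finset.prod_insert hw]
      ring
  let W : Finset ℤ := f.support.image (wt v)
  have hW : ∀ w ∈ W, ∑ s ∈ f.support with wt v s = w, coeff s f * ∏ l, y l ^ s l = 0 := by
    intro w hw
    obtain ⟨F, hF, hFs⟩ := key (W.erase w)
    have h1 := hy.2 F hF
    have h2 : F.support ⊆ f.support := by
      intro s hs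
      rw [mem_support_iff, hFs] at hs
      rw [mem_support_iff]
      exact right_ne_zero_of_mul hs
    have h3 : eval y F = (∏ w' ∈ W.erase w, ((w : ℂ) - (w' : ℂ))) *
        ∑ s ∈ f.support with wt v s = w, coeff s f * ∏ l, y l ^ s l := by
      rw [eval_eq', Finset.mul_sum, Finset.sum_filter]
      rw [Finset.sum_subset h2 (fun s _ hs => by rw [notMem_support_iff.mp hs, zero_mul])]
      refine Finset.sum_congr rfl fun s hs => ?_
      rw [hFs]
      split_ifs with hsw
      · rw [hsw, mul_assoc]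
      · have hz : ∏ w' ∈ W.erase w, (((wt v s : ℤ) : ℂ) - (w' : ℂ)) = 0 :=
          Finset.prod_eq_zero (i := wt v s) (Finset.mem_erase.mpr
            ⟨hsw, Finset.mem_image_of_mem _ hs⟩) (sub_self _)
        rw [hz]
        ring
    rw [h3] at h1
    refine (mul_eq_zero.mp h1).resolve_left (Finset.prod_ne_zero_iff.mpr fun w' hw' => ?_)
    rw [sub_ne_zero]
    intro h4
    exact (Finset.mem_erase.mp hw').1 (by exact_mod_cast h4.symm)
  have hzp : ∀ s : Fin m →₀ ℕ, ∏ l, (t ^ v l * y l) ^ s l = t ^ wt v s * ∏ l, y l ^ s l := by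
    intro s
    simp_rw [mul_pow]
    rw [Finset.prod_mul_distrib]
    congr 1
    have h2 : ∀ T : Finset (Fin m), ∏ l ∈ T, (t ^ v l) ^ s l = t ^ (∑ l ∈ T, v l * (s l : ℤ)) := by
      intro T
      induction T using Finset.induction_on with
      | empty => simp
      | insert a T ha ih =>
        rw [Finset.prod_insert ha, Finset.sum_insert ha, ih, zpow_add₀ ht, zpow_mul, zpow_natCast]
    exact h2 _
  rw [eval_eq']
  simp_rw [hzp]
  have h4 : ∑ s ∈ f.support, coeff s f * (t ^ wt v s * ∏ l, y l ^ s l) =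
      ∑ w ∈ W, ∑ s ∈ f.support with wt v s = w, coeff s f * (t ^ wt v s * ∏ l, y l ^ s l) :=
    (Finset.sum_fiberwise_of_maps_to (fun s hs => Finset.mem_image_of_mem _ hs) _).symm
  rw [h4]
  refine Finset.sum_eq_zero fun w hw => ?_
  have h5 : ∑ s ∈ f.support with wt v s = w, coeff s f * (t ^ wt v s * ∏ l, y l ^ s l) =
      t ^ w * ∑ s ∈ f.support with wt v s = w, coeff s f * ∏ l, y l ^ s l := by
    rw [Finset.mul_sum]
    refine Finset.sum_congr rfl fun s hs => ?_
    rw [(Finset.mem_filter.mp hs).2]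
    ring
  rw [h5, hW w hw, mul_zero]

/-- A lattice of smaller rank has a nonzero orthogonal vector. -/
theorem exists_orth {m : ℕ} (G : Submodule ℤ (Fin m → ℤ)) (hG : Module.finrank ℤ G < m) :
    ∃ v : Fin m → ℤ, v ≠ 0 ∧ ∀ b ∈ G, ∑ l, b l * v l = 0 := by
  classical
  let B : Module.Basis (Fin (Module.finrank ℤ G)) ℤ G := Module.finBasis ℤ G
  let ψ : (Fin m → ℤ) →ₗ[ℤ] (Fin (Module.finrank ℤ G) → ℤ) :=
    LinearMap.pi fun i => Fintype.linearCombination ℤ (B i : Fin m → ℤ)
  have h1 := StabAux.rank_nullity ψ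
  rw [Module.finrank_fin_fun] at h1
  have h2 : Module.finrank ℤ (LinearMap.range ψ) ≤ Module.finrank ℤ G := by
    have := Submodule.finrank_le (LinearMap.range ψ)
    rwa [Module.finrank_fin_fun] at this
  have h3 : LinearMap.ker ψ ≠ ⊥ := by
    intro h
    rw [h, finrank_bot] at h1
    omega
  obtain ⟨v, hv, hv0⟩ := Submodule.exists_mem_ne_zero_of_ne_bot h3
  refine ⟨v, hv0, fun b hb => ?_⟩
  have h4 : ∀ i, ∑ l, (B i : Fin m → ℤ) l * v l = 0 := by
    intro i
    have h5 : ψ v i = 0 := by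
      rw [LinearMap.mem_ker.mp hv]
      rfl
    have h6 : ψ v i = ∑ l, v l • (B i : Fin m → ℤ) l := by
      show Fintype.linearCombination ℤ (B i : Fin m → ℤ) v = _
      rw [Fintype.linearCombination_apply]
    rw [h6] at h5
    rw [← h5]
    refine Finset.sum_congr rfl fun l _ => ?_
    rw [smul_eq_mul, mul_comm]
  have h7 : b ∈ Submodule.span ℤ (Set.range fun i => (B i : Fin m → ℤ)) := by
    have h8 : Submodule.span ℤ (Set.range fun i => (B i : Fin m → ℤ)) = G := by
      have h9 : (Set.range fun i => (B i : Fin m → ℤ)) = G.subtype '' Set.range B := by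
        rw [← Set.range_comp]; rfl
      rw [h9, Submodule.span_image, B.span_eq, Submodule.map_top, Submodule.range_subtype]
    rw [h8]
    exact hb
  clear hb
  induction h7 using Submodule.span_induction with
  | mem x hx =>
    obtain ⟨i, rfl⟩ := hx
    exact h4 i
  | zero => simp
  | add x y _ _ hx hy =>
    simp only [Pi.add_apply, add_mul, Finset.sum_add_distrib, hx, hy, add_zero]
  | smul a x _ hx =>
    simp only [Pi.smul_apply, smul_eq_mul, mul_assoc]
    rw [← Finset.mul_sum, hx, mul_zero]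

/-- The group of the exponents of the algebraic monomials in `h`. -/
def algRel {m : ℕ} (h : Fin m → ℂ) (h0 : ∀ l, h l ≠ 0) : Submodule ℤ (Fin m → ℤ) :=
  AddSubgroup.toIntSubmodule {
    carrier := {a | IsAlgebraic ℚ (∏ j, h j ^ a j)}
    zero_mem' := by simp [isAlgebraic_one]
    add_mem' := by
      intro a b ha hb
      have h3 := IsAlgebraic.mul ha hb
      rw [← Finset.prod_mul_distrib] at h3
      have h4 : ∏ j, h j ^ (a + b) j = ∏ j, h j ^ a j * h j ^ b j :=
        Finset.prod_congr rfl fun j _ => by rw [Pi.add_apply, zpow_add₀ (h0 j)]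
      show IsAlgebraic ℚ (∏ j, h j ^ (a + b) j)
      rw [h4]
      exact h3
    neg_mem' := by
      intro a ha
      have h3 := IsAlgebraic.inv ha
      rw [← Finset.prod_inv_distrib] at h3
      have h4 : ∏ j, h j ^ (-a) j = ∏ j, (h j ^ a j)⁻¹ :=
        Finset.prod_congr rfl fun j _ => by rw [Pi.neg_apply, zpow_neg]
      show IsAlgebraic ℚ (∏ j, h j ^ (-a) j)
      rw [h4]
      exact h3 }

theorem mem_algRel {m : ℕ} {h : Fin m → ℂ} {h0 : ∀ l, h l ≠ 0} {a : Fin m → ℤ} :
    a ∈ algRel h h0 ↔ IsAlgebraic ℚ (∏ j, h j ^ a j) := Iff.rfl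

/-- If `Y = g Y₀` with `Y₀` defined over the algebraic numbers, and the quotient `B` of `Y` (closure
of the image under `γ`) is defined over the algebraic numbers and has finite stabiliser, then the
image `γ(g)` has algebraic coordinates. -/
theorem translates (n : ℕ) (P₀ : Ideal (MvPolynomial (Fin n) ℂ)) (hP₀ : P₀.IsPrime)
    (hX₀ : (∏ i : Fin n, (X i : MvPolynomial (Fin n) ℂ)) ∉ P₀)
    (hQ₀ : P₀ = Ideal.span {f | f ∈ P₀ ∧ ∀ s, IsAlgebraic ℚ (coeff s f)}) (g : Fin n → ℂ)
    (hg0 : ∀ i, g i ≠ 0) (P : Ideal (MvPolynomial (Fin n) ℂ))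
    (hP : ∀ f, f ∈ P ↔ ∀ x, OnTorus n P₀ x → eval (fun i => g i * x i) f = 0)
    {m : ℕ} {γ : Fin m → Fin n → ℤ} {Q : Ideal (MvPolynomial (Fin m) ℂ)} (hI : IsImg n P m γ Q)
    (hfin : ∀ v : Fin m → ℤ, v ≠ 0 → ∃ y, OnTorus m Q y ∧ ∃ t : ℂ, t ≠ 0 ∧
      ¬ OnTorus m Q (fun l => t ^ v l * y l)) :
    ∀ l, IsAlgebraic ℚ (∏ i, g i ^ γ l i) := by
  classical
  obtain ⟨-, -, hon1, hon2⟩ := translate_facts P₀ hP₀ hX₀ g hg0 P hP
  obtain ⟨hγ, hQp, hXQ, hQ, hQa, hdense, -, hd1, hd2⟩ := hI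
  let h : Fin m → ℂ := fun l => ∏ i, g i ^ γ l i
  have h0 : ∀ l, h l ≠ 0 := fun l => Finset.prod_ne_zero_iff.mpr fun i _ => zpow_ne_zero _ (hg0 i)
  have hmono : ∀ (x : Fin n → ℂ) (l : Fin m), ∏ i, (g i * x i) ^ γ l i = h l * ∏ i, x i ^ γ l i := by
    intro x l
    simp_rw [mul_zpow]
    rw [Finset.prod_mul_distrib]
  have honQ : ∀ x, OnTorus n P x → OnTorus m Q (fun l => ∏ i, x i ^ γ l i) := by
    intro x hx
    exact ⟨fun l => Finset.prod_ne_zero_iff.mpr fun i _ => zpow_ne_zero _ (hx.1 i),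
      fun f hf => (hQ f).mp hf x hx⟩
  -- the rank of the relations is `m`
  have hrank : m ≤ Module.finrank ℤ (algRel h h0) := by
    by_contra hlt
    push Not at hlt
    obtain ⟨v, hv0, hv⟩ := exists_orth (algRel h h0) hlt
    obtain ⟨y1, hy1, t, ht, hnot⟩ := hfin v hv0
    apply hnot
    refine stable_of_eulv v Q ?_ y1 hy1 t ht
    intro f hf
    have hQa' := hQa
    rw [hQa'] at hf ⊢
    refine dco_mem _ (eulv_leib v) _ ?_ f hf
    rintro f ⟨hfQ, hfa⟩
    rw [← hQa', hQ]
    intro x hx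
    refine hdense (dco (eulv v) f) ?_ _ (honQ x hx)
    intro y hy hya
    -- the linear relation between the logarithmic derivatives
    have hrel : ∀ D : Derivation QQ ℂ ℂ,
        ∑ l, (D (h l) / h l) * eval y (dco (eul l) f) = 0 := by
      intro D
      have h1 : (∑ l, C (D (h l) / h l) * dco (eul l) f) ∈ Q := by
        rw [hQ]
        intro x hx
        rw [map_sum]
        have h2 := der_translate P₀ hP₀ hX₀ hQ₀ γ h h0 f hfa (fun z hz => by
          have h3 := (hQ f).mp hfQ _ (hon1 z hz)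
          simp only [hmono] at h3
          exact h3) D _ (hon2 x hx)
        have h3 : (fun l => h l * ∏ i, ((g i)⁻¹ * x i) ^ γ l i) = fun l => ∏ i, x i ^ γ l i := by
          funext l
          rw [← hmono]
          refine Finset.prod_congr rfl fun i _ => ?_
          rw [← mul_assoc, mul_inv_cancel₀ (hg0 i), one_mul]
        rw [h3] at h2
        simp only [map_mul, eval_C]
        exact h2
      have h2 := hy.1.2 _ h1
      rw [map_sum] at h2
      simp only [map_mul, eval_C] at h2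
      exact h2
    let c : Fin m → QQ := fun l => ⟨eval y (dco (eul l) f),
      mem_algebraicClosure_iff.mpr (isAlgebraic_eval _ (isAlgebraic_dco f hfa l) y hya)⟩
    have hc : c ∈ Submodule.span QQ (Gam QQ h) := by
      refine mem_span_of_dlog ?_ h h0 c ?_
      · intro z hz
        have h0 : @Algebra.IsAlgebraic ℚ (algebraicClosure ℚ ℂ) _ _ _ :=
          algebraicClosure.isAlgebraic ℚ ℂ
        have h1 : IsAlgebraic ℚ z := IsAlgebraic.restrictScalars ℚ (S := algebraicClosure ℚ ℂ) hz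
        exact ⟨⟨z, mem_algebraicClosure_iff.mpr h1⟩, rfl⟩
      · intro D
        have h1 := hrel D
        rw [← h1]
        refine Finset.sum_congr rfl fun l _ => ?_
        rw [mul_comm]
        rfl
    have hcv : ∀ c' ∈ Submodule.span QQ (Gam QQ h), ∑ l, ((v l : ℤ) : QQ) * c' l = 0 := by
      intro c' hc'
      induction hc' using Submodule.span_induction with
      | mem a ha =>
        obtain ⟨b, hb, ⟨z, hz⟩⟩ := ha
        have h2 : IsAlgebraic ℚ (∏ l, h l ^ b l) := by
          rw [← hz]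
          exact mem_algebraicClosure_iff.mp z.2
        have h3 := hv b (mem_algRel.mpr h2)
        have h4 : ∑ l, ((v l : ℤ) : QQ) * a l = ((∑ l, b l * v l : ℤ) : QQ) := by
          rw [Int.cast_sum]
          refine Finset.sum_congr rfl fun l _ => ?_
          rw [hb l, Int.cast_mul, mul_comm]
        rw [h4, h3, Int.cast_zero]
      | zero => simp
      | add a b _ _ ha hb =>
        simp only [Pi.add_apply, mul_add, Finset.sum_add_distrib, ha, hb, add_zero]
      | smul r a _ ha =>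
        simp only [Pi.smul_apply, smul_eq_mul]
        have h5 : ∑ l, ((v l : ℤ) : QQ) * (r * a l) = r * ∑ l, ((v l : ℤ) : QQ) * a l := by
          rw [Finset.mul_sum]
          exact Finset.sum_congr rfl fun l _ => by ring
        rw [h5, ha, mul_zero]
    rw [eulv_eq, map_sum]
    simp only [map_mul, eval_C]
    have h6 := congrArg (algebraMap QQ ℂ) (hcv c hc)
    rw [map_sum, map_zero] at h6
    rw [← h6]
    refine Finset.sum_congr rfl fun l _ => ?_
    rw [map_mul, map_intCast]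
    rfl
  intro l
  have h1 : Module.finrank ℤ ((Fin m → ℤ) ⧸ algRel h h0) = 0 := by
    have h2 := Submodule.finrank_quotient_add_finrank (algRel h h0)
    rw [Module.finrank_fin_fun] at h2
    omega
  obtain ⟨N, hN, h2⟩ := Module.finrank_eq_zero_iff.mp h1
    (Submodule.Quotient.mk (Pi.single l (1 : ℤ)))
  rw [← Submodule.Quotient.mk_smul, Submodule.Quotient.mk_eq_zero, mem_algRel] at h2
  have h3 : ∏ j, h j ^ (N • (Pi.single l (1 : ℤ) : Fin m → ℤ)) j = h l ^ N := by
    rw [Finset.prod_eq_single l]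
    · rw [Pi.smul_apply, Pi.single_eq_same, smul_eq_mul, mul_one]
    · intro j _ hj
      rw [Pi.smul_apply, Pi.single_eq_of_ne hj, smul_zero, zpow_zero]
    · intro h4
      exact absurd (Finset.mem_univ l) h4
  rw [h3] at h2
  show IsAlgebraic ℚ (h l)
  have h4 : IsAlgebraic ℚ (h l ^ N.natAbs) := by
    rcases Int.natAbs_eq N with h5 | h5
    · rw [h5, zpow_natCast] at h2
      exact h2
    · rw [h5, zpow_neg, zpow_natCast] at h2
      have h6 := IsAlgebraic.inv h2
      rwa [inv_inv] at h6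
  exact IsAlgebraic.of_pow (Int.natAbs_pos.mpr hN) h4

end Pool.Agent.CITR
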