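import Mathlib
import Pool.Agent.Lib.MP_c95b3b_ag_R.Defs

/-!
# The ultrafilter of the generic unlikely points
-/

set_option autoImplicit false

namespace Pool.Agent.CITR

open MvPolynomial Filter

namespace UltraAux

/-- A polynomial which vanishes on the variety in the torus is in the ideal. -/
theorem mem_of_onTorus (n : ℕ) (P : Ideal (MvPolynomial (Fin n) ℂ)) (hP : P.IsPrime)
    (hX : (∏ i : Fin n, (X i : MvPolynomial (Fin n) ℂ)) ∉ P) (f : MvPolynomial (Fin n) ℂ)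
    (hf : ∀ x, OnTorus n P x → eval x f = 0) : f ∈ P := by
  have h1 : f * ∏ i : Fin n, (X i : MvPolynomial (Fin n) ℂ) ∈ vanishingIdeal ℂ (zeroLocus ℂ P) := by
    rw [mem_vanishingIdeal_iff]
    intro x hx
    rw [mem_zeroLocus_iff] at hx
    have hae : ∀ g : MvPolynomial (Fin n) ℂ, aeval x g = eval x g := fun g => by
      rw [aeval_def, Algebra.algebraMap_self, eval₂_id]
    rw [hae, map_mul]
    by_cases h : ∀ i, x i ≠ 0
    · rw [hf x ⟨h, fun g hg => by rw [← hae]; exact hx g hg⟩, zero_mul]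
    · push Not at h
      obtain ⟨i, hi⟩ := h
      rw [map_prod, Finset.prod_eq_zero (Finset.mem_univ i) (by rw [eval_X, hi]), mul_zero]
  rw [vanishingIdeal_zeroLocus_eq_radical, hP.radical] at h1
  exact (hP.mem_or_mem h1).resolve_right hX

/-- The filter of the sets which contain almost all unlikely points. -/
def fil (n : ℕ) (P : Ideal (MvPolynomial (Fin n) ℂ)) (hP : P.IsPrime) : Filter (Fin n → ℂ) where
  sets := {s | ∃ G ∉ P, {x | Unlikely n P x ∧ eval x G ≠ 0} ⊆ s}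
  univ_sets := ⟨1, fun h => hP.ne_top ((Ideal.eq_top_iff_one P).mpr h), Set.subset_univ _⟩
  sets_of_superset := by
    rintro s t ⟨G, hG, h⟩ hst
    exact ⟨G, hG, h.trans hst⟩
  inter_sets := by
    rintro s t ⟨G, hG, h⟩ ⟨G', hG', h'⟩
    refine ⟨G * G', fun h0 => (hP.mem_or_mem h0).elim hG hG', fun x hx => ?_⟩
    obtain ⟨hx1, hx2⟩ := hx
    rw [map_mul, mul_ne_zero_iff] at hx2
    exact ⟨h ⟨hx1, hx2.1⟩, h' ⟨hx1, hx2.2⟩⟩

end UltraAux

open UltraAux

theorem exists_ultra (n : ℕ) (P : Ideal (MvPolynomial (Fin n) ℂ)) (hP : P.IsPrime)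
    (hX : (∏ i : Fin n, (X i : MvPolynomial (Fin n) ℂ)) ∉ P)
    (hU : ∀ f : MvPolynomial (Fin n) ℂ, (∀ x, Unlikely n P x → eval x f = 0) →
      ∀ x, OnTorus n P x → eval x f = 0) :
    ∃ φ : Ultrafilter (Fin n → ℂ), (∀ᶠ x in (φ : Filter (Fin n → ℂ)), Unlikely n P x) ∧
      ∀ G ∉ P, ∀ᶠ x in (φ : Filter (Fin n → ℂ)), eval x G ≠ 0 := by
  have hne : (fil n P hP).NeBot := by
    rw [Filter.neBot_iff, Ne, ← Filter.empty_mem_iff_bot]
    rintro ⟨G, hG, h⟩
    apply hG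
    refine mem_of_onTorus n P hP hX G (hU G fun x hx => ?_)
    by_contra h0
    exact h ⟨hx, h0⟩
  refine ⟨Ultrafilter.of (fil n P hP), ?_, fun G hG => ?_⟩
  · have h1 : {x | Unlikely n P x} ∈ fil n P hP :=
      ⟨1, fun h => hP.ne_top ((Ideal.eq_top_iff_one P).mpr h), fun x hx => hx.1⟩
    exact Ultrafilter.of_le _ h1
  · have h1 : {x | eval x G ≠ 0} ∈ fil n P hP := ⟨G, hG, fun x hx => hx.2⟩
    exact Ultrafilter.of_le _ h1

end Pool.Agent.CITR
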