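import Mathlib
import Pool.Agent.Lib.MP_c95b3b_ag_R.Defs
import Pool.Agent.Lib.MP_c95b3b_ag_R.Disj
import Pool.Agent.Lib.MP_c95b3b_ag_R.Ultra
import Pool.Agent.Lib.MP_c95b3b_ag_R.Gen
import Pool.Agent.Lib.MP_c95b3b_ag_R.Main
import Pool.Agent.Lib.MP_c95b3b_ag_R.Image
import Pool.Agent.Lib.MP_c95b3b_ag_h60.Lacun

/-!
# Unlikely points of the image of a variety, the codimension of the image, the final theorem
-/

set_option autoImplicit false
set_option linter.unusedVariables false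
set_option linter.unusedSectionVars false

namespace Pool.Agent.CITR

open MvPolynomial Filter

/-! ### R13 -/

namespace FinalAux

/-- The linear map on the exponents given by a family of vectors. -/
noncomputable def T {n m : ℕ} (γ : Fin m → Fin n → ℤ) : (Fin m → ℤ) →ₗ[ℤ] (Fin n → ℤ) :=
  Fintype.linearCombination ℤ γ

theorem T_apply {n m : ℕ} (γ : Fin m → Fin n → ℤ) (c : Fin m → ℤ) : T γ c = ∑ l, c l • γ l := by
  rw [T, Fintype.linearCombination_apply]

theorem T_inj {n m : ℕ} {γ : Fin m → Fin n → ℤ} (hγ : LinearIndependent ℤ γ) :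
    Function.Injective (T γ) := hγ.fintypeLinearCombination_injective

theorem range_T {n m : ℕ} (γ : Fin m → Fin n → ℤ) :
    LinearMap.range (T γ) = Submodule.span ℤ (Set.range γ) :=
  Fintype.range_linearCombination (R := ℤ) (v := γ)

theorem prod_T {n m : ℕ} (γ : Fin m → Fin n → ℤ) (c : Fin m → ℤ) {x : Fin n → ℂ}
    (hx : ∀ i, x i ≠ 0) :
    ∏ l, (∏ i, x i ^ γ l i) ^ c l = ∏ i, x i ^ (T γ c) i := by
  have h1 : CIT60.mon x (T γ c) = ∏ l, CIT60.mon x (γ l) ^ c l := by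
    rw [T_apply, CIT60.mon_sum hx]
    simp only [CIT60.mon_smul]
  exact h1.symm

theorem finrank_comap {n m : ℕ} {γ : Fin m → Fin n → ℤ} (hγ : LinearIndependent ℤ γ)
    {Λ : Submodule ℤ (Fin n → ℤ)} (hΛ : Λ ≤ Submodule.span ℤ (Set.range γ)) :
    Module.finrank ℤ (Λ.comap (T γ)) = Module.finrank ℤ Λ := by
  have h1 : (Λ.comap (T γ)).map (T γ) = Λ := by
    rw [Submodule.map_comap_eq, range_T]
    exact inf_eq_right.mpr hΛ
  have h2 : Module.finrank ℤ ((Λ.comap (T γ)).map (T γ)) = Module.finrank ℤ (Λ.comap (T γ)) :=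
    ((Submodule.equivMapOfInjective (T γ) (T_inj hγ) (Λ.comap (T γ))).finrank_eq).symm
  rw [← h2, h1]

/-- A point which satisfies the relations of a lattice of full rank is torsion. -/
theorem exists_pair {m : ℕ} (f : MvPolynomial (Fin m) ℚ) (hf : f ≠ 0) (y : Fin m → ℂ)
    (hy0 : ∀ l, y l ≠ 0) (hfy : aeval y f = 0) (Λ : Submodule ℤ (Fin m → ℤ))
    (hΛ : ∀ a ∈ Λ, ∏ l, y l ^ a l = 1) (hr : m ≤ Module.finrank ℤ Λ) :
    ∃ s ∈ f.support, ∃ s' ∈ f.support, s ≠ s' ∧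
      ∏ l, y l ^ ((f.support.card.factorial : ℤ) * ((s l : ℤ) - (s' l : ℤ))) = 1 := by
  obtain ⟨h, b, ζ, A, h1, h2, h3, h4⟩ := CIT60.exists_param y hy0 Λ hΛ
  have h5 : h = 0 := by omega
  subst h5
  have hb : AlgebraicIndependent ℚ b := by
    rw [algebraicIndependent_empty_type_iff]
    exact (algebraMap ℚ ℂ).injective
  obtain ⟨s, hs, s', hs', hne, heq⟩ := CIT60.exists_rel f hf y hfy b hb h2 ζ h3 A h4
  refine ⟨s, hs, s', hs', hne, ?_⟩
  have h6 : (fun l => (f.support.card.factorial : ℤ) * ((s l : ℤ) - (s' l : ℤ))) =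
      (f.support.card.factorial : ℤ) • (fun l => (s l : ℤ)) +
        (-1 : ℤ) • ((f.support.card.factorial : ℤ) • (fun l => (s' l : ℤ))) := by
    funext l
    simp only [Pi.add_apply, Pi.smul_apply, smul_eq_mul]
    ring
  have h7 : CIT60.mon y (fun l => (f.support.card.factorial : ℤ) * ((s l : ℤ) - (s' l : ℤ))) = 1 := by
    rw [h6, CIT60.mon_add hy0, CIT60.mon_smul _ ((f.support.card.factorial : ℤ) • (fun l => (s' l : ℤ))),
      heq, zpow_neg_one, mul_inv_cancel₀ (CIT60.mon_ne_zero hy0 _)]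
  exact h7

/-- The binomial of an exponent. -/
noncomputable def bin {m : ℕ} (e : Fin m → ℤ) : MvPolynomial (Fin m) ℂ :=
  ∏ l, X l ^ (e l).toNat - ∏ l, X l ^ (- e l).toNat

theorem eval_bin {m : ℕ} (e : Fin m → ℤ) {y : Fin m → ℂ} (hy : ∀ l, y l ≠ 0) :
    eval y (bin e) = 0 ↔ ∏ l, y l ^ e l = 1 := by
  have h1 : ∏ l, y l ^ e l = (∏ l, y l ^ (e l).toNat) / ∏ l, y l ^ (- e l).toNat := by
    rw [← Finset.prod_div_distrib]
    refine Finset.prod_congr rfl fun l _ => ?_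
    rcases le_total 0 (e l) with h | h
    · have h2 : (- e l).toNat = 0 := Int.toNat_eq_zero.mpr (by omega)
      rw [h2, pow_zero, div_one, ← zpow_natCast, Int.toNat_of_nonneg h]
    · have h2 : (e l).toNat = 0 := Int.toNat_eq_zero.mpr h
      rw [h2, pow_zero, one_div, ← zpow_natCast, Int.toNat_of_nonneg (by omega : 0 ≤ - e l),
        zpow_neg, inv_inv]
  have h2 : ∏ l, y l ^ (- e l).toNat ≠ 0 :=
    Finset.prod_ne_zero_iff.mpr fun l _ => pow_ne_zero _ (hy l)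
  rw [h1, div_eq_one_iff_eq h2, bin, map_sub, map_prod, map_prod, sub_eq_zero]
  simp only [map_pow, eval_X]

end FinalAux

open FinalAux

section

variable {n : ℕ} {P : Ideal (MvPolynomial (Fin n) ℂ)} {φ : Ultrafilter (Fin n → ℂ)}
  (hP : P.IsPrime) (hX : (∏ i : Fin n, (X i : MvPolynomial (Fin n) ℂ)) ∉ P)
  (hon : ∀ᶠ x in (φ : Filter (Fin n → ℂ)), OnTorus n P x)
  (hgen : ∀ G ∉ P, ∀ᶠ x in (φ : Filter (Fin n → ℂ)), eval x G ≠ 0)

include hP hX hon hgen

namespace FinalAux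

theorem onTorus_image {m : ℕ} (γ : Fin m → Fin n → ℤ) {x : Fin n → ℂ} (hx : OnTorus n P x) :
    OnTorus m (Qid φ γ) (fun l => ∏ i, x i ^ γ l i) := by
  refine ⟨fun l => ?_, fun g hg => ?_⟩
  · exact Finset.prod_ne_zero_iff.mpr fun i _ => zpow_ne_zero _ (hx.1 i)
  · exact (mem_Qid_iff hP hX hon hgen γ g).mp hg x hx

/-- A polynomial which vanishes at the images of almost all points is in the ideal of the image. -/
theorem mem_Qid_of_ev {m : ℕ} (γ : Fin m → Fin n → ℤ) (f : MvPolynomial (Fin m) ℂ)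
    (h : ∀ᶠ x in (φ : Filter (Fin n → ℂ)), eval (fun l => ∏ i, x i ^ γ l i) f = 0) :
    f ∈ Qid φ γ := by
  show aeval (bg φ γ) f = 0
  rw [aeval_bg hon, cl_eq_zero]
  exact h

/-- The lattice in the exponents of the image. -/
theorem main' (hU : ∀ᶠ x in (φ : Filter (Fin n → ℂ)), Unlikely n P x) {m : ℕ}
    (γ : Fin m → Fin n → ℤ) (hγ : LinearIndependent ℤ γ)
    (hspan : Submodule.span ℤ (Set.range γ) = GamZ φ) (L : Finset (Fin m))
    (hL : AlgebraicIndependent ℚ (fun l : L => bg φ γ l)) :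
    ∀ᶠ x in (φ : Filter (Fin n → ℂ)), ∃ Λ : Submodule ℤ (Fin m → ℤ),
      (∀ a ∈ Λ, ∏ l, (∏ i, x i ^ γ l i) ^ a l = 1) ∧ L.card + 1 ≤ Module.finrank ℤ Λ := by
  have hγ' : ∀ l, γ l ∈ GamZ φ := fun l => hspan ▸ Submodule.subset_span ⟨l, rfl⟩
  filter_upwards [hon, main_ineq hP hX hon hgen hU γ hγ' L hL] with x hx hΛ
  obtain ⟨Λ, h1, h2, h3⟩ := hΛ
  refine ⟨Λ.comap (T γ), fun a ha => ?_, ?_⟩
  · rw [prod_T γ a hx.1]
    exact h2 _ ha
  · rw [finrank_comap hγ (hspan ▸ h1)]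
    exact h3

theorem card_le (hU : ∀ᶠ x in (φ : Filter (Fin n → ℂ)), Unlikely n P x) {m : ℕ}
    (γ : Fin m → Fin n → ℤ) (hγ : LinearIndependent ℤ γ)
    (hspan : Submodule.span ℤ (Set.range γ) = GamZ φ) (L : Finset (Fin m))
    (hL : AlgebraicIndependent ℚ (fun l : L => bg φ γ l)) : L.card + 1 ≤ m := by
  obtain ⟨x, Λ, -, h⟩ := (main' hP hX hon hgen hU γ hγ hspan L hL).exists
  have h1 : Module.finrank ℤ Λ ≤ m := by
    have := Submodule.finrank_le Λ
    rwa [Module.finrank_fin_fun] at this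
  omega

end FinalAux

/-- Almost all points are mapped to algebraic unlikely points of the image (uses R11, R12). -/
theorem unlikely_image (hU : ∀ᶠ x in (φ : Filter (Fin n → ℂ)), Unlikely n P x) {m : ℕ}
    (γ : Fin m → Fin n → ℤ) (hγ : LinearIndependent ℤ γ)
    (hspan : Submodule.span ℤ (Set.range γ) = GamZ φ) :
    ∀ᶠ x in (φ : Filter (Fin n → ℂ)),
      Unlikely m (Qid φ γ) (fun l => ∏ i, x i ^ γ l i) ∧
        ∀ l, IsAlgebraic ℚ (∏ i, x i ^ γ l i) := by
  have hγ' : ∀ l, γ l ∈ GamZ φ := fun l => hspan ▸ Submodule.subset_span ⟨l, rfl⟩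
  obtain ⟨L, hL, hdim⟩ := Qid_dim hP hX hon hgen γ hγ'
  have halg : ∀ᶠ x in (φ : Filter (Fin n → ℂ)), ∀ l, (∀ j, x j ≠ 0) →
      IsAlgebraic ℚ (∏ j, x j ^ γ l j) := by
    rw [eventually_all]
    exact fun l => mem_GamZ.mp (hγ' l)
  filter_upwards [hon, halg, main' hP hX hon hgen hU γ hγ hspan L hL] with x hx ha hΛ
  obtain ⟨Λ, h2, h3⟩ := hΛ
  refine ⟨⟨onTorus_image hP hX hon hgen γ hx, Λ, ?_, h2⟩, fun l => ha l hx.1⟩
  rw [hdim]
  have h4 : Module.finrank ℤ Λ ≤ m := by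
    have := Submodule.finrank_le Λ
    rwa [Module.finrank_fin_fun] at this
  have h5 : L.card + (m - Module.finrank ℤ Λ) + 1 ≤ m := by omega
  exact_mod_cast h5

/-- If the image is a hypersurface then the variety lies in a proper subgroup (uses R11, R12, Mann). -/
theorem image_codim (hU : ∀ᶠ x in (φ : Filter (Fin n → ℂ)), Unlikely n P x) {m : ℕ}
    (γ : Fin m → Fin n → ℤ) (hγ : LinearIndependent ℤ γ)
    (hspan : Submodule.span ℤ (Set.range γ) = GamZ φ) (hne : ¬ InSubgroup n P) :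
    1 ≤ ringKrullDim (MvPolynomial (Fin m) ℂ ⧸ Qid φ γ) ∧
      ringKrullDim (MvPolynomial (Fin m) ℂ ⧸ Qid φ γ) + 2 ≤ (m : WithBot ℕ∞) := by
  have hγ' : ∀ l, γ l ∈ GamZ φ := fun l => hspan ▸ Submodule.subset_span ⟨l, rfl⟩
  obtain ⟨L, hL, hdim⟩ := Qid_dim hP hX hon hgen γ hγ'
  obtain ⟨hQ, hQX⟩ := Qid_prime hP hX hon hgen γ
  have hcard := card_le hP hX hon hgen hU γ hγ hspan L hL
  have hmain := main' hP hX hon hgen hU γ hγ hspan L hL
  have h0 : L.card ≠ 0 := by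
    intro hL0
    apply hne
    have hdim0 : ringKrullDim (MvPolynomial (Fin m) ℂ ⧸ Qid φ γ) = 0 := by
      rw [hdim, hL0]; rfl
    have hdom : IsDomain (MvPolynomial (Fin m) ℂ ⧸ Qid φ γ) := Ideal.Quotient.isDomain _
    have hzero : Ring.KrullDimLE 0 (MvPolynomial (Fin m) ℂ ⧸ Qid φ γ) :=
      ringKrullDimZero_iff_ringKrullDim_eq_zero.mpr hdim0
    have hmax : (Qid φ γ).IsMaximal :=
      Ideal.Quotient.maximal_of_isField _ Ring.KrullDimLE.isField_of_isDomain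
    obtain ⟨β, hβ⟩ := isMaximal_iff_eq_vanishingIdeal_singleton.mp hmax
    have hpt : ∀ x, OnTorus n P x → ∀ l, ∏ i, x i ^ γ l i = β l := by
      intro x hx l
      have h1 : (X l - C (β l) : MvPolynomial (Fin m) ℂ) ∈ Qid φ γ := by
        rw [hβ, mem_vanishingIdeal_singleton_iff]
        simp
      have h2 := (onTorus_image hP hX hon hgen γ hx).2 _ h1
      rw [map_sub, eval_X, eval_C, sub_eq_zero] at h2
      exact h2
    obtain ⟨x0, hx0, Λ, hΛ1, hΛ2⟩ := (hon.and hmain).exists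
    have hΛ0 : Λ ≠ ⊥ := by
      rintro rfl
      rw [finrank_bot] at hΛ2
      omega
    obtain ⟨a, haΛ, ha0⟩ := Submodule.exists_mem_ne_zero_of_ne_bot hΛ0
    refine ⟨T γ a, fun h => ha0 (T_inj hγ (h.trans (map_zero _).symm)), fun x hx => ?_⟩
    rw [← prod_T γ a hx.1, ← hΛ1 a haΛ]
    refine Finset.prod_congr rfl fun l _ => ?_
    rw [hpt x hx l, hpt x0 hx0 l]
  have hm1 : L.card + 1 ≠ m := by
    intro hLm
    apply hne
    -- a rational relation
    obtain ⟨f, hf0, hf⟩ : ∃ f : MvPolynomial (Fin m) ℚ, f ≠ 0 ∧ aeval (bg φ γ) f = 0 := by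
      by_contra hcon
      push Not at hcon
      have hind : AlgebraicIndependent ℚ (bg φ γ) := by
        rw [algebraicIndependent_iff]
        intro p hp
        by_contra hp0
        exact hcon p hp0 hp
      have hk : ∀ l, bg φ γ l ∈ kst φ := by
        intro l
        have h1 : bg φ γ l = cl φ (fun x => ∏ i, x i ^ γ l i) := by
          have := aeval_bg hon γ (X l)
          rwa [aeval_X, show (fun x : Fin n → ℂ => eval (fun l => ∏ i, x i ^ γ l i)
            (X l : MvPolynomial (Fin m) ℂ)) = fun x => ∏ i, x i ^ γ l i from by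
              funext x; rw [eval_X]] at this
        rw [h1, cl_mem_kst]
        filter_upwards [hon, mem_GamZ.mp (hγ' l)] with x hx h
        exact h hx.1
      have hindC := disj_indep φ (bg φ γ) hk hind
      have hbot : Qid φ γ = ⊥ := by
        rw [Qid, RingHom.ker_eq_bot_iff_eq_zero]
        exact fun p hp => (algebraicIndependent_iff.mp hindC) p hp
      have h1 : ringKrullDim (MvPolynomial (Fin m) ℂ ⧸ Qid φ γ) = (m : WithBot ℕ∞) := by
        rw [hbot, ringKrullDim_eq_of_ringEquiv (RingEquiv.quotientBot _),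
          MvPolynomial.ringKrullDim_of_isNoetherianRing, ringKrullDim_eq_zero_of_field, zero_add]
        simp
      rw [hdim] at h1
      have h2 : L.card = m := by exact_mod_cast h1
      omega
    have hfQ : MvPolynomial.map (algebraMap ℚ ℂ) f ∈ Qid φ γ := by
      show aeval (bg φ γ) (MvPolynomial.map (algebraMap ℚ ℂ) f) = 0
      rw [aeval_map_algebraMap]
      exact hf
    have hev : ∀ᶠ x in (φ : Filter (Fin n → ℂ)), ∃ q ∈ f.support ×ˢ f.support,
        q.1 ≠ q.2 ∧ ∏ l, (∏ i, x i ^ γ l i) ^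
          ((f.support.card.factorial : ℤ) * ((q.1 l : ℤ) - (q.2 l : ℤ))) = 1 := by
      filter_upwards [hon, hmain] with x hx hΛ
      obtain ⟨Λ, hΛ1, hΛ2⟩ := hΛ
      have ht := onTorus_image hP hX hon hgen γ hx
      have hfy : aeval (fun l => ∏ i, x i ^ γ l i) f = (0 : ℂ) := by
        have h1 := ht.2 _ hfQ
        rw [eval_map, ← aeval_def] at h1
        exact h1
      obtain ⟨s, hs, s', hs', hne', heq⟩ := exists_pair f hf0 _ ht.1 hfy Λ hΛ1 (by omega)
      exact ⟨(s, s'), Finset.mem_product.mpr ⟨hs, hs'⟩, hne', heq⟩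
    obtain ⟨q, hq, hq'⟩ : ∃ q ∈ f.support ×ˢ f.support, ∀ᶠ x in (φ : Filter (Fin n → ℂ)),
        q.1 ≠ q.2 ∧ ∏ l, (∏ i, x i ^ γ l i) ^
          ((f.support.card.factorial : ℤ) * ((q.1 l : ℤ) - (q.2 l : ℤ))) = 1 := by
      by_contra hcon
      push Not at hcon
      have h1 : ∀ᶠ x in (φ : Filter (Fin n → ℂ)), ∀ q ∈ f.support ×ˢ f.support,
          ¬ (q.1 ≠ q.2 ∧ ∏ l, (∏ i, x i ^ γ l i) ^
          ((f.support.card.factorial : ℤ) * ((q.1 l : ℤ) - (q.2 l : ℤ))) = 1) := by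
        rw [Filter.eventually_all_finset]
        intro q hq
        exact (hcon q hq).mono fun x h h' => h h'.1 h'.2
      obtain ⟨x, ⟨q, hq, hq1⟩, hq2⟩ := (hev.and h1).exists
      exact hq2 q hq hq1
    obtain ⟨x1, hne12, -⟩ := hq'.exists
    set e : Fin m → ℤ :=
      fun l => (f.support.card.factorial : ℤ) * ((q.1 l : ℤ) - (q.2 l : ℤ)) with he
    have he0 : e ≠ 0 := by
      intro h
      apply hne12
      ext l
      have h1 := congrFun h l
      simp only [he, Pi.zero_apply, mul_eq_zero] at h1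
      rcases h1 with h1 | h1
      · exact absurd h1 (by exact_mod_cast Nat.factorial_ne_zero _)
      · omega
    have hbin : bin e ∈ Qid φ γ := by
      refine mem_Qid_of_ev hP hX hon hgen γ _ ?_
      filter_upwards [hon, hq'] with x hx hx'
      exact (eval_bin e (onTorus_image hP hX hon hgen γ hx).1).mpr hx'.2
    refine ⟨T γ e, fun h => he0 (T_inj hγ (h.trans (map_zero _).symm)), fun x hx => ?_⟩
    rw [← prod_T γ e hx.1]
    have ht := onTorus_image hP hX hon hgen γ hx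
    exact (eval_bin e ht.1).mp (ht.2 _ hbin)
  rw [hdim]
  have h1 : 1 ≤ L.card := Nat.one_le_iff_ne_zero.mpr h0
  have h2 : L.card + 2 ≤ m := by omega
  exact ⟨by exact_mod_cast h1, by exact_mod_cast h2⟩

end

/-! ### Result -/

theorem result (n : ℕ) (P : Ideal (MvPolynomial (Fin n) ℂ)) (hP : P.IsPrime)
    (hX : (∏ i : Fin n, (X i : MvPolynomial (Fin n) ℂ)) ∉ P)
    (hU : ∀ f : MvPolynomial (Fin n) ℂ, (∀ x, Unlikely n P x → eval x f = 0) →
      ∀ x, OnTorus n P x → eval x f = 0)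
    (hne : ¬ InSubgroup n P) :
    ∃ (m : ℕ) (γ : Fin m → Fin n → ℤ) (Q : Ideal (MvPolynomial (Fin m) ℂ)),
      LinearIndependent ℤ γ ∧ Q.IsPrime ∧ (∏ l : Fin m, (X l : MvPolynomial (Fin m) ℂ)) ∉ Q ∧
      (∀ f, f ∈ Q ↔ ∀ x, OnTorus n P x → eval (fun l => ∏ i, x i ^ γ l i) f = 0) ∧
      Q = Ideal.span {g | g ∈ Q ∧ ∀ s, IsAlgebraic ℚ (coeff s g)} ∧
      (∀ f, (∀ y, Unlikely m Q y → (∀ l, IsAlgebraic ℚ (y l)) → eval y f = 0) →
        ∀ y, OnTorus m Q y → eval y f = 0) ∧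
      ¬ InSubgroup m Q ∧
      1 ≤ ringKrullDim (MvPolynomial (Fin m) ℂ ⧸ Q) ∧
      ringKrullDim (MvPolynomial (Fin m) ℂ ⧸ Q) + 2 ≤ (m : WithBot ℕ∞) := by
  obtain ⟨φ, hφU, hgen⟩ := exists_ultra n P hP hX hU
  have hon : ∀ᶠ x in (φ : Filter (Fin n → ℂ)), OnTorus n P x := hφU.mono fun x hx => hx.1
  obtain ⟨m, ⟨B⟩⟩ : ∃ m : ℕ, Nonempty (Module.Basis (Fin m) ℤ (GamZ φ)) :=
    ⟨_, ⟨Module.finBasis ℤ (GamZ φ)⟩⟩
  set γ : Fin m → Fin n → ℤ := fun l => (B l : Fin n → ℤ) with hγdef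
  have hγ : LinearIndependent ℤ γ :=
    B.linearIndependent.map' (GamZ φ).subtype (Submodule.ker_subtype _)
  have hspan : Submodule.span ℤ (Set.range γ) = GamZ φ := by
    have h1 : Set.range γ = (GamZ φ).subtype '' Set.range B := by
      rw [← Set.range_comp]; rfl
    rw [h1, Submodule.span_image, B.span_eq, Submodule.map_top, Submodule.range_subtype]
  have hγ' : ∀ l, γ l ∈ GamZ φ := fun l => (B l).2
  obtain ⟨hQ, hQX⟩ := Qid_prime hP hX hon hgen γ
  refine ⟨m, γ, Qid φ γ, hγ, hQ, hQX, mem_Qid_iff hP hX hon hgen γ,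
    Qid_alg hP hX hon hgen γ hγ', ?_, ?_, image_codim hP hX hon hgen hφU γ hγ hspan hne⟩
  · intro f hf y hy
    refine hy.2 f (mem_Qid_of_ev hP hX hon hgen γ f ?_)
    filter_upwards [unlikely_image hP hX hon hgen hφU γ hγ hspan] with x hx
    exact hf _ hx.1 hx.2
  · rintro ⟨a, ha0, ha⟩
    apply hne
    refine ⟨T γ a, fun h => ha0 (T_inj hγ (h.trans (map_zero _).symm)), fun x hx => ?_⟩
    rw [← prod_T γ a hx.1]
    exact ha _ (onTorus_image hP hX hon hgen γ hx)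

end Pool.Agent.CITR
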