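import Mathlib

set_option autoImplicit false

namespace Pool.Agent.CITR

namespace DlogA

open Polynomial

theorem exists_factor {k : Type*} [Field k] (a : k[X]) (ha : a ≠ 0) :
    ∃ b : k[X], a = X ^ a.natTrailingDegree * b ∧ b.coeff 0 ≠ 0 := by
  have hd : X ^ a.natTrailingDegree ∣ a := by
    rw [X_pow_dvd_iff]
    intro d hd
    exact coeff_eq_zero_of_lt_natTrailingDegree hd
  obtain ⟨b, hb⟩ := hd
  refine ⟨b, hb, ?_⟩
  have h1 : a.coeff a.natTrailingDegree ≠ 0 :=
    mem_support_iff.mp (natTrailingDegree_mem_support_of_nonzero ha)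
  have h2 : (X ^ a.natTrailingDegree * b).coeff (0 + a.natTrailingDegree) = b.coeff 0 :=
    coeff_X_pow_mul b a.natTrailingDegree 0
  rw [← hb, zero_add] at h2
  rwa [← h2]

theorem X_mul_derivative {k : Type*} [Field k] (b : k[X]) (v : ℕ) :
    X * derivative (X ^ v * b) = (v : k[X]) * (X ^ v * b) + X ^ v * (X * derivative b) := by
  cases v with
  | zero => simp
  | succ v =>
    rw [derivative_mul, derivative_X_pow]
    simp only [Nat.add_sub_cancel, map_natCast]
    ring

/-- residue at `0` of a sum of logarithmic derivatives of polynomials -/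
theorem residue_zero {k₁ K : Type*} [Field k₁] [Field K] [Algebra k₁ K] {t : K}
    (ht : Transcendental k₁ t) {ι : Type*} [Fintype ι] (c : ι → k₁) (a : ι → k₁[X])
    (ha : ∀ i, a i ≠ 0)
    (h : ∑ i, algebraMap k₁ K (c i) * (aeval t (derivative (a i)) / aeval t (a i)) = 0) :
    ∑ i, c i * ((a i).natTrailingDegree : k₁) = 0 := by
  classical
  choose b hb hb0 using fun i => exists_factor (a i) (ha i)
  have hinj : ∀ p : k₁[X], aeval t p = 0 → p = 0 := fun p hp => by
    by_contra hne
    exact ht ⟨p, hne, hp⟩
  have hbne : ∀ i, b i ≠ 0 := fun i h0 => hb0 i (by rw [h0, coeff_zero])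
  have hbt : ∀ i, aeval t (b i) ≠ 0 := fun i h0 => hbne i (hinj _ h0)
  have hat : ∀ i, aeval t (a i) ≠ 0 := fun i h0 => ha i (hinj _ h0)
  have ht0 : t ≠ 0 := fun h0 => X_ne_zero (R := k₁) (hinj X (by rw [aeval_X, h0]))
  -- the derivative formula
  have hder : ∀ i, t * (aeval t (derivative (a i)) / aeval t (a i)) =
      ((a i).natTrailingDegree : K) + t * (aeval t (derivative (b i)) / aeval t (b i)) := by
    intro i
    have h1 : X * derivative (a i) = ((a i).natTrailingDegree : k₁[X]) * a i +
        X ^ (a i).natTrailingDegree * (X * derivative (b i)) := by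
      have h2 := X_mul_derivative (b i) (a i).natTrailingDegree
      rw [← hb i] at h2
      exact h2
    have h3 := congrArg (aeval t) h1
    simp only [map_mul, map_add, aeval_X, map_natCast, map_pow] at h3
    have h4 : aeval t (a i) = t ^ (a i).natTrailingDegree * aeval t (b i) := by
      conv_lhs => rw [hb i]
      simp only [map_mul, map_pow, aeval_X]
    have hbi := hbt i
    have hai := hat i
    rw [← mul_div_assoc, h3, add_div, mul_div_assoc, div_self hai, mul_one]
    congr 1
    rw [h4]
    have := pow_ne_zero (a i).natTrailingDegree ht0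
    field_simp
  set s : k₁ := ∑ i, c i * ((a i).natTrailingDegree : k₁) with hs
  set B : k₁[X] := ∏ i, b i with hB
  have hBt : aeval t B ≠ 0 := by
    rw [hB, map_prod]
    exact Finset.prod_ne_zero_iff.mpr fun i _ => hbt i
  set R : k₁[X] := ∑ i, C (c i) * (derivative (b i) * ∏ j ∈ Finset.univ.erase i, b j) with hR
  have hRt : aeval t R = aeval t B * ∑ i, algebraMap k₁ K (c i) *
      (aeval t (derivative (b i)) / aeval t (b i)) := by
    rw [hR, map_sum, Finset.mul_sum]
    refine Finset.sum_congr rfl fun i _ => ?_
    have h5 : B = b i * ∏ j ∈ Finset.univ.erase i, b j :=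
      (Finset.mul_prod_erase Finset.univ b (Finset.mem_univ i)).symm
    rw [h5]
    simp only [map_mul, aeval_C]
    have hbi := hbt i
    field_simp
  have hpoly : C s * B + X * R = 0 := by
    apply hinj
    rw [map_add, map_mul, map_mul, aeval_C, aeval_X, hRt]
    have h6 : ∑ i, algebraMap k₁ K (c i) *
        (t * (aeval t (derivative (a i)) / aeval t (a i))) = 0 := by
      have := congrArg (fun z => t * z) h
      simp only [mul_zero, Finset.mul_sum] at this
      rw [← this]
      exact Finset.sum_congr rfl fun i _ => by ring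
    have h7 : algebraMap k₁ K s + t * ∑ i, algebraMap k₁ K (c i) *
        (aeval t (derivative (b i)) / aeval t (b i)) = 0 := by
      rw [← h6, hs, map_sum, Finset.mul_sum, ← Finset.sum_add_distrib]
      refine Finset.sum_congr rfl fun i _ => ?_
      rw [hder i, map_mul, map_natCast]
      ring
    have h8 := congrArg (fun z => aeval t B * z) h7
    simp only [mul_zero] at h8
    rw [← h8]
    ring
  have h9 := congrArg (fun p => coeff p 0) hpoly
  simp only [coeff_add, coeff_C_mul, coeff_X_mul_zero, coeff_zero, add_zero] at h9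
  have hB0 : B.coeff 0 ≠ 0 := by
    rw [hB, coeff_zero_eq_eval_zero, eval_prod]
    exact Finset.prod_ne_zero_iff.mpr fun i _ => by
      rw [← coeff_zero_eq_eval_zero]
      exact hb0 i
  exact (mul_eq_zero.mp h9).resolve_right hB0

end DlogA

end Pool.Agent.CITR
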